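import Mathlib

/-!
Definitions for problem MP_294ed4_gt, copied from the problem file.
-/

open Set

namespace Pool.Agent.P.MP_294ed4_gt

universe u

/-- A family `𝒜` of subsets of `Y` is weakly σ-point-finite: `𝒜 = ⋃ n, ℬ n`, and for every point
`y`, `𝒜` is the union of those `ℬ n` such that `y` lies in only finitely many members of `ℬ n`. -/
def WeaklySigmaPointFinite {Y : Type u} (𝒜 : Set (Set Y)) : Prop :=
  ∃ ℬ : ℕ → Set (Set Y), 𝒜 = ⋃ n, ℬ n ∧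
    ∀ y : Y, 𝒜 = ⋃ n ∈ {n : ℕ | {A ∈ ℬ n | y ∈ A}.Finite}, ℬ n

/-- Every open cover has a weakly σ-point-finite open refinement. -/
def WeaklySigmaMetacompact (Y : Type u) [TopologicalSpace Y] : Prop :=
  ∀ 𝒰 : Set (Set Y), (∀ U ∈ 𝒰, IsOpen U) → ⋃₀ 𝒰 = univ →
    ∃ 𝒱 : Set (Set Y), (∀ V ∈ 𝒱, IsOpen V) ∧ ⋃₀ 𝒱 = univ ∧ (∀ V ∈ 𝒱, ∃ U ∈ 𝒰, V ⊆ U) ∧
      WeaklySigmaPointFinite 𝒱

/-- Every subspace is weakly σ-metacompact. -/
def HereditarilyWeaklySigmaMetacompact (Y : Type u) [TopologicalSpace Y] : Prop :=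
  ∀ Z : Set Y, WeaklySigmaMetacompact Z

/-- Lindelöf Σ-space: a countable network modulo a cover by compact sets. -/
def IsLindelofSigma (Y : Type u) [TopologicalSpace Y] : Prop :=
  ∃ 𝒩 𝒞 : Set (Set Y), 𝒩.Countable ∧ (∀ K ∈ 𝒞, IsCompact K) ∧ ⋃₀ 𝒞 = univ ∧
    ∀ K ∈ 𝒞, ∀ U : Set Y, IsOpen U → K ⊆ U → ∃ N ∈ 𝒩, K ⊆ N ∧ N ⊆ U

/-- Σ-space (Nagami): a σ-locally finite network modulo a cover by closed countably compact
sets. -/
def IsSigmaSpace (Y : Type u) [TopologicalSpace Y] : Prop :=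
  ∃ (ℱ : ℕ → Set (Set Y)) (𝒞 : Set (Set Y)),
    (∀ n, LocallyFinite fun F : ℱ n => (F : Set Y)) ∧
    (∀ K ∈ 𝒞, IsClosed K ∧ IsCountablyCompact K) ∧ ⋃₀ 𝒞 = univ ∧
    ∀ K ∈ 𝒞, ∀ U : Set Y, IsOpen U → K ⊆ U → ∃ n, ∃ F ∈ ℱ n, K ⊆ F ∧ F ⊆ U

/-- The complement of the diagonal in the square. -/
def offDiagonal (X : Type u) : Set (X × X) := {p | p.1 ≠ p.2}

/-- `C_p(X)`: continuous real functions with the topology of pointwise convergence (the subspace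
topology from the product `X → ℝ`). -/
abbrev Cp (X : Type u) [TopologicalSpace X] : Type u := {f : X → ℝ // Continuous f}

end Pool.Agent.P.MP_294ed4_gt
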