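import Pool.Agent.P.MP_294ed4_gt.K76Defs

open Cardinal Set Filter

universe u

namespace Pool.Agent.K76

section Card
variable {m : Cardinal.{u}}

theorem card_prod {A B : Type u} (hm : ℵ₀ ≤ m) (hA : #A ≤ m) (hB : #B ≤ m) : #(A × B) ≤ m := by
  rw [mk_prod, lift_id, lift_id]
  calc #A * #B ≤ m * m := mul_le_mul' hA hB
    _ = m := mul_eq_self hm

theorem card_prod_cnt {A : Type u} (B : Type) [Countable B] (hm : ℵ₀ ≤ m) (hA : #A ≤ m) :
    #(A × B) ≤ m := by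
  have h1 : #(ULift.{u} B) ≤ m := mk_le_aleph0.trans hm
  have h2 := card_prod hm hA h1
  rwa [mk_congr (Equiv.prodCongr (Equiv.refl A) Equiv.ulift)] at h2

theorem card_cnt_prod {A : Type u} (B : Type) [Countable B] (hm : ℵ₀ ≤ m) (hA : #A ≤ m) :
    #(B × A) ≤ m := by
  rw [mk_congr (Equiv.prodComm B A)]
  exact card_prod_cnt B hm hA

theorem card_list {A : Type u} (hm : ℵ₀ ≤ m) (hA : #A ≤ m) : #(List A) ≤ m :=
  (mk_list_le_max A).trans (max_le hm hA)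

theorem card_biUnion {ι A : Type u} {s : Set ι} {f : ι → Set A} (hm : ℵ₀ ≤ m) (hs : #s ≤ m)
    (hf : ∀ i ∈ s, #(f i) ≤ m) : #(⋃ i ∈ s, f i) ≤ m := by
  refine (mk_biUnion_le f s).trans ?_
  have h : (⨆ x : s, #(f x.1)) ≤ m := ciSup_le' fun x => hf x.1 x.2
  calc _ ≤ m * m := mul_le_mul' hs h
    _ = m := mul_eq_self hm

theorem card_iUnion_nat {A : Type u} {f : ℕ → Set A} (hm : ℵ₀ ≤ m) (hf : ∀ i, #(f i) ≤ m) :
    #(⋃ i, f i) ≤ m := by
  have h : (⋃ i, f i) = ⋃ i ∈ (Set.univ : Set (ULift.{u} ℕ)), f i.down := by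
    ext x; simp
  rw [h]
  exact card_biUnion hm (mk_le_aleph0.trans hm) fun i _ => hf _

theorem card_union {A : Type u} {s t : Set A} (hm : ℵ₀ ≤ m) (hs : #s ≤ m) (ht : #t ≤ m) :
    #(s ∪ t : Set A) ≤ m :=
  (mk_union_le s t).trans (add_le_of_le hm hs ht)

theorem card_lists {A : Type u} {S : Set A} (hm : ℵ₀ ≤ m) (hS : #S ≤ m) :
    #{l : List A | ∀ a ∈ l, a ∈ S} ≤ m := by
  have h : {l : List A | ∀ a ∈ l, a ∈ S} ⊆ range (fun l : List S => l.map Subtype.val) := by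
    intro l hl
    refine ⟨l.pmap (fun a h => ⟨a, h⟩) hl, ?_⟩
    simp [List.map_pmap]
  exact (mk_le_mk_of_subset h).trans (mk_range_le.trans (card_list hm hS))

theorem card_finite {A : Type u} {s : Set A} (hm : ℵ₀ ≤ m) (hs : s.Finite) : #s ≤ m :=
  hs.lt_aleph0.le.trans hm

end Card

/-- indexed form of weak `k`-point-finiteness -/
def WPF (k : Cardinal.{u}) {J Y : Type u} (B : J → Set Y) : Prop :=
  ∃ (C : Type u) (c : C → Set J), #C ≤ k ∧
    ∀ y j, ∃ q, j ∈ c q ∧ {i | i ∈ c q ∧ y ∈ B i}.Finite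

/-- the ultrafilter property -/
def UF {W Y D L : Type u} (Good : Ultrafilter L → Prop) (J : Set W) (B : W → Set Y) (d : W → D)
    (lam : W → List L) : Prop :=
  ∀ (y : Y) (U : Ultrafilter W) (d0 : D), (∀ᶠ w in U, w ∈ J ∧ y ∈ B w ∧ d w = d0) →
    (∃ w0, U = pure w0) ∨ ∃ l : W → L, (∀ᶠ w in U, l w ∈ lam w) ∧ Good (U.map l)

theorem transfer {k : Cardinal.{u}} (hk : ℵ₀ ≤ k) {W Y D L C : Type u}
    {Good : Ultrafilter L → Prop} {J : Set W} {B : W → Set Y} {d : W → D} {lam : W → List L}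
    (hU : UF Good J B d lam) (hD : #D ≤ k) (hC : #C ≤ k) (mem nu : L → C → Prop)
    (hnu : ∀ l q, nu l q → mem l q)
    (hG : ∀ (l0 : L) (V : Ultrafilter L), (∀ q, nu l0 q → ∀ᶠ l in V, mem l q) → ¬ Good V) :
    WPF k (fun j : J => B j.1) := by
  classical
  refine ⟨D × List (List C),
    fun p => {j | d j.1 = p.1 ∧ ∀ l ∈ lam j.1, ∃ π ∈ p.2, ∀ q ∈ π, mem l q},
    card_prod hk hD (card_list hk (card_list hk hC)), fun y j0 => ?_⟩
  by_contra hcon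
  push Not at hcon
  -- the sets of the filter base
  let G : Finset C → Set W := fun t => {w | w ∈ J ∧ y ∈ B w ∧ d w = d j0.1 ∧
    ∀ l ∈ lam w, ∃ l0 ∈ lam j0.1, ∀ q ∈ t, nu l0 q → mem l q}
  have hGinf : ∀ t, (G t).Infinite := by
    intro t
    have h1 := hcon (d j0.1, (lam j0.1).map fun l0 => t.toList.filter fun q => nu l0 q) (by
      refine ⟨rfl, fun l hl => ⟨_, List.mem_map_of_mem hl, fun q hq => hnu _ _ ?_⟩⟩
      simpa using (List.mem_filter.1 hq).2)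
    refine (h1.image Subtype.val_injective.injOn).mono ?_
    rintro _ ⟨j, ⟨⟨h2, h3⟩, h4⟩, rfl⟩
    refine ⟨j.2, h4, h2, fun l hl => ?_⟩
    obtain ⟨π, hπ, h5⟩ := h3 l hl
    obtain ⟨l0, hl0, rfl⟩ := List.mem_map.1 hπ
    exact ⟨l0, hl0, fun q hq hn => h5 q (List.mem_filter.2 ⟨by simpa using hq, by simpa using hn⟩)⟩
  have hanti : ∀ s t : Finset C, s ⊆ t → G t ⊆ G s := by
    rintro s t hst w ⟨h1, h2, h3, h4⟩
    refine ⟨h1, h2, h3, fun l hl => ?_⟩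
    obtain ⟨l0, hl0, h5⟩ := h4 l hl
    exact ⟨l0, hl0, fun q hq => h5 q (hst hq)⟩
  have hne : (⨅ t, (cofinite ⊓ 𝓟 (G t))).NeBot := by
    refine iInf_neBot_of_directed' ?_ fun t => ?_
    · intro s t
      exact ⟨s ∪ t, inf_le_inf_left _ (principal_mono.2 (hanti _ _ Finset.subset_union_left)),
        inf_le_inf_left _ (principal_mono.2 (hanti _ _ Finset.subset_union_right))⟩
    · exact (hGinf t).cofinite_inf_principal_neBot
  obtain ⟨U, hUle⟩ := Ultrafilter.exists_le (⨅ t, (cofinite ⊓ 𝓟 (G t)))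
  have hUG : ∀ t, G t ∈ U := fun t =>
    le_principal_iff.1 (hUle.trans ((iInf_le _ t).trans inf_le_right))
  have hUc : (U : Filter W) ≤ cofinite := hUle.trans ((iInf_le _ ∅).trans inf_le_left)
  rcases hU y U (d j0.1) (mem_of_superset (hUG ∅) fun w hw => ⟨hw.1, hw.2.1, hw.2.2.1⟩) with
    ⟨w0, rfl⟩ | ⟨l, hl, hgood⟩
  · have := hUc ((finite_singleton w0).compl_mem_cofinite)
    simp at this
  · have hex : ∃ l0 ∈ lam j0.1, ∀ q, nu l0 q → ∀ᶠ w in U, mem (l w) q := by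
      by_contra hno
      have hno' : ∀ l0 : {l0 // l0 ∈ lam j0.1}, ∃ q, nu l0.1 q ∧ ¬ ∀ᶠ w in U, mem (l w) q := by
        intro l0
        by_contra h1
        exact hno ⟨l0.1, l0.2, fun q hq => by_contra fun h2 => h1 ⟨q, hq, h2⟩⟩
      choose q hq1 hq2 using hno'
      have h1 : ∀ᶠ w in U, ∃ l0 ∈ {l0 | l0 ∈ (lam j0.1).attach}, mem (l w) (q l0) := by
        filter_upwards [hUG ((lam j0.1).attach.map q).toFinset, hl] with w hw hw2
        obtain ⟨l0, hl0, h5⟩ := hw.2.2.2 _ hw2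
        exact ⟨⟨l0, hl0⟩, List.mem_attach _ _, h5 _ (List.mem_toFinset.2
          (List.mem_map_of_mem (List.mem_attach _ _))) (hq1 ⟨l0, hl0⟩)⟩
      obtain ⟨l0, -, h2⟩ :=
        (Ultrafilter.eventually_exists_mem_iff (List.finite_toSet _)).1 h1
      exact hq2 l0 h2
    obtain ⟨l0, -, h0⟩ := hex
    exact hG l0 (U.map l) (fun q hq => h0 q hq) hgood

/-- the root of a family of short lists along an ultrafilter is finite -/
theorem root_finite {W L : Type u} (U : Ultrafilter W) (F : W → List L) (n : ℕ)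
    (h : ∀ᶠ w in U, (F w).length ≤ n) : {i | ∀ᶠ w in U, i ∈ F w}.Finite := by
  classical
  by_contra hinf
  obtain ⟨t, ht, hc⟩ := Set.Infinite.exists_subset_card_eq hinf (n + 1)
  have h1 : ∀ᶠ w in U, ∀ i ∈ t, i ∈ F w :=
    (Filter.eventually_all_finset t).2 fun i hi => ht hi
  obtain ⟨w, hw1, hw2⟩ := (h.and h1).exists
  have h2 : t ⊆ (F w).toFinset := fun i hi => by simpa using hw2 i hi
  have h3 := (Finset.card_le_card h2).trans (List.toFinset_card_le _)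
  omega

/-- the standard goodness predicate: a free ultrafilter of sets with a common point -/
def Hit {L Z : Type u} (A : L → Set Z) (V : Ultrafilter L) : Prop :=
  (∀ i, V ≠ pure i) ∧ ∃ z, ∀ᶠ i in V, z ∈ A i

theorem WPF.of_UF {k : Cardinal.{u}} (hk : ℵ₀ ≤ k) {W Y D L Z : Type u} {A : L → Set Z}
    (hA : WPF k A) {J : Set W} {B : W → Set Y} {d : W → D} {lam : W → List L}
    (hU : UF (Hit A) J B d lam) (hD : #D ≤ k) : WPF k (fun j : J => B j.1) := by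
  obtain ⟨C, c, hC, h⟩ := hA
  refine transfer hk hU hD hC (fun l q => l ∈ c q) (fun l q => l ∈ c q) (fun _ _ h => h) ?_
  rintro l0 V hV ⟨h1, z, hz⟩
  obtain ⟨q, hq, hfin⟩ := h z l0
  obtain ⟨i, -, hi⟩ := Ultrafilter.eq_pure_of_finite_mem hfin ((hV q hq).and hz)
  exact h1 i hi

theorem WPF.card_le {k : Cardinal.{u}} (hk : ℵ₀ ≤ k) {L Z : Type u} {A : L → Set Z}
    (hA : WPF k A) (z : Z) : #{i | z ∈ A i} ≤ k := by
  obtain ⟨C, c, hC, h⟩ := hA
  have h1 : {i | z ∈ A i} ⊆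
      ⋃ q ∈ {q | {i | i ∈ c q ∧ z ∈ A i}.Finite}, {i | i ∈ c q ∧ z ∈ A i} := by
    intro i hi
    obtain ⟨q, hq, hfin⟩ := h z i
    exact mem_biUnion hfin ⟨hq, hi⟩
  exact (mk_le_mk_of_subset h1).trans
    (card_biUnion hk ((mk_set_le _).trans hC) fun q hq => card_finite hk hq)

theorem WPF.weaklyPF {k : Cardinal.{u}} (hk : ℵ₀ ≤ k) {J Y : Type u} {B : J → Set Y} (h : WPF k B) :
    WeaklyPF k (range B) := by
  obtain ⟨C, c, hC, h⟩ := h
  by_cases hY : Nonempty Y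
  · obtain ⟨y0⟩ := hY
    refine ⟨range fun q => B '' c q, mk_range_le.trans hC, ?_, fun y => ?_⟩
    · apply Subset.antisymm
      · rintro _ ⟨_, ⟨q, rfl⟩, j, -, rfl⟩
        exact ⟨j, rfl⟩
      · rintro _ ⟨j, rfl⟩
        obtain ⟨q, hq, -⟩ := h y0 j
        exact ⟨_, ⟨q, rfl⟩, j, hq, rfl⟩
    · apply Subset.antisymm
      · rintro _ ⟨_, ⟨⟨q, rfl⟩, -⟩, j, -, rfl⟩
        exact ⟨j, rfl⟩
      · rintro _ ⟨j, rfl⟩
        obtain ⟨q, hq, hfin⟩ := h y j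
        refine ⟨_, ⟨⟨q, rfl⟩, (hfin.image B).subset ?_⟩, j, hq, rfl⟩
        rintro _ ⟨⟨i, hi, rfl⟩, hy⟩
        exact ⟨i, ⟨hi, hy⟩, rfl⟩
  · exact ⟨{range B}, card_finite hk (finite_singleton _), by simp, fun y => (hY ⟨y⟩).elim⟩

theorem WeaklyPF.wpf {k : Cardinal.{u}} {Y : Type u} {A : Set (Set Y)} (h : WeaklyPF k A) :
    WPF k (fun U : A => U.1) := by
  obtain ⟨D, hD, -, h⟩ := h
  refine ⟨D, fun B => {U | U.1 ∈ B.1}, hD, fun y U => ?_⟩
  have h1 : U.1 ∈ ⋃₀ {B | B ∈ D ∧ {U | U ∈ B ∧ y ∈ U}.Finite} := (h y).symm ▸ U.2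
  obtain ⟨B, ⟨hB, hfin⟩, hU⟩ := h1
  refine ⟨⟨B, hB⟩, hU, ?_⟩
  exact hfin.preimage (f := Subtype.val) Subtype.val_injective.injOn

end Pool.Agent.K76
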