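import Mathlib

open Cardinal Set

universe u

namespace Pool.Agent.K76

/-- `A` is weakly `k`-point-finite: `A` is the union of a set `D` of at most `k` subfamilies, and
for every point `z` it is already the union of those members of `D` in which only finitely many
sets contain `z`. -/
def WeaklyPF {Z : Type u} (k : Cardinal.{u}) (A : Set (Set Z)) : Prop :=
  ∃ D : Set (Set (Set Z)), #D ≤ k ∧ ⋃₀ D = A ∧
    ∀ z : Z, ⋃₀ {B | B ∈ D ∧ {U | U ∈ B ∧ z ∈ U}.Finite} = A

/-- Every open cover has a weakly `k`-point-finite open refinement. -/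
def WeaklyMetacompact (k : Cardinal.{u}) (Z : Type u) [TopologicalSpace Z] : Prop :=
  ∀ O : Set (Set Z), (∀ U ∈ O, IsOpen U) → ⋃₀ O = Set.univ →
    ∃ A : Set (Set Z), (∀ U ∈ A, IsOpen U) ∧ ⋃₀ A = Set.univ ∧ (∀ U ∈ A, ∃ V ∈ O, U ⊆ V) ∧
      WeaklyPF k A

/-- There are a family `N` of at most `k` sets and a cover `C` by compact sets such that `N` is a
network at every member of `C`. -/
def NagamiLE (k : Cardinal.{u}) (Y : Type u) [TopologicalSpace Y] : Prop :=
  ∃ N C : Set (Set Y), #N ≤ k ∧ (∀ K ∈ C, IsCompact K) ∧ ⋃₀ C = Set.univ ∧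
    ∀ K ∈ C, ∀ U : Set Y, IsOpen U → K ⊆ U → ∃ M ∈ N, K ⊆ M ∧ M ⊆ U

/-- Continuous real functions with the topology of pointwise convergence. -/
abbrev Cp (X : Type u) [TopologicalSpace X] : Type u := {f : X → ℝ // Continuous f}

end Pool.Agent.K76
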