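import Pool.Agent.P.MP_294ed4_gt.K76Two

open Cardinal Set Filter Topology

universe u

namespace Pool.Agent.K76

variable {X J : Type u} [TopologicalSpace X] {k : Cardinal.{u}}

theorem approx [CompactSpace X] (h : J → C(X, ℝ)) (hsep : ∀ x y, x ≠ y → ∃ j, h j x ≠ h j y)
    (f : C(X, ℝ)) (m : ℕ) : ∃ (p : Σ n : ℕ, MvPolynomial (Fin n) ℚ) (a : Fin p.1 → J),
      ∀ x, |f x - MvPolynomial.aeval (fun s => h (a s) x) p.2| ≤ 1 / ((m : ℝ) + 1) := by
  let R : Subring C(X, ℝ) := (MvPolynomial.aeval (R := ℚ) h).toRingHom.range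
  let A : Subalgebra ℝ C(X, ℝ) :=
    { R.topologicalClosure with
      algebraMap_mem' := by
        intro r
        have h1 : Continuous fun r : ℝ => algebraMap ℝ C(X, ℝ) r := continuous_algebraMap _ _
        refine map_mem_closure h1 (Rat.denseRange_cast r) ?_
        rintro _ ⟨q, rfl⟩
        refine ⟨MvPolynomial.C q, ?_⟩
        ext x
        simp }
  have hA : A.SeparatesPoints := by
    intro x y hxy
    obtain ⟨j, hj⟩ := hsep x y hxy
    exact ⟨h j, ⟨h j, subset_closure ⟨MvPolynomial.X j, by simp⟩, rfl⟩, hj⟩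
  have h1 : f ∈ A.topologicalClosure := by
    rw [ContinuousMap.subalgebra_topologicalClosure_eq_top_of_separatesPoints A hA]
    trivial
  have h2 : f ∈ closure (closure (R : Set C(X, ℝ))) := h1
  rw [closure_closure, Metric.mem_closure_iff] at h2
  obtain ⟨_, ⟨p, rfl⟩, h3⟩ := h2 _ (Nat.one_div_pos_of_nat (n := m))
  obtain ⟨n, a, -, q, rfl⟩ := MvPolynomial.exists_fin_rename p
  refine ⟨⟨n, q⟩, a, fun x => ?_⟩
  have h4 := (ContinuousMap.dist_apply_le_dist x).trans h3.le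
  rw [Real.dist_eq] at h4
  have h5 := MvPolynomial.comp_aeval_apply (h ∘ a) (ContinuousMap.evalAlgHom ℚ ℝ x) q
  refine le_of_eq_of_le ?_ h4
  congr 2
  refine Eq.trans h5.symm ?_
  simp [MvPolynomial.aeval_rename]

/-- extension of the family by the zero function -/
def opt (h : J → C(X, ℝ)) (o : Option J) : C(X, ℝ) := o.elim 0 h

theorem level_lim {W C : Type u} (h : J → C(X, ℝ)) (c : C → Set J)
    (hc : ∀ x j, ∃ q, j ∈ c q ∧ {i | i ∈ c q ∧ h i x ≠ 0}.Finite) (U : Ultrafilter W) {n : ℕ}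
    (a : Fin n → J) (G : W → X → (Fin n → ℝ) → Prop)
    (hU : ∀ t : Finset C, ∀ᶠ f in U, ∃ b : Fin n → Option J,
      (∀ s j, b s = some j → ∀ q ∈ t, a s ∈ c q → j ∈ c q) ∧ ∀ x, G f x fun s => opt h (b s) x) :
    ∃ b : Fin n → Option J, (∀ s j, b s = some j → ∀ q, a s ∈ c q → j ∈ c q) ∧
      ∀ x, ∀ᶠ f in U, G f x fun s => opt h (b s) x := by
  classical
  let S : Finset C → Set (W × (Fin n → Option J)) := fun t => {p |
    (∀ s j, p.2 s = some j → ∀ q ∈ t, a s ∈ c q → j ∈ c q) ∧ ∀ x, G p.1 x fun s => opt h (p.2 s) x}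
  have hanti : ∀ s t : Finset C, s ⊆ t → S t ⊆ S s :=
    fun s t hst p hp => ⟨fun i j h1 q hq => hp.1 i j h1 q (hst hq), hp.2⟩
  have hne : (⨅ t, (comap Prod.fst (U : Filter W) ⊓ 𝓟 (S t))).NeBot := by
    refine iInf_neBot_of_directed' ?_ fun t => ?_
    · intro s t
      exact ⟨s ∪ t, inf_le_inf_left _ (principal_mono.2 (hanti _ _ Finset.subset_union_left)),
        inf_le_inf_left _ (principal_mono.2 (hanti _ _ Finset.subset_union_right))⟩
    · refine comap_inf_principal_neBot_of_image_mem U.neBot ?_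
      filter_upwards [hU t] with f ⟨b, hb⟩
      exact ⟨(f, b), hb, rfl⟩
  obtain ⟨V, hV⟩ := Ultrafilter.exists_le (⨅ t, (comap Prod.fst (U : Filter W) ⊓ 𝓟 (S t)))
  have hVS : ∀ t, S t ∈ V := fun t =>
    le_principal_iff.1 (hV.trans ((iInf_le _ t).trans inf_le_right))
  have hVU : V.map Prod.fst = U := Ultrafilter.eq_of_le
    (map_le_iff_le_comap.2 (hV.trans ((iInf_le _ ∅).trans inf_le_left)))
  have hb : ∀ s, ∃ o : Option J, (∀ j, o = some j → ∀ q, a s ∈ c q → j ∈ c q) ∧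
      ∀ x, ∀ᶠ p : W × (Fin n → Option J) in V, opt h (p.2 s) x = opt h o x := by
    intro s
    by_cases h1 : ∃ o, ∀ᶠ p : W × (Fin n → Option J) in V, p.2 s = o
    · obtain ⟨o, ho⟩ := h1
      refine ⟨o, fun j hj q hq => ?_, fun x => ho.mono fun p hp => by rw [hp]⟩
      obtain ⟨p, h2, h3⟩ := (ho.and (hVS {q})).exists
      exact h3.1 s j (h2.trans hj) q (Finset.mem_singleton_self q) hq
    · refine ⟨none, fun j hj => (Option.some_ne_none j hj.symm).elim, fun x => ?_⟩
      by_contra h2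
      rw [← Ultrafilter.eventually_not] at h2
      obtain ⟨q, hq, hfin⟩ := hc x (a s)
      have h3 : ∀ᶠ p : W × (Fin n → Option J) in V,
          ∃ j ∈ {i | i ∈ c q ∧ h i x ≠ 0}, p.2 s = some j := by
        filter_upwards [h2, hVS {q}] with p h4 h5
        cases h6 : p.2 s with
        | none => rw [h6] at h4; exact (h4 rfl).elim
        | some j =>
          rw [h6] at h4
          exact ⟨j, ⟨h5.1 s j h6 q (Finset.mem_singleton_self q) hq, h4⟩, rfl⟩
      obtain ⟨j, -, h4⟩ := (Ultrafilter.eventually_exists_mem_iff hfin).1 h3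
      exact h1 ⟨_, h4⟩
  choose b hb1 hb2 using hb
  refine ⟨b, hb1, fun x => ?_⟩
  rw [← hVU]
  show ∀ᶠ p : W × (Fin n → Option J) in V, G p.1 x fun s => opt h (b s) x
  filter_upwards [eventually_all.2 fun s => hb2 s x, hVS ∅] with p h1 h2
  rw [← funext h1]
  exact h2.2 x

theorem SEP.nagami [CompactSpace X] (hk : ℵ₀ ≤ k) (hX : SEP k X) : NagamiLE k (Cp X) := by
  classical
  obtain ⟨J, h, hsep, C, c, hC, hc⟩ := hX
  choose p a hpa using fun (f : Cp X) (m : ℕ) => approx h hsep ⟨f.1, f.2⟩ m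
  let M : (ℕ × Σ n : ℕ, MvPolynomial (Fin n) ℚ) × List (List C) → Set (Cp X) := fun e =>
    {f | ∃ b : Fin e.1.2.1 → Option J,
      (∀ s j, b s = some j → ∀ q ∈ e.2.getD s [], j ∈ c q) ∧
      ∀ x, |f.1 x - MvPolynomial.aeval (fun s => opt h (b s) x) e.1.2.2| ≤ 1 / ((e.1.1 : ℝ) + 1)}
  let ee : Cp X → ℕ × Finset C → (ℕ × Σ n : ℕ, MvPolynomial (Fin n) ℚ) × List (List C) :=
    fun f i => ((i.1, p f i.1), List.ofFn fun s => i.2.toList.filter fun q => a f i.1 s ∈ c q)
  have hM : ∀ f0 i f, f ∈ M (ee f0 i) ↔ ∃ b : Fin (p f0 i.1).1 → Option J,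
      (∀ s j, b s = some j → ∀ q ∈ i.2, a f0 i.1 s ∈ c q → j ∈ c q) ∧
      ∀ x, |f.1 x - MvPolynomial.aeval (fun s => opt h (b s) x) (p f0 i.1).2| ≤
        1 / ((i.1 : ℝ) + 1) := by
    intro f0 i f
    refine exists_congr fun b => and_congr_left fun _ => forall_congr' fun s =>
      forall₂_congr fun j _ => forall_congr' fun q => ?_
    simp [ee]
  have hconv : ∀ (f0 : Cp X) (U : Ultrafilter (Cp X)), (∀ i, M (ee f0 i) ∈ U) →
      ∃ F ∈ ⋂ i, M (ee f0 i), (U : Filter (Cp X)) ≤ 𝓝 F := by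
    intro f0 U hU
    have h1 := fun m => level_lim h c hc U (a f0 m)
      (fun f x v => |f.1 x - MvPolynomial.aeval v (p f0 m).2| ≤ 1 / ((m : ℝ) + 1))
      fun t => mem_of_superset (hU (m, t)) fun f hf => (hM f0 (m, t) f).1 hf
    choose b hb1 hb2 using h1
    let Fm : ℕ → X → ℝ := fun m x => MvPolynomial.aeval (fun s => opt h (b m s) x) (p f0 m).2
    have hFm : ∀ m, Continuous (Fm m) := by
      intro m
      have h2 : Fm m = MvPolynomial.aeval (fun s => opt h (b m s)) (p f0 m).2 := by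
        funext x
        exact (MvPolynomial.comp_aeval_apply (fun s => opt h (b m s))
          (ContinuousMap.evalAlgHom ℚ ℝ x) (p f0 m).2).symm
      rw [h2]
      exact ContinuousMap.continuous _
    have h2 : ∀ x, ∃ r, Tendsto (fun f : Cp X => f.1 x) U (𝓝 r) := by
      intro x
      obtain ⟨r, -, hr⟩ := (isCompact_closedBall (Fm 0 x) (1 / (((0 : ℕ) : ℝ) + 1))).ultrafilter_le_nhds'
        (U.map fun f : Cp X => f.1 x) (hb2 0 x)
      exact ⟨r, hr⟩
    choose F hF using h2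
    have h3 : ∀ m x, |F x - Fm m x| ≤ 1 / ((m : ℝ) + 1) := fun m x =>
      le_of_tendsto ((hF x).sub_const (Fm m x)).abs (hb2 m x)
    have h4 : Continuous F := by
      refine TendstoUniformly.continuous (F := Fm) (p := atTop) ?_ (Frequently.of_forall hFm)
      refine Metric.tendstoUniformly_iff.2 fun ε hε => ?_
      obtain ⟨n, hn⟩ := exists_nat_one_div_lt hε
      filter_upwards [eventually_ge_atTop n] with m hm x
      exact ((h3 m x).trans (Nat.one_div_le_one_div hm)).trans_lt hn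
    refine ⟨⟨F, h4⟩, mem_iInter.2 fun i => (hM f0 i _).2
      ⟨b i.1, fun s j h5 q _ => hb1 i.1 s j h5 q, h3 i.1⟩, ?_⟩
    exact tendsto_subtype_rng.2 (tendsto_pi_nhds.2 hF)
  refine ⟨range fun l : List ((ℕ × Σ n : ℕ, MvPolynomial (Fin n) ℚ) × List (List C)) =>
    ⋂ e ∈ l, M e, range fun f0 => ⋂ i, M (ee f0 i), ?_, ?_, ?_, ?_⟩
  · have : ∀ n : ℕ, Countable (MvPolynomial (Fin n) ℚ) := fun n =>
      (AddMonoidAlgebra.coeffEquiv).countable_iff.2 inferInstance
    exact mk_range_le.trans (card_list hk (card_cnt_prod _ hk (card_list hk (card_list hk hC))))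
  · rintro _ ⟨f0, rfl⟩
    exact isCompact_iff_ultrafilter_le_nhds'.2 fun U hU =>
      hconv f0 U fun i => mem_of_superset hU (iInter_subset _ i)
  · refine eq_univ_of_forall fun f => ⟨_, ⟨f, rfl⟩, mem_iInter.2 fun i => (hM f i f).2
      ⟨fun s => some (a f i.1 s), fun s j h1 q _ h2 => Option.some.inj h1 ▸ h2, hpa f i.1⟩⟩
  · rintro _ ⟨f0, rfl⟩ U hU hKU
    by_contra hno
    have hne : (⨅ t : Finset (ℕ × Finset C), 𝓟 ((⋂ i ∈ t, M (ee f0 i)) ∩ Uᶜ)).NeBot := by
      refine iInf_neBot_of_directed' ?_ fun t => ?_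
      · intro s t
        exact ⟨s ∪ t, principal_mono.2 (inter_subset_inter_left _
          (biInter_subset_biInter_left Finset.subset_union_left)), principal_mono.2
          (inter_subset_inter_left _ (biInter_subset_biInter_left Finset.subset_union_right))⟩
      · rw [principal_neBot_iff]
        by_contra h1
        refine hno ⟨_, ⟨t.toList.map (ee f0), rfl⟩, ?_, fun f hf => ?_⟩
        · refine subset_iInter₂ fun e he => ?_
          obtain ⟨i, -, rfl⟩ := List.mem_map.1 he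
          exact iInter_subset _ i
        · by_contra h2
          exact h1 ⟨f, mem_iInter₂.2 fun i hi => mem_iInter₂.1 hf _
            (List.mem_map_of_mem (Finset.mem_toList.2 hi)), h2⟩
    obtain ⟨V, hV⟩ := Ultrafilter.exists_le
      (⨅ t : Finset (ℕ × Finset C), 𝓟 ((⋂ i ∈ t, M (ee f0 i)) ∩ Uᶜ))
    have h1 : ∀ t : Finset (ℕ × Finset C), (⋂ i ∈ t, M (ee f0 i)) ∩ Uᶜ ∈ V :=
      fun t => le_principal_iff.1 (hV.trans (iInf_le _ t))
    obtain ⟨F, h2, h3⟩ := hconv f0 V fun i =>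
      mem_of_superset (h1 {i}) fun f hf => mem_iInter₂.1 hf.1 i (Finset.mem_singleton_self i)
    obtain ⟨f, h4, h5⟩ := V.neBot.nonempty_of_mem (inter_mem (h3 (hU.mem_nhds (hKU h2))) (h1 ∅))
    exact h5.2 h4

end Pool.Agent.K76
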