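import Pool.Agent.P.MP_294ed4_gt.K76Skel

open Cardinal Set Filter Topology

universe u

namespace Pool.Agent.K76

variable {k : Cardinal.{u}}

theorem WPF.refine {J Y J' Y' : Type u} {B : J → Set Y} (hB : WPF k B) (π : J' → J)
    (hπ : ∀ j, (π ⁻¹' {j}).Finite) (f : Y' → Y) (B' : J' → Set Y')
    (h : ∀ j y, y ∈ B' j → f y ∈ B (π j)) : WPF k B' := by
  obtain ⟨C, c, hC, h1⟩ := hB
  refine ⟨C, fun q => π ⁻¹' c q, hC, fun y j => ?_⟩
  obtain ⟨q, hq, hfin⟩ := h1 (f y) (π j)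
  exact ⟨q, hq, (hfin.preimage' fun b _ => hπ b).subset fun i hi => ⟨hi.1, h i y hi.2⟩⟩

theorem SEP.prod (hk : ℵ₀ ≤ k) {X : Type u} [TopologicalSpace X] (h : SEP k X) :
    SEP k (X × X) := by
  obtain ⟨J, h, h1, C, c, hC, h2⟩ := h
  refine ⟨J ⊕ J, Sum.elim (fun j => (h j).comp ContinuousMap.fst)
    (fun j => (h j).comp ContinuousMap.snd), ?_, C ⊕ C,
    Sum.elim (fun q => Sum.inl '' c q) (fun q => Sum.inr '' c q), ?_, ?_⟩
  · intro x y hxy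
    by_cases h3 : x.1 = y.1
    · obtain ⟨j, hj⟩ := h1 x.2 y.2 fun h4 => hxy (Prod.ext h3 h4)
      exact ⟨Sum.inr j, hj⟩
    · obtain ⟨j, hj⟩ := h1 x.1 y.1 h3
      exact ⟨Sum.inl j, hj⟩
  · rw [mk_sum, lift_id]
    exact add_le_of_le hk hC hC
  · rintro y (j | j)
    · obtain ⟨q, hq, hfin⟩ := h2 y.1 j
      refine ⟨Sum.inl q, ⟨j, hq, rfl⟩, (hfin.image Sum.inl).subset ?_⟩
      rintro _ ⟨⟨i, hi, rfl⟩, h3⟩
      exact ⟨i, ⟨hi, h3⟩, rfl⟩
    · obtain ⟨q, hq, hfin⟩ := h2 y.2 j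
      refine ⟨Sum.inr q, ⟨j, hq, rfl⟩, (hfin.image Sum.inr).subset ?_⟩
      rintro _ ⟨⟨i, hi, rfl⟩, h3⟩
      exact ⟨i, ⟨hi, h3⟩, rfl⟩

variable {Y J : Type u} [TopologicalSpace Y] (h : J → C(Y, ℝ)) (F : Set Y)

/-- points at which `w.1` is a minimal family separating from `F` at scale `1 / (w.2 + 1)` -/
def Wset (w : Finset J × ℕ) : Set Y :=
  {y | (∀ c ∈ F, ∃ j ∈ w.1, 1 / ((w.2 : ℝ) + 1) < |h j y - h j c|) ∧
    ∀ G, G ⊂ w.1 → ∃ c ∈ F, ∀ j ∈ G, |h j y - h j c| < 1 / ((w.2 : ℝ) + 1)}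

variable {F}

theorem isOpen_Wset (hF : IsCompact F) (w : Finset J × ℕ) : IsOpen (Wset h F w) := by
  rw [isOpen_iff_mem_nhds]
  rintro y ⟨h1, h2⟩
  refine Eventually.and (hF.eventually_forall_of_forall_eventually fun c hc => ?_) ?_
  · obtain ⟨j, hj, h3⟩ := h1 c hc
    have h4 : IsOpen {p : Y × Y | 1 / ((w.2 : ℝ) + 1) < |h j p.1 - h j p.2|} :=
      isOpen_lt continuous_const (by fun_prop)
    exact mem_of_superset (h4.mem_nhds h3) fun p hp => ⟨j, hj, hp⟩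
  · have hfin : {G : Finset J | G ⊂ w.1}.Finite :=
      (w.1.powerset.finite_toSet).subset fun G hG => by simpa using hG.1
    refine (eventually_all_finite hfin).2 fun G hG => ?_
    obtain ⟨c, hc, h3⟩ := h2 G hG
    have h4 : ∀ᶠ y' in 𝓝 y, ∀ j ∈ G, |h j y' - h j c| < 1 / ((w.2 : ℝ) + 1) :=
      (eventually_all_finset G).2 fun j hj =>
        (isOpen_lt (by fun_prop) continuous_const).mem_nhds (h3 j hj)
    exact h4.mono fun y' h5 => ⟨c, hc, h5⟩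

theorem exists_Wset (hF : IsCompact F) (hsep : ∀ x y, x ≠ y → ∃ j, h j x ≠ h j y) {y : Y}
    (hy : y ∉ F) : ∃ w, y ∈ Wset h F w := by
  classical
  have hex : ∃ m, ∃ w : Finset J × ℕ, w.1.card = m ∧
      ∀ c ∈ F, ∃ j ∈ w.1, 1 / ((w.2 : ℝ) + 1) < |h j y - h j c| := by
    obtain ⟨t, ht⟩ := hF.elim_finite_subcover
      (fun p : J × ℕ => {c | 1 / ((p.2 : ℝ) + 1) < |h p.1 y - h p.1 c|})
      (fun p => isOpen_lt continuous_const (by fun_prop)) (by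
        intro c hc
        obtain ⟨j, hj⟩ := hsep y c fun h1 => hy (h1 ▸ hc)
        obtain ⟨n, hn⟩ := exists_nat_one_div_lt (abs_pos.2 (sub_ne_zero.2 hj))
        exact mem_iUnion.2 ⟨(j, n), hn⟩)
    refine ⟨_, (t.image Prod.fst, t.sup Prod.snd), rfl, fun c hc => ?_⟩
    obtain ⟨p, hp, h1⟩ := mem_iUnion₂.1 (ht hc)
    exact ⟨p.1, Finset.mem_image_of_mem _ hp,
      (Nat.one_div_le_one_div (Finset.le_sup (f := Prod.snd) hp)).trans_lt h1⟩
  obtain ⟨w, hw, h1⟩ := Nat.find_spec hex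
  refine ⟨w, h1, fun G hG => ?_⟩
  by_contra hc
  refine Nat.find_min hex (hw ▸ Finset.card_lt_card hG) ⟨(G, w.2 + 1), rfl, fun c hcF => ?_⟩
  by_contra h2
  refine hc ⟨c, hcF, fun j hj => ?_⟩
  have h3 : |h j y - h j c| ≤ 1 / (((w.2 + 1 : ℕ) : ℝ) + 1) := not_lt.1 fun h4 => h2 ⟨j, hj, h4⟩
  exact h3.trans_lt (Nat.one_div_lt_one_div (Nat.lt_succ_self _))

theorem uf_Wset : UF (Hit fun j => {x | h j x ≠ 0}) Set.univ (Wset h F)
    (fun w => ULift.up.{u} (w.1.card, w.2)) (fun w => w.1.toList) := by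
  intro y U d0 hU
  have hU' : ∀ᶠ w in U, y ∈ Wset h F w ∧ w.1.card = d0.down.1 ∧ w.2 = d0.down.2 := by
    filter_upwards [hU] with w ⟨_, h1, h2⟩
    exact ⟨h1, by rw [← h2], by rw [← h2]⟩
  have hfin := root_finite U (fun w => w.1.toList) d0.down.1
    (hU'.mono fun w hw => by rw [Finset.length_toList]; exact hw.2.1.le)
  have hR : ∀ᶠ w : Finset J × ℕ in U, hfin.toFinset ⊆ w.1 := by
    have h1 := (eventually_all_finite hfin).2 fun i hi => hi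
    exact h1.mono fun w hw i hi => Finset.mem_toList.1 (hw i (hfin.mem_toFinset.1 hi))
  by_cases hc : ∀ᶠ w : Finset J × ℕ in U, w.1 = hfin.toFinset
  · left
    have h4 : {(hfin.toFinset, d0.down.2)} ∈ U := by
      filter_upwards [hU', hc] with w h1 h2
      exact Prod.ext h2 h1.2.2
    obtain ⟨a, -, ha⟩ := Ultrafilter.eq_pure_of_finite_mem (finite_singleton _) h4
    exact ⟨a, ha⟩
  right
  rw [← Ultrafilter.eventually_not] at hc
  obtain ⟨w0, ⟨h1, h2⟩, h3⟩ := ((hU'.and hR).and hc).exists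
  obtain ⟨c, hcF, h4⟩ := h1.1.2 _ (Finset.ssubset_iff_subset_ne.2 ⟨h2, fun h => h3 h.symm⟩)
  obtain ⟨j0, -, -⟩ := h1.1.1 c hcF
  have hch : ∀ w : Finset J × ℕ, ∃ j, y ∈ Wset h F w →
      j ∈ w.1 ∧ 1 / ((w.2 : ℝ) + 1) < |h j y - h j c| := by
    intro w
    by_cases hw : y ∈ Wset h F w
    · obtain ⟨j, hj⟩ := hw.1 c hcF
      exact ⟨j, fun _ => hj⟩
    · exact ⟨j0, fun h' => (hw h').elim⟩
  choose l hl using hch
  refine ⟨l, hU'.mono fun w hw => Finset.mem_toList.2 (hl w hw.1).1, fun i hi => ?_, ?_⟩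
  · have h5 : ∀ᶠ w in U, l w = i := by
      have h6 : {i} ∈ U.map l := by rw [hi]; simp
      exact h6
    have h6 : i ∈ hfin.toFinset := hfin.mem_toFinset.2 (by
      filter_upwards [hU', h5] with w h7 h8
      exact Finset.mem_toList.2 (h8 ▸ (hl w h7.1).1))
    obtain ⟨w, h7, h8⟩ := (hU'.and h5).exists
    have h9 := (hl w h7.1).2
    rw [h8, h7.2.2, ← h1.2.2] at h9
    exact lt_asymm h9 (h4 i h6)
  · have h5 : ∀ᶠ w in U, h (l w) y ≠ 0 ∨ h (l w) c ≠ 0 := by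
      filter_upwards [hU'] with w hw
      by_contra h6
      push Not at h6
      have h7 := (hl w hw.1).2
      rw [h6.1, h6.2, sub_zero, abs_zero] at h7
      exact lt_asymm h7 Nat.one_div_pos_of_nat
    rcases Ultrafilter.eventually_or.1 h5 with h6 | h6
    · exact ⟨y, h6⟩
    · exact ⟨c, h6⟩

theorem SEP.hereditary [CompactSpace Y] (hk : ℵ₀ ≤ k) (hY : SEP k Y) (Z : Set Y) :
    WeaklyMetacompact k Z := by
  obtain ⟨J, h, hsep, hW⟩ := hY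
  intro O hO hcov
  have h1 : ∀ V : O, ∃ V' : Set Y, IsOpen V' ∧ Subtype.val ⁻¹' V' = V.1 :=
    fun V => isOpen_induced_iff.1 (hO _ V.2)
  choose E hE1 hE2 using h1
  have hF : IsCompact (⋃ V, E V)ᶜ := (isOpen_iUnion hE1).isClosed_compl.isCompact
  have hW2 := hW.of_UF hk (uf_Wset h (F := (⋃ V, E V)ᶜ)) (mk_le_aleph0.trans hk)
  have h2 : ∀ w : Finset J × ℕ, ∃ t : Finset O, Wset h (⋃ V, E V)ᶜ w ⊆ ⋃ V ∈ t, E V := by
    intro w
    have h3 : IsClosed (⋂ c ∈ (⋃ V, E V)ᶜ, ⋃ j ∈ w.1,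
        {y | 1 / ((w.2 : ℝ) + 1) ≤ |h j y - h j c|}) :=
      isClosed_biInter fun c _ => isClosed_biUnion_finset fun j _ =>
        isClosed_le continuous_const (by fun_prop)
    obtain ⟨t, ht⟩ := h3.isCompact.elim_finite_subcover E hE1 (by
      intro y hy
      by_contra h4
      obtain ⟨j, -, h5⟩ := mem_iUnion₂.1 (mem_iInter₂.1 hy y h4)
      have h6 : 1 / ((w.2 : ℝ) + 1) ≤ |h j y - h j y| := h5
      rw [sub_self, abs_zero] at h6
      exact absurd h6 (not_le.2 Nat.one_div_pos_of_nat))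
    refine ⟨t, fun y hy => ht (mem_iInter₂.2 fun c hc => ?_)⟩
    obtain ⟨j, hj, h4⟩ := hy.1 c hc
    exact mem_iUnion₂.2 ⟨j, hj, h4.le⟩
  choose t ht using h2
  let B : {p : (Finset J × ℕ) × O // p.2 ∈ t p.1} → Set Z := fun p =>
    Subtype.val ⁻¹' (Wset h (⋃ V, E V)ᶜ p.1.1 ∩ E p.1.2)
  refine ⟨range B, ?_, ?_, ?_, WPF.weaklyPF hk
    (hW2.refine (fun p => ⟨p.1.1, trivial⟩) ?_ Subtype.val B fun _ _ h => h.1)⟩
  · rintro _ ⟨p, rfl⟩
    exact ((isOpen_Wset h hF _).inter (hE1 _)).preimage continuous_subtype_val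
  · refine eq_univ_of_forall fun z => ?_
    obtain ⟨V, hV, hz⟩ := (hcov.symm ▸ mem_univ z : z ∈ ⋃₀ O)
    have h3 : z.1 ∈ E ⟨V, hV⟩ := by
      have h4 : z ∈ Subtype.val ⁻¹' E ⟨V, hV⟩ := by rw [hE2]; exact hz
      exact h4
    obtain ⟨w, hw⟩ := exists_Wset h hF hsep (y := z.1) fun h4 => h4 (mem_iUnion.2 ⟨_, h3⟩)
    obtain ⟨V', h4, h5⟩ := mem_iUnion₂.1 (ht w hw)
    exact ⟨_, ⟨⟨(w, V'), h4⟩, rfl⟩, hw, h5⟩
  · rintro _ ⟨p, rfl⟩
    exact ⟨p.1.2.1, p.1.2.2, fun z hz => hE2 p.1.2 ▸ hz.2⟩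
  · intro w
    refine Set.Finite.of_finite_image (f := fun p => p.1.2) ((t w.1).finite_toSet.subset ?_) ?_
    · rintro _ ⟨p, hp, rfl⟩
      have h3 : p.1.1 = w.1 := congrArg Subtype.val hp
      exact h3 ▸ p.2
    · intro p hp p' hp' h3
      have h4 : p.1.1 = w.1 := congrArg Subtype.val hp
      have h5 : p'.1.1 = w.1 := congrArg Subtype.val hp'
      exact Subtype.ext (Prod.ext (h4.trans h5.symm) h3)

end Pool.Agent.K76
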