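import Pool.Agent.P.MP_294ed4_gt.K76Skel

open Cardinal Set Filter

universe u

namespace Pool.Agent.K76

variable {X I : Type u} [TopologicalSpace X] [CompactSpace X] [T2Space X] {k : Cardinal.{u}}

theorem sep_of_cover [Nonempty X] (hk : ℵ₀ ≤ k) (P : I → Set (X × X)) (hP : ∀ i, IsOpen (P i))
    (g : I → C(X, ℝ)) (hg : ∀ i, ∀ p ∈ P i, g i p.1 ≠ g i p.2)
    (hcov : ∀ x y, x ≠ y → ∃ i, (x, y) ∈ P i)
    (hW : WPF k fun i => (Subtype.val ⁻¹' P i : Set {p : X × X // p.1 ≠ p.2})) : SEP k X := by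
  classical
  let Φ : List X → Set I := fun l => {i | ∃ a ∈ l, ∃ b ∈ l, (a, b) ∈ P i}
  have hne : ∀ i p, p ∈ P i → p.1 ≠ p.2 := fun i p hp h => hg i p hp (by rw [h])
  have hΦ : ∀ l, #(Φ l) ≤ k := by
    intro l
    have h1 : Φ l ⊆ ⋃ a ∈ {a | a ∈ l}, ⋃ b ∈ {b | b ∈ l}, {i | (a, b) ∈ P i} := by
      rintro i ⟨a, ha, b, hb, h⟩
      exact mem_iUnion₂.2 ⟨a, ha, mem_iUnion₂.2 ⟨b, hb, h⟩⟩
    refine (mk_le_mk_of_subset h1).trans (card_biUnion hk (card_finite hk (List.finite_toSet _))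
      fun a _ => card_biUnion hk (card_finite hk (List.finite_toSet _)) fun b _ => ?_)
    by_cases hab : a = b
    · refine card_finite hk (finite_empty.subset fun i hi => hne i _ hi hab)
    · exact hW.card_le hk ⟨(a, b), hab⟩
  have hmeet : ∀ S, Clo g Φ S → ∀ x ∈ closure (pts g S), ∀ y ∈ closure (pts g S), ∀ i,
      (x, y) ∈ P i → i ∈ S := by
    intro S hS x hx y hy i hi
    have h1 : (x, y) ∈ closure (pts g S ×ˢ pts g S) := by
      rw [closure_prod_eq]; exact ⟨hx, hy⟩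
    obtain ⟨⟨a, b⟩, h2, h3, h4⟩ := mem_closure_iff.1 h1 _ (hP i) hi
    refine hS [a, b] ?_ ⟨a, by simp, b, by simp, h2⟩
    intro p hp
    rcases List.mem_cons.1 hp with rfl | hp
    · exact h3
    · rw [List.mem_singleton.1 hp]; exact h4
  have hlab : ∀ (S S' : Set I) (v : C(X, ℝ)) (n : ℕ), ∃ l : List I,
      (∀ z ∈ closure (pts g S'), v z = 0) →
        (∀ x ∈ closure (pts g S), 1 / ((n : ℝ) + 1) ≤ |v x| → ∀ z ∈ closure (pts g S'),
          ∃ i ∈ l, (x, z) ∈ P i) ∧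
        ∀ i ∈ l, ∃ x ∈ closure (pts g S), ∃ z ∈ closure (pts g S'), (x, z) ∈ P i := by
    intro S S' v n
    by_cases hv : ∀ z ∈ closure (pts g S'), v z = 0
    swap
    · exact ⟨[], fun h => (hv h).elim⟩
    have h0 : (0 : ℝ) < 1 / ((n : ℝ) + 1) := Nat.one_div_pos_of_nat
    have hQ : IsCompact ((closure (pts g S) ∩ {x | 1 / ((n : ℝ) + 1) ≤ |v x|}) ×ˢ
        closure (pts g S')) :=
      ((isClosed_closure.inter (isClosed_le continuous_const (by fun_prop))).prod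
        isClosed_closure).isCompact
    obtain ⟨t, ht⟩ := hQ.elim_finite_subcover P hP (by
      rintro ⟨x, z⟩ ⟨⟨-, h1⟩, h2⟩
      refine mem_iUnion.2 (hcov x z ?_)
      rintro rfl
      have h3 : 1 / ((n : ℝ) + 1) ≤ |v x| := h1
      rw [hv x h2, abs_zero] at h3
      linarith)
    refine ⟨t.toList.filter fun i =>
      ∃ x ∈ closure (pts g S), ∃ z ∈ closure (pts g S'), (x, z) ∈ P i, fun _ => ⟨?_, ?_⟩⟩
    · intro x hx h1 z hz
      obtain ⟨i, hi, h2⟩ := mem_iUnion₂.1 (ht (show (x, z) ∈ _ from ⟨⟨hx, h1⟩, hz⟩))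
      exact ⟨i, List.mem_filter.2 ⟨Finset.mem_toList.2 hi,
        decide_eq_true ⟨x, hx, z, hz, h2⟩⟩, h2⟩
    · intro i hi
      exact of_decide_eq_true (List.mem_filter.1 hi).2
  choose lab hlab using hlab
  let Z : Sys X I I k :=
    { g := g
      Φ := Φ
      Good := Hit fun i => (Subtype.val ⁻¹' P i : Set {p : X × X // p.1 ≠ p.2})
      lab := lab
      ext := lab
      hΦ := hΦ
      hInj := by
        intro S hS x hx y hy hr
        by_contra hxy
        obtain ⟨i, hi⟩ := hcov x y hxy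
        exact hg i _ hi (hr i (hmeet S hS x hx y hy i hi))
      hExt := by
        intro S S' v n hS hS' hv i hi
        obtain ⟨x, hx, z, hz, h⟩ := (hlab S S' v n hv).2 i hi
        exact hmeet S hS x hx z (closure_mono (pts_mono hS') hz) i h
      hLev := by
        intro S hS W U Y0 S' S'' v n m x hx hY h
        have hfin := root_finite U (fun y => lab S (S' y) (v y) n) m
          (mem_of_superset hY fun y hy => (h y hy).2.2.2.2.2.1.le)
        have hroot : ∀ᶠ y' in U, ∀ i ∈ {i | ∀ᶠ y in U, i ∈ lab S (S' y) (v y) n}, i ∈ S' y' := by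
          refine (eventually_all_finite hfin).2 fun i hi => ?_
          obtain ⟨y, h1, h2⟩ := (Eventually.and hi hY).exists
          exact (h y h2).2.2.2.2.2.2.mono fun y' h3 => h3.2 i h1
        obtain ⟨y1, h1, h2⟩ := (hroot.and hY).exists
        have hcv : ∀ᶠ y in U, ∃ i ∈ lab S (S' y) (v y) n, (x, ret g (S' y1) x) ∈ P i := by
          filter_upwards [hY, (h y1 h2).2.2.2.2.2.2] with y h3 h4
          exact (hlab S (S' y) (v y) n (h y h3).2.2.2.1).1 x hx (h y h3).2.2.2.2.1 _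
            (closure_mono (pts_mono ((h y1 h2).1.trans h4.1)) (ret_mem _ x))
        obtain ⟨_, i0, -, hi0⟩ := hcv.exists
        have hch : ∀ y, ∃ i, (∃ i ∈ lab S (S' y) (v y) n, (x, ret g (S' y1) x) ∈ P i) →
            i ∈ lab S (S' y) (v y) n ∧ (x, ret g (S' y1) x) ∈ P i := by
          intro y
          by_cases hy : ∃ i ∈ lab S (S' y) (v y) n, (x, ret g (S' y1) x) ∈ P i
          · obtain ⟨i, hi⟩ := hy
            exact ⟨i, fun _ => hi⟩
          · exact ⟨i0, fun h' => (hy h').elim⟩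
        choose l hl using hch
        refine ⟨l, hcv.mono fun y hy => (hl y hy).1, fun i hi => ?_, ⟨_, hne i0 _ hi0⟩,
          hcv.mono fun y hy => (hl y hy).2⟩
        have h3 : ∀ᶠ y in U, l y = i := by
          have h4 : {i} ∈ U.map l := by rw [hi]; simp
          exact h4
        have h4 : i ∈ S' y1 := h1 i (by
          filter_upwards [hcv, h3] with y h5 h6
          exact h6 ▸ (hl y h5).1)
        obtain ⟨y, h5, h6⟩ := (hcv.and h3).exists
        exact hg i _ (h6 ▸ (hl y h5).2) (ret_rel (S' y1) x i h4) }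
  obtain ⟨J, h1, h2⟩ := Z.top hk (by
    intro x y hr
    by_contra hxy
    obtain ⟨i, hi⟩ := hcov x y hxy
    exact hg i _ hi (hr i trivial))
  refine ⟨J, fun j => j.1.1, fun x y hxy => ?_, hW.of_UF hk h2 (card_tag hk)⟩
  obtain ⟨w, hw, h3⟩ := h1 x y hxy
  exact ⟨⟨w, hw⟩, h3⟩

omit [CompactSpace X] [T2Space X] in
theorem sep_of_isEmpty [IsEmpty X] (hk : ℵ₀ ≤ k) : SEP k X :=
  ⟨PEmpty, fun j => j.elim, fun x => isEmptyElim x, PEmpty, fun j => j.elim,
    mk_le_aleph0.trans hk, fun x => isEmptyElim x⟩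

theorem exists_sep {x y : X} (h : x ≠ y) : ∃ f : C(X, ℝ), f x ≠ f y := by
  obtain ⟨f, h1, h2, -⟩ := exists_continuous_zero_one_of_isClosed (isClosed_singleton (x := x))
    (isClosed_singleton (x := y)) (disjoint_singleton.2 h)
  exact ⟨f, by rw [h1 rfl, h2 rfl]; simp⟩

theorem sep_of_offdiag (hk : ℵ₀ ≤ k) (h : WeaklyMetacompact k {p : X × X // p.1 ≠ p.2}) :
    SEP k X := by
  rcases isEmpty_or_nonempty X with hX | hX
  · exact sep_of_isEmpty hk
  obtain ⟨A, h1, h2, h3, h4⟩ := h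
    (range fun f : C(X, ℝ) => {p : {p : X × X // p.1 ≠ p.2} | f p.1.1 ≠ f p.1.2}) (by
      rintro _ ⟨f, rfl⟩
      exact isOpen_ne_fun (by fun_prop) (by fun_prop)) (by
      refine eq_univ_of_forall fun p => ?_
      obtain ⟨f, hf⟩ := exists_sep p.2
      exact ⟨_, ⟨f, rfl⟩, hf⟩)
  have h5 : ∀ U : A, ∃ f : C(X, ℝ), ∀ p ∈ U.1, f p.1.1 ≠ f p.1.2 := by
    intro U
    obtain ⟨_, ⟨f, rfl⟩, hf⟩ := h3 U.1 U.2
    exact ⟨f, hf⟩
  choose g hg using h5
  have ho : IsOpen {p : X × X | p.1 ≠ p.2} := isOpen_ne_fun continuous_fst continuous_snd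
  refine sep_of_cover hk (fun U : A => Subtype.val '' U.1)
    (fun U => ho.isOpenMap_subtype_val _ (h1 _ U.2)) g ?_ ?_ ?_
  · rintro U _ ⟨p, hp, rfl⟩
    exact hg U p hp
  · intro x y hxy
    obtain ⟨U, hU, hp⟩ := (h2.symm ▸ mem_univ _ : (⟨(x, y), hxy⟩ : {p : X × X // p.1 ≠ p.2}) ∈ ⋃₀ A)
    exact ⟨⟨U, hU⟩, _, hp, rfl⟩
  · simpa only [preimage_image_eq _ Subtype.val_injective] using h4.wpf

end Pool.Agent.K76
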