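import Pool.Agent.P.MP_294ed4_gt.K76Base

open Cardinal Set Filter

universe u

namespace Pool.Agent.K76

variable {X I : Type u} [TopologicalSpace X] [Nonempty X] (g : I → C(X, ℝ))

def box (l : List (I × ℚ × ℚ)) : Set X :=
  {x | ∀ e ∈ l, (e.2.1 : ℝ) < g e.1 x ∧ g e.1 x < (e.2.2 : ℝ)}

noncomputable def pick (l : List (I × ℚ × ℚ)) : X := Classical.epsilon (· ∈ box g l)

def pts (S : Set I) : Set X := pick g '' {l | ∀ e ∈ l, e.1 ∈ S}

def rel (S : Set I) (x y : X) : Prop := ∀ i ∈ S, g i x = g i y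

def Inj (S : Set I) : Prop :=
  ∀ x ∈ closure (pts g S), ∀ y ∈ closure (pts g S), rel g S x y → x = y

noncomputable def ret (S : Set I) (x : X) : X :=
  Classical.epsilon fun y => y ∈ closure (pts g S) ∧ rel g S x y

def Clo (Φ : List X → Set I) (S : Set I) : Prop :=
  ∀ l : List X, (∀ p ∈ l, p ∈ pts g S) → Φ l ⊆ S

variable {g}

theorem pts_mono {S T : Set I} (h : S ⊆ T) : pts g S ⊆ pts g T :=
  image_mono fun _ hl e he => h (hl e he)

omit [Nonempty X] in
theorem rel.mono {S T : Set I} (h : S ⊆ T) {x y : X} (hr : rel g T x y) : rel g S x y :=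
  fun i hi => hr i (h hi)

theorem card_pts {m : Cardinal.{u}} (hm : ℵ₀ ≤ m) {S : Set I} (hS : #S ≤ m) :
    #(pts g S) ≤ m := by
  refine mk_image_le.trans ?_
  have h1 : #{e : I × ℚ × ℚ | e.1 ∈ S} ≤ m := by
    have h2 : {e : I × ℚ × ℚ | e.1 ∈ S} ⊆ range fun p : S × ℚ × ℚ => (p.1.1, p.2) :=
      fun e he => ⟨(⟨e.1, he⟩, e.2), rfl⟩
    exact (mk_le_mk_of_subset h2).trans (mk_range_le.trans (card_prod_cnt _ hm hS))
  exact card_lists hm h1

theorem list_directed {A ι : Type*} {s : Set ι} (hs : s.Nonempty) {F : ι → Set A}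
    (hd : ∀ a ∈ s, ∀ b ∈ s, ∃ c ∈ s, F a ⊆ F c ∧ F b ⊆ F c) (l : List A)
    (hl : ∀ a ∈ l, ∃ i ∈ s, a ∈ F i) : ∃ i ∈ s, ∀ a ∈ l, a ∈ F i := by
  induction l with
  | nil => obtain ⟨i, hi⟩ := hs; exact ⟨i, hi, by simp⟩
  | cons a l ih =>
    obtain ⟨i, hi, h1⟩ := ih fun b hb => hl b (List.mem_cons_of_mem _ hb)
    obtain ⟨j, hj, h2⟩ := hl a List.mem_cons_self
    obtain ⟨c, hc, h3, h4⟩ := hd i hi j hj
    refine ⟨c, hc, fun b hb => ?_⟩
    rcases List.mem_cons.1 hb with rfl | hb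
    · exact h4 h2
    · exact h3 (h1 b hb)

theorem pts_directed {ι : Type*} {s : Set ι} (hs : s.Nonempty) {F : ι → Set I}
    (hd : ∀ a ∈ s, ∀ b ∈ s, ∃ c ∈ s, F a ⊆ F c ∧ F b ⊆ F c) {p : X}
    (hp : p ∈ pts g (⋃ i ∈ s, F i)) : ∃ i ∈ s, p ∈ pts g (F i) := by
  obtain ⟨l, hl, rfl⟩ := hp
  obtain ⟨i, hi, h⟩ := list_directed hs hd (l.map Prod.fst) (by
    intro a ha
    obtain ⟨e, he, rfl⟩ := List.mem_map.1 ha
    simpa using hl e he)
  exact ⟨i, hi, l, fun e he => h _ (List.mem_map_of_mem he), rfl⟩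

theorem clo_directed {Φ : List X → Set I} {ι : Type*} {s : Set ι} (hs : s.Nonempty)
    {F : ι → Set I} (hd : ∀ a ∈ s, ∀ b ∈ s, ∃ c ∈ s, F a ⊆ F c ∧ F b ⊆ F c)
    (hc : ∀ i ∈ s, Clo g Φ (F i)) : Clo g Φ (⋃ i ∈ s, F i) := by
  intro l hl
  obtain ⟨i, hi, h⟩ := list_directed hs (F := fun i => pts g (F i)) (by
    intro a ha b hb
    obtain ⟨c, hc, h1, h2⟩ := hd a ha b hb
    exact ⟨c, hc, pts_mono h1, pts_mono h2⟩) l fun p hp => pts_directed hs hd (hl p hp)
  exact (hc i hi l h).trans (subset_biUnion_of_mem hi)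

theorem exists_clo {k : Cardinal.{u}} (hk : ℵ₀ ≤ k) {Φ : List X → Set I} (hΦ : ∀ l, #(Φ l) ≤ k)
    (T : Set I) : ∃ S, T ⊆ S ∧ Clo g Φ S ∧ (∀ m, k ≤ m → #T ≤ m → #S ≤ m) ∧
      ∀ S', Clo g Φ S' → T ⊆ S' → S ⊆ S' := by
  let st : Set I → Set I := fun A => A ∪ ⋃ l ∈ {l : List X | ∀ p ∈ l, p ∈ pts g A}, Φ l
  let F : ℕ → Set I := fun n => st^[n] T
  have hF : ∀ n, F (n + 1) = st (F n) := fun n => Function.iterate_succ_apply' _ _ _
  have hmono : Monotone F := monotone_nat_of_le_succ fun n => by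
    rw [hF]; exact subset_union_left
  refine ⟨⋃ n, F n, subset_iUnion F 0, ?_, fun m hkm hT => ?_, fun S' hS' hT => ?_⟩
  · intro l hl
    obtain ⟨n, -, h⟩ := list_directed (s := Set.univ) univ_nonempty (F := fun n => pts g (F n))
      (fun a _ b _ => ⟨max a b, trivial, pts_mono (hmono (le_max_left _ _)),
        pts_mono (hmono (le_max_right _ _))⟩) l fun p hp =>
      pts_directed univ_nonempty (fun a _ b _ => ⟨max a b, trivial, hmono (le_max_left _ _),
        hmono (le_max_right _ _)⟩) (by simpa using hl p hp)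
    refine Subset.trans ?_ (subset_iUnion F (n + 1))
    rw [hF]
    exact fun i hi => Or.inr (mem_iUnion₂.2 ⟨l, h, hi⟩)
  · have hm := hk.trans hkm
    refine card_iUnion_nat hm fun n => ?_
    induction n with
    | zero => exact hT
    | succ n ih =>
      rw [hF]
      exact card_union hm ih
        (card_biUnion hm (card_lists hm (card_pts hm ih)) fun l _ => (hΦ l).trans hkm)
  · refine iUnion_subset fun n => ?_
    induction n with
    | zero => exact hT
    | succ n ih =>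
      rw [hF]
      exact union_subset ih (iUnion₂_subset fun l hl => hS' l fun p hp => pts_mono ih (hl p hp))

theorem inj_empty [T2Space X] : Inj g ∅ := by
  have h : pts g (∅ : Set I) ⊆ {pick g []} := by
    rintro _ ⟨l, hl, rfl⟩
    cases l with
    | nil => rfl
    | cons e l => exact (hl e List.mem_cons_self).elim
  have h2 : closure (pts g (∅ : Set I)) ⊆ {pick g []} := closure_minimal h isClosed_singleton
  intro x hx y hy _
  exact (h2 hx).trans (h2 hy).symm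

variable [CompactSpace X]

theorem exists_ret (S : Set I) (x : X) : ∃ y, y ∈ closure (pts g S) ∧ rel g S x y := by
  have hq : ∀ p : S × ℕ, ∃ q : ℚ × ℚ, (g p.1.1 x - 1 / ((p.2 : ℝ) + 1) < q.1 ∧
      (q.1 : ℝ) < g p.1.1 x) ∧ g p.1.1 x < q.2 ∧ (q.2 : ℝ) < g p.1.1 x + 1 / ((p.2 : ℝ) + 1) := by
    intro p
    have h0 : (0 : ℝ) < 1 / ((p.2 : ℝ) + 1) := Nat.one_div_pos_of_nat
    obtain ⟨a, ha⟩ := exists_rat_btwn (sub_lt_self (g p.1.1 x) h0)
    obtain ⟨b, hb⟩ := exists_rat_btwn (lt_add_of_pos_right (g p.1.1 x) h0)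
    exact ⟨(a, b), ha, hb⟩
  choose q hq using hq
  obtain ⟨y, hy, h⟩ := (isClosed_closure (s := pts g S)).isCompact.inter_iInter_nonempty
    (fun p : S × ℕ => {y | |g p.1.1 y - g p.1.1 x| ≤ 1 / ((p.2 : ℝ) + 1)})
    (fun p => isClosed_le (by fun_prop) continuous_const) (by
      intro t
      have hx : x ∈ box g (t.toList.map fun p => (p.1.1, q p)) := by
        intro e he
        obtain ⟨p, -, rfl⟩ := List.mem_map.1 he
        exact ⟨(hq p).1.2, (hq p).2.1⟩
      have hp : pick g (t.toList.map fun p => (p.1.1, q p)) ∈ box g _ :=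
        Classical.epsilon_spec (p := (· ∈ box g _)) ⟨x, hx⟩
      refine ⟨_, subset_closure ⟨t.toList.map fun p => (p.1.1, q p), ?_, rfl⟩, ?_⟩
      · intro e he
        obtain ⟨p, -, rfl⟩ := List.mem_map.1 he
        exact p.1.2
      · refine mem_iInter₂.2 fun p hpt => ?_
        have h1 := hp _ (List.mem_map_of_mem (Finset.mem_toList.2 hpt))
        have h2 := hq p
        simp only [mem_ofPred_eq, abs_le]
        constructor <;> linarith [h1.1, h1.2, h2.1.1, h2.2.2])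
  refine ⟨y, hy, fun i hi => ?_⟩
  have h1 : ∀ n : ℕ, |g i y - g i x| ≤ 1 / ((n : ℝ) + 1) := fun n => mem_iInter.1 h (⟨i, hi⟩, n)
  by_contra hne
  obtain ⟨n, hn⟩ := exists_nat_one_div_lt (abs_pos.2 (sub_ne_zero.2 (Ne.symm hne)))
  exact absurd (h1 n) (not_le.2 hn)

theorem ret_mem (S : Set I) (x : X) : ret g S x ∈ closure (pts g S) :=
  (Classical.epsilon_spec (exists_ret S x)).1

theorem ret_rel (S : Set I) (x : X) : rel g S x (ret g S x) :=
  (Classical.epsilon_spec (exists_ret S x)).2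

theorem Inj.ret_eq {S : Set I} (h : Inj g S) {x y : X} (hy : y ∈ closure (pts g S))
    (hr : rel g S x y) : ret g S x = y :=
  h _ (ret_mem S x) _ hy fun i hi => (ret_rel S x i hi).symm.trans (hr i hi)

theorem Inj.ret_congr {S : Set I} (h : Inj g S) {x y : X} (hr : rel g S x y) :
    ret g S x = ret g S y :=
  h.ret_eq (ret_mem S y) fun i hi => (hr i hi).trans (ret_rel S y i hi)

theorem Inj.continuous_ret {S : Set I} (h : Inj g S) : Continuous (ret g S) := by
  refine continuous_iff_isClosed.2 fun F hF => ?_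
  have h1 : ret g S ⁻¹' F =
      Prod.fst '' {p : X × X | p.2 ∈ F ∩ closure (pts g S) ∧ rel g S p.1 p.2} := by
    ext x
    constructor
    · intro hx
      exact ⟨(x, ret g S x), ⟨⟨hx, ret_mem S x⟩, ret_rel S x⟩, rfl⟩
    · rintro ⟨⟨x, y⟩, ⟨⟨h2, h3⟩, h4⟩, rfl⟩
      show ret g S x ∈ F
      rwa [h.ret_eq h3 h4]
  rw [h1]
  refine isClosedMap_fst_of_compactSpace _ (IsClosed.inter
    ((hF.inter isClosed_closure).preimage continuous_snd) ?_)
  have h2 : {p : X × X | rel g S p.1 p.2} = ⋂ i ∈ S, {p : X × X | g i p.1 = g i p.2} := by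
    ext p; simp [rel]
  show IsClosed {p : X × X | rel g S p.1 p.2}
  rw [h2]
  exact isClosed_biInter fun i _ => isClosed_eq (by fun_prop) (by fun_prop)

end Pool.Agent.K76
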