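import Pool.Agent.P.MP_294ed4_gt.K76Step

open Cardinal Set Filter

universe u

namespace Pool.Agent.K76

variable {X I L : Type u} [TopologicalSpace X] [Nonempty X] {k : Cardinal.{u}} (Z : Sys X I L k)

theorem Sys.base {S : Set I} (hS : #S ≤ k) : ∃ J : Set (Wt X L k), #J ≤ k ∧ Z.Fam S J := by
  obtain ⟨e⟩ := (Cardinal.le_def S k.out).1 (by rwa [mk_out])
  refine ⟨range fun i : S => (Z.g i.1, (e i, []), []), mk_range_le.trans hS, ?_, ?_, ?_⟩
  · rintro _ ⟨i, rfl⟩ x y hr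
    exact hr i.1 i.2
  · intro x y hr
    by_contra hc
    exact hr fun i hi => by_contra fun h => hc ⟨_, ⟨⟨i, hi⟩, rfl⟩, h⟩
  · intro x U d0 hU
    left
    obtain ⟨_, ⟨i0, rfl⟩, -, h0⟩ := hU.exists
    have h4 : {((Z.g i0.1, (e i0, []), []) : Wt X L k)} ∈ U := by
      filter_upwards [hU]
      rintro _ ⟨⟨i, rfl⟩, -, h1⟩
      have h2 : e i = e i0 := congrArg Prod.fst (h1.trans h0.symm)
      rw [e.injective h2]
      rfl
    obtain ⟨a, -, ha⟩ := Ultrafilter.eq_pure_of_finite_mem (finite_singleton _) h4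
    exact ⟨a, ha⟩

variable [CompactSpace X] [T2Space X]

theorem Sys.main (hk : ℵ₀ ≤ k) (S : Set I) (hS : Clo Z.g Z.Φ S) :
    ∃ J : Set (Wt X L k), #J ≤ max k #S ∧ Z.Fam S J := by
  induction hc : #S using WellFoundedLT.induction generalizing S with
  | _ c ih =>
  subst hc
  rcases le_or_gt #S k with hle | hlt
  · obtain ⟨J, h1, h2⟩ := Z.base hle
    exact ⟨J, h1.trans (le_max_left _ _), h2⟩
  have hch : ∀ S' : Set I, ∃ J : Set (Wt X L k),
      Clo Z.g Z.Φ S' → #S' < #S → #J ≤ max k #S' ∧ Z.Fam S' J := by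
    intro S'
    by_cases h : Clo Z.g Z.Φ S' ∧ #S' < #S
    · obtain ⟨J, hJ⟩ := ih _ h.2 S' h.1 rfl
      exact ⟨J, fun _ _ => hJ⟩
    · exact ⟨∅, fun h1 h2 => (h ⟨h1, h2⟩).elim⟩
  choose fam hfam using hch
  choose clo hc1 hc2 hc3 hc4 using exists_clo (g := Z.g) hk Z.hΦ
  obtain ⟨e⟩ := Cardinal.eq.1 (mk_ord_toType #S)
  let Ext : Set I → Set I → Set I := fun S' S'' =>
    ⋃ w ∈ fam S'', ⋃ n : ℕ, {a | a ∈ Z.ext S S' (uf Z.g S' w.1) n}
  let R : (#S).ord.ToType → Set I × Set I := WellFoundedLT.fix fun i f =>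
    (clo ({(e i).1} ∪ ⋃ j, ⋃ h : j < i, ((f j h).1 ∪ (f j h).2)),
      Ext (⋃ j, ⋃ h : j < i, (f j h).1)
        (clo ({(e i).1} ∪ ⋃ j, ⋃ h : j < i, ((f j h).1 ∪ (f j h).2))) ∩ S)
  have hR : ∀ i, R i = (clo ({(e i).1} ∪ ⋃ j ∈ Iio i, ((R j).1 ∪ (R j).2)),
      Ext (⋃ j ∈ Iio i, (R j).1) (clo ({(e i).1} ∪ ⋃ j ∈ Iio i, ((R j).1 ∪ (R j).2))) ∩ S) :=
    fun i => WellFoundedLT.fix_eq _ i
  have hT : ∀ i, (R i).1 = clo ({(e i).1} ∪ ⋃ j ∈ Iio i, ((R j).1 ∪ (R j).2)) :=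
    fun i => congrArg Prod.fst (hR i)
  have hE : ∀ i, (R i).2 = Ext (⋃ j ∈ Iio i, (R j).1) (R i).1 ∩ S := fun i => by
    rw [hT i]; exact congrArg Prod.snd (hR i)
  have hclo : ∀ i, Clo Z.g Z.Φ (R i).1 := fun i => by rw [hT]; exact hc2 _
  have hsub : ∀ j i, j < i → (R j).1 ∪ (R j).2 ⊆ (R i).1 := by
    intro j i h
    rw [hT i]
    exact fun a ha => hc1 _ (Or.inr (mem_iUnion₂.2 ⟨j, h, ha⟩))
  have hmono : Monotone fun i => (R i).1 := by
    intro j i h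
    rcases h.eq_or_lt with rfl | h
    · exact le_rfl
    · exact subset_union_left.trans (hsub j i h)
  have hTS : ∀ i, (R i).1 ⊆ S := by
    intro i
    induction i using WellFoundedLT.induction with
    | _ i ih =>
    rw [hT]
    refine hc4 _ _ hS (union_subset (singleton_subset_iff.2 (e i).2)
      (iUnion₂_subset fun j hj => union_subset (ih j hj) ?_))
    rw [hE]; exact inter_subset_right
  have hlt' : ∀ i : (#S).ord.ToType, max k #(Iio i) < #S :=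
    fun i => max_lt hlt (by simpa using mk_Iio_lt i (by simp))
  have hEc : ∀ i m, k ≤ m → m < #S → #(R i).1 ≤ m → #(R i).2 ≤ m := by
    intro i m h1 h2 h3
    have hm := hk.trans h1
    rw [hE]
    refine (mk_le_mk_of_subset inter_subset_left).trans (card_biUnion hm
      ((hfam _ (hclo i) (h3.trans_lt h2)).1.trans (max_le h1 h3)) fun w _ =>
      card_iUnion_nat hm fun n => card_finite hm (List.finite_toSet _))
  have hcard : ∀ i, #(R i).1 ≤ max k #(Iio i) := by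
    intro i
    induction i using WellFoundedLT.induction with
    | _ i ih =>
    have hm : ℵ₀ ≤ max k #(Iio i) := hk.trans (le_max_left _ _)
    rw [hT]
    refine hc3 _ _ (le_max_left _ _) (card_union hm (card_finite hm (finite_singleton _))
      (card_biUnion hm (le_max_right _ _) fun j hj => ?_))
    have h1 : #(R j).1 ≤ max k #(Iio i) := (ih j hj).trans (max_le_max_left _
      (mk_le_mk_of_subset (Iio_subset_Iio (le_of_lt hj))))
    exact card_union hm h1 (hEc j _ (le_max_left _ _) (hlt' i) h1)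
  have hF := fun i => hfam _ (hclo i) ((hcard i).trans_lt (hlt' i))
  refine ⟨_, ?_, Z.step hS (fun i => (R i).1) hclo hTS hmono ?_ (fun i => fam (R i).1)
    (fun i => (hF i).2) ?_⟩
  · have hm : ℵ₀ ≤ max k #S := hk.trans (le_max_left _ _)
    have h1 : {w' | ∃ i, ∃ w ∈ fam (R i).1, ∃ n, w' = Z.psi S (⋃ a ∈ Iio i, (R a).1) w n} ⊆
        ⋃ i ∈ Set.univ, ⋃ w ∈ fam (R i).1, ⋃ n, {Z.psi S (⋃ a ∈ Iio i, (R a).1) w n} := by
      rintro _ ⟨i, w, hw, n, rfl⟩
      exact mem_iUnion₂.2 ⟨i, trivial, mem_iUnion₂.2 ⟨w, hw, mem_iUnion.2 ⟨n, rfl⟩⟩⟩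
    refine (mk_le_mk_of_subset h1).trans (card_biUnion hm ?_ fun i _ => card_biUnion hm ?_
      fun w _ => card_iUnion_nat hm fun n => card_finite hm (finite_singleton _))
    · rw [mk_univ, mk_ord_toType]; exact le_max_right _ _
    · exact (hF i).1.trans (max_le_max_left _ (mk_le_mk_of_subset (hTS i)))
  · intro s hs
    refine ⟨e.symm ⟨s, hs⟩, ?_⟩
    show s ∈ (R _).1
    rw [hT]
    exact hc1 _ (Or.inl (by simp))
  · intro j i hji w hw n a ha
    refine hsub j i hji (Or.inr ?_)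
    rw [hE]
    refine ⟨mem_iUnion₂.2 ⟨w, hw, mem_iUnion.2 ⟨n, ha⟩⟩, ?_⟩
    exact Z.hExt S _ _ n hS (iUnion₂_subset fun a _ => hTS a)
      (uf_zero (Z.inj_below hclo hmono j) _) a ha

/-- a separating family of continuous functions with weakly `k`-point-finite cozero sets -/
def SEP (k : Cardinal.{u}) (X : Type u) [TopologicalSpace X] : Prop :=
  ∃ (J : Type u) (h : J → C(X, ℝ)), (∀ x y, x ≠ y → ∃ j, h j x ≠ h j y) ∧
    WPF k fun j => {x | h j x ≠ 0}

theorem Sys.top (hk : ℵ₀ ≤ k) (hsep : ∀ x y, rel Z.g Set.univ x y → x = y) :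
    ∃ J : Set (Wt X L k), (∀ x y, x ≠ y → ∃ w ∈ J, w.1 x ≠ w.1 y) ∧
      UF Z.Good J (fun w => {x | w.1 x ≠ 0}) (fun w => w.2.1) (fun w => w.2.2) := by
  obtain ⟨J, -, -, h1, h2⟩ := Z.main hk Set.univ fun _ _ => subset_univ _
  exact ⟨J, fun x y hxy => h1 x y fun h => hxy (hsep x y h), h2⟩

theorem card_tag (hk : ℵ₀ ≤ k) : #(k.out × List ℕ) ≤ k :=
  card_prod_cnt _ hk (mk_out k).le

end Pool.Agent.K76
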