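import Pool.Agent.P.MP_294ed4_gt.K76Ret

open Cardinal Set Filter

universe u

namespace Pool.Agent.K76

noncomputable def soft (n : ℕ) (t : ℝ) : ℝ :=
  max (t - 1 / ((n : ℝ) + 1)) 0 + min (t + 1 / ((n : ℝ) + 1)) 0

theorem continuous_soft (n : ℕ) : Continuous (soft n) := by
  unfold soft; fun_prop

theorem soft_ne {n : ℕ} {t : ℝ} (h : soft n t ≠ 0) : 1 / ((n : ℝ) + 1) ≤ |t| := by
  by_contra h1
  rw [not_le, abs_lt] at h1
  apply h
  unfold soft
  rw [max_eq_right (by linarith [h1.2]), min_eq_right (by linarith [h1.1]), add_zero]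

theorem soft_close (n : ℕ) (t : ℝ) : |soft n t - t| ≤ 1 / ((n : ℝ) + 1) := by
  have h0 : (0 : ℝ) < 1 / ((n : ℝ) + 1) := Nat.one_div_pos_of_nat
  unfold soft
  rw [abs_le]
  rcases le_total (t - 1 / ((n : ℝ) + 1)) 0 with h | h <;>
    rcases le_total (t + 1 / ((n : ℝ) + 1)) 0 with h' | h' <;>
    simp only [max_eq_right, max_eq_left, min_eq_left, min_eq_right, h, h'] <;>
    constructor <;> linarith

theorem soft_sep {s t : ℝ} (h : s ≠ t) : ∃ n, soft n s ≠ soft n t := by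
  obtain ⟨n, hn⟩ := exists_nat_one_div_lt (half_pos (abs_pos.2 (sub_ne_zero.2 h)))
  refine ⟨n, fun he => ?_⟩
  have h1 := abs_le.1 (soft_close n s)
  have h2 := abs_le.1 (soft_close n t)
  rw [he] at h1
  have h3 : |s - t| ≤ 2 * (1 / ((n : ℝ) + 1)) := by
    rw [abs_le]; constructor <;> linarith [h1.1, h1.2, h2.1, h2.2]
  linarith

theorem lev_free {W ι : Type*} [LinearOrder ι] [WellFoundedLT ι] (U : Ultrafilter W) (lev : W → ι)
    (h : ∀ i, ¬ ∀ᶠ w in U, lev w = i) : ∀ᶠ w in U, ∀ᶠ w' in U, lev w < lev w' := by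
  by_contra hc
  rw [← Ultrafilter.eventually_not] at hc
  have h1 : ∀ᶠ w in U, lev w ∈ {b | ∀ᶠ w' in U, lev w' ≤ b} := by
    filter_upwards [hc] with w hw
    rw [← Ultrafilter.eventually_not] at hw
    exact hw.mono fun w' hw' => not_lt.1 hw'
  obtain ⟨w0, hw0⟩ := h1.exists
  have h2 := wellFounded_lt.min_mem _ ⟨_, hw0⟩
  refine h (wellFounded_lt.min _ ⟨_, hw0⟩) ?_
  filter_upwards [h1, h2] with w hw hw2
  exact le_antisymm hw2 (not_lt.1 (wellFounded_lt.not_lt_min {b | ∀ᶠ w' in U, lev w' ≤ b} hw))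

variable {X I L : Type u} [TopologicalSpace X] [Nonempty X]

def Meas (g : I → C(X, ℝ)) (S : Set I) (h : C(X, ℝ)) : Prop := ∀ x y, rel g S x y → h x = h y

/-- the data and hypotheses of the induction -/
structure Sys (X I L : Type u) [TopologicalSpace X] [Nonempty X] (k : Cardinal.{u}) :
    Type (u + 1) where
  g : I → C(X, ℝ)
  Φ : List X → Set I
  Good : Ultrafilter L → Prop
  lab : Set I → Set I → C(X, ℝ) → ℕ → List L
  ext : Set I → Set I → C(X, ℝ) → ℕ → List I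
  hΦ : ∀ l, #(Φ l) ≤ k
  hInj : ∀ S, Clo g Φ S → Inj g S
  hExt : ∀ S S' v n, Clo g Φ S → S' ⊆ S → (∀ z ∈ closure (pts g S'), v z = 0) →
    ∀ i ∈ ext S S' v n, i ∈ S
  hLev : ∀ S, Clo g Φ S → ∀ (W : Type u) (U : Ultrafilter W) (Y0 : Set W) (S' S'' : W → Set I)
    (v : W → C(X, ℝ)) (n m : ℕ) (x : X), x ∈ closure (pts g S) → Y0 ∈ U →
    (∀ y ∈ Y0, S' y ⊆ S'' y ∧ S'' y ⊆ S ∧ Meas g (S'' y) (v y) ∧
      (∀ z ∈ closure (pts g (S' y)), v y z = 0) ∧ 1 / ((n : ℝ) + 1) ≤ |v y x| ∧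
      (lab S (S' y) (v y) n).length = m ∧
      ∀ᶠ y' in U, S'' y ⊆ S' y' ∧ ∀ i ∈ ext S (S' y) (v y) n, i ∈ S' y') →
    ∃ l : W → L, (∀ᶠ y in U, l y ∈ lab S (S' y) (v y) n) ∧ Good (U.map l)

abbrev Wt (X L : Type u) [TopologicalSpace X] (k : Cardinal.{u}) : Type u :=
  C(X, ℝ) × (k.out × List ℕ) × List L

open Classical in
noncomputable def uf (g : I → C(X, ℝ)) (S : Set I) (h : C(X, ℝ)) : C(X, ℝ) :=
  if hc : Continuous (ret g S) then
    ⟨fun x => h x - h (ret g S x), h.continuous.sub (h.continuous.comp hc)⟩ else 0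

theorem uf_apply [CompactSpace X] {g : I → C(X, ℝ)} {S : Set I} (hS : Inj g S) (h : C(X, ℝ))
    (x : X) : uf g S h x = h x - h (ret g S x) := by
  unfold uf
  rw [dif_pos hS.continuous_ret]
  rfl

theorem uf_zero [CompactSpace X] {g : I → C(X, ℝ)} {S : Set I} (hS : Inj g S) (h : C(X, ℝ))
    (z : X) (hz : z ∈ closure (pts g S)) : uf g S h z = 0 := by
  rw [uf_apply hS, hS.ret_eq hz fun _ _ => rfl, sub_self]

theorem uf_meas [CompactSpace X] {g : I → C(X, ℝ)} {S T : Set I} (hS : Inj g S) (hST : S ⊆ T)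
    {h : C(X, ℝ)} (hh : Meas g T h) : Meas g T (uf g S h) := by
  intro x y hr
  rw [uf_apply hS, uf_apply hS, hh x y hr, hS.ret_congr (hr.mono hST)]

variable {k : Cardinal.{u}} (Z : Sys X I L k)

noncomputable def Sys.psi (S S' : Set I) (w : Wt X L k) (n : ℕ) : Wt X L k :=
  (⟨fun x => soft n (uf Z.g S' w.1 x), (continuous_soft n).comp (uf Z.g S' w.1).continuous⟩,
    (w.2.1.1, n :: (Z.lab S S' (uf Z.g S' w.1) n).length :: w.2.1.2),
    Z.lab S S' (uf Z.g S' w.1) n ++ w.2.2)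

def Sys.Fam (S : Set I) (J : Set (Wt X L k)) : Prop :=
  (∀ w ∈ J, Meas Z.g S w.1) ∧ (∀ x y, ¬ rel Z.g S x y → ∃ w ∈ J, w.1 x ≠ w.1 y) ∧
    UF Z.Good J (fun w => {x | w.1 x ≠ 0}) (fun w => w.2.1) (fun w => w.2.2)

variable [CompactSpace X] [T2Space X]

omit [CompactSpace X] in
theorem Sys.inj_below {ι : Type u} [LinearOrder ι] {T : ι → Set I} (hT : ∀ i, Clo Z.g Z.Φ (T i))
    (hmono : Monotone T) (i : ι) : Inj Z.g (⋃ j ∈ Iio i, T j) := by
  rcases (Iio i).eq_empty_or_nonempty with h | h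
  · rw [h, biUnion_empty]; exact inj_empty
  · refine Z.hInj _ (clo_directed h (fun a ha b hb => ⟨max a b, max_lt ha hb,
      hmono (le_max_left _ _), hmono (le_max_right _ _)⟩) fun j _ => hT j)

theorem Sys.step {ι : Type u} [LinearOrder ι] [WellFoundedLT ι] {S : Set I}
    (hS : Clo Z.g Z.Φ S) (T : ι → Set I) (hT : ∀ i, Clo Z.g Z.Φ (T i)) (hTS : ∀ i, T i ⊆ S)
    (hmono : Monotone T) (hcov : ∀ s ∈ S, ∃ i, s ∈ T i) (fam : ι → Set (Wt X L k))
    (hfam : ∀ i, Z.Fam (T i) (fam i))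
    (hext : ∀ j i, j < i → ∀ w ∈ fam j, ∀ n,
      ∀ e ∈ Z.ext S (⋃ a ∈ Iio j, T a) (uf Z.g (⋃ a ∈ Iio j, T a) w.1) n, e ∈ T i) :
    Z.Fam S {w' | ∃ i, ∃ w ∈ fam i, ∃ n, w' = Z.psi S (⋃ a ∈ Iio i, T a) w n} := by
  set B : ι → Set I := fun i => ⋃ a ∈ Iio i, T a with hB
  have hBI : ∀ i, Inj Z.g (B i) := Z.inj_below hT hmono
  have hBT : ∀ i, B i ⊆ T i := fun i => iUnion₂_subset fun a ha => hmono (le_of_lt ha)
  have hTB : ∀ j i, j < i → T j ⊆ B i := fun j i h => subset_biUnion_of_mem (u := T) h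
  refine ⟨?_, ?_, ?_⟩
  · rintro _ ⟨i, w, hw, n, rfl⟩ x y hr
    exact congrArg (soft n) (uf_meas (hBI i) (hBT i) ((hfam i).1 w hw) x y (hr.mono (hTS i)))
  · intro x y hr
    have hne : {i | ¬ rel Z.g (T i) x y}.Nonempty := by
      by_contra hc
      refine hr fun s hs => ?_
      obtain ⟨i, hi⟩ := hcov s hs
      by_contra h1
      exact hc ⟨i, fun h2 => h1 (h2 s hi)⟩
    have h1 := wellFounded_lt.min_mem _ hne
    set i := wellFounded_lt.min _ hne with hi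
    have h2 : rel Z.g (B i) x y := by
      intro s hs
      obtain ⟨a, ha, hs⟩ := mem_iUnion₂.1 hs
      by_contra h3
      exact wellFounded_lt.not_lt_min {i | ¬ rel Z.g (T i) x y} (fun h4 => h3 (h4 s hs)) ha
    obtain ⟨w, hw, h3⟩ := (hfam i).2.1 x y h1
    have h4 : uf Z.g (B i) w.1 x ≠ uf Z.g (B i) w.1 y := by
      rw [uf_apply (hBI i), uf_apply (hBI i), (hBI i).ret_congr h2]
      exact fun h => h3 (sub_left_injective h)
    obtain ⟨n, hn⟩ := soft_sep h4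
    exact ⟨_, ⟨i, w, hw, n, rfl⟩, hn⟩
  · intro x U d0 hU
    obtain ⟨w0, ⟨i0, w1, hw1, n0, rfl⟩, -, hd0⟩ := hU.exists
    have hch : ∀ w' : Wt X L k, ∃ p : ι × Wt X L k × ℕ,
        (∃ i, ∃ w ∈ fam i, ∃ n, w' = Z.psi S (B i) w n) →
          p.2.1 ∈ fam p.1 ∧ w' = Z.psi S (B p.1) p.2.1 p.2.2 := by
      intro w'
      by_cases h : ∃ i, ∃ w ∈ fam i, ∃ n, w' = Z.psi S (B i) w n
      · obtain ⟨i, w, hw, n, h⟩ := h
        exact ⟨(i, w, n), fun _ => ⟨hw, h⟩⟩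
      · exact ⟨(i0, w1, n0), fun h' => (h h').elim⟩
    choose π hπ using hch
    set m0 := (Z.lab S (B i0) (uf Z.g (B i0) w1.1) n0).length with hm0
    have hU2 : ∀ᶠ w' in U, (π w').2.1 ∈ fam (π w').1 ∧
        w' = Z.psi S (B (π w').1) (π w').2.1 n0 ∧
        1 / ((n0 : ℝ) + 1) ≤ |uf Z.g (B (π w').1) (π w').2.1.1 x| ∧
        (Z.lab S (B (π w').1) (uf Z.g (B (π w').1) (π w').2.1.1) n0).length = m0 ∧
        (π w').2.1.2.1 = w1.2.1 := by
      filter_upwards [hU] with w' ⟨h1, h2, h3⟩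
      obtain ⟨h4, h5⟩ := hπ w' h1
      have h6 : (Z.psi S (B (π w').1) (π w').2.1 (π w').2.2).2.1 =
          (Z.psi S (B i0) w1 n0).2.1 := by
        rw [← h5]; exact h3.trans hd0.symm
      simp only [Sys.psi, Prod.mk.injEq, List.cons.injEq] at h6
      obtain ⟨h7, h8, h9, h10⟩ := h6
      rw [h8] at h5 h9
      refine ⟨h4, h5, ?_, h9, Prod.ext h7 h10⟩
      apply soft_ne
      have h11 : w'.1 x ≠ 0 := h2
      rw [h5] at h11
      exact h11
    have h0 : (0 : ℝ) < 1 / ((n0 : ℝ) + 1) := Nat.one_div_pos_of_nat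
    by_cases hc : ∃ i, ∀ᶠ w' in U, (π w').1 = i
    · obtain ⟨i, hi⟩ := hc
      have hx : ∃ x', ∀ᶠ w' in U, (π w').2.1.1 x' ≠ 0 := by
        have h1 : ∀ᶠ w' in U, (π w').2.1.1 x ≠ 0 ∨ (π w').2.1.1 (ret Z.g (B i) x) ≠ 0 := by
          filter_upwards [hU2, hi] with w' ⟨_, _, h3, _⟩ h4
          rw [h4, uf_apply (hBI i)] at h3
          by_contra h5
          push Not at h5
          rw [h5.1, h5.2] at h3
          norm_num at h3 h0
          linarith
        rcases Ultrafilter.eventually_or.1 h1 with h | h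
        · exact ⟨_, h⟩
        · exact ⟨_, h⟩
      obtain ⟨x', hx'⟩ := hx
      rcases (hfam i).2.2 x' (U.map fun w' => (π w').2.1) w1.2.1 (by
        show ∀ᶠ w' in (U : Filter (Wt X L k)), (π w').2.1 ∈ fam i ∧ (π w').2.1.1 x' ≠ 0 ∧
          (π w').2.1.2.1 = w1.2.1
        filter_upwards [hU2, hi, hx'] with w' h1 h2 h3
        exact ⟨h2 ▸ h1.1, h3, h1.2.2.2.2⟩) with ⟨w2, h2⟩ | ⟨l, h2, h3⟩
      · left
        have h3 : ∀ᶠ w' in U, (π w').2.1 = w2 := by
          have h4 : {w2} ∈ U.map fun w' => (π w').2.1 := by rw [h2]; simp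
          exact h4
        have h4 : {Z.psi S (B i) w2 n0} ∈ U := by
          filter_upwards [hU2, hi, h3] with w' h5 h6 h7
          have h8 := h5.2.1
          rw [h6, h7] at h8
          exact h8
        obtain ⟨a, -, ha⟩ := Ultrafilter.eq_pure_of_finite_mem (finite_singleton _) h4
        exact ⟨a, ha⟩
      · right
        refine ⟨fun w' => l (π w').2.1, ?_, h3⟩
        have h4 : ∀ᶠ w' in U, l (π w').2.1 ∈ (π w').2.1.2.2 := h2
        filter_upwards [hU2, h4] with w' h5 h6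
        have h7 : w'.2.2 = _ := congrArg (fun w : Wt X L k => w.2.2) h5.2.1
        rw [h7]
        exact List.mem_append_right _ h6
    · right
      have hfree := lev_free U (fun w' => (π w').1) fun i hi => hc ⟨i, hi⟩
      obtain ⟨l, h1, h2⟩ := Z.hLev S hS _ U _ (fun w' => B (π w').1) (fun w' => T (π w').1)
        (fun w' => uf Z.g (B (π w').1) (π w').2.1.1) n0 m0 (ret Z.g S x) (ret_mem S x)
        (hU2.and hfree) (by
          rintro y ⟨⟨h1, -, h3, h4, -⟩, h5⟩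
          have hm := uf_meas (hBI _) (hBT _) ((hfam _).1 _ h1)
          refine ⟨hBT _, hTS _, hm, uf_zero (hBI _) _, ?_, h4, ?_⟩
          · rw [← hm x _ ((ret_rel S x).mono (hTS _))]; exact h3
          · obtain ⟨y1, h6, h7⟩ := (h5.and hfree).exists
            filter_upwards [h7] with y' h8
            exact ⟨hTB _ _ (h6.trans h8), fun e he => hTB _ _ h8 (hext _ _ h6 _ h1 n0 e he)⟩)
      refine ⟨l, ?_, h2⟩
      filter_upwards [hU2, h1] with w' h5 h6
      have h7 : w'.2.2 = _ := congrArg (fun w : Wt X L k => w.2.2) h5.2.1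
      rw [h7]
      exact List.mem_append_left _ h6

end Pool.Agent.K76
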