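import Pool.Agent.P.MP_294ed4_gt.K76One

open Cardinal Set Filter Topology

universe u

namespace Pool.Agent.K76

variable {X : Type u} [TopologicalSpace X] {k : Cardinal.{u}}

theorem ev_cont (x : X) : Continuous fun f : Cp X => f.1 x :=
  (continuous_apply x).comp continuous_subtype_val

theorem conv_of_network {Y : Type u} [TopologicalSpace Y] {N : Set (Set Y)} {K : Set Y}
    (hK : IsCompact K) (h : ∀ U : Set Y, IsOpen U → K ⊆ U → ∃ M ∈ N, K ⊆ M ∧ M ⊆ U)
    (V : Ultrafilter Y) (hV : ∀ M ∈ N, K ⊆ M → M ∈ V) : ∃ v ∈ K, (V : Filter Y) ≤ 𝓝 v := by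
  by_contra hc
  have h1 : Disjoint (𝓝ˢ K) (V : Filter Y) := hK.disjoint_nhdsSet_left.2 fun v hv =>
    (Ultrafilter.disjoint_iff_not_le.2 fun h => hc ⟨v, hv, h⟩).symm
  obtain ⟨s, hs, t, ht, hst⟩ := Filter.disjoint_iff.1 h1
  obtain ⟨U, hU, h2, h3⟩ := mem_nhdsSet_iff_exists.1 hs
  obtain ⟨M, hM, h4, h5⟩ := h U hU h2
  obtain ⟨y, h6, h7⟩ := V.neBot.nonempty_of_mem (inter_mem (hV M hM h4) ht)
  exact Set.disjoint_left.1 hst (h3 (h5 h6)) h7

theorem sep_of_nagami [CompactSpace X] [T2Space X] (hk : ℵ₀ ≤ k) (h : NagamiLE k (Cp X)) :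
    SEP k X := by
  rcases isEmpty_or_nonempty X with hX | hX
  · exact sep_of_isEmpty hk
  obtain ⟨N, C, hN, hC, hcov, hnet⟩ := h
  have hK : ∀ f : Cp X, ∃ K ∈ C, f ∈ K := fun f => (hcov.symm ▸ mem_univ f : f ∈ ⋃₀ C)
  choose K hKC hKf using hK
  have : Nonempty (Cp X) := ⟨⟨fun _ => 0, continuous_const⟩⟩
  let g : Cp X → C(X, ℝ) := fun f => ⟨f.1, f.2⟩
  let pk : List (X × ℚ × ℚ) → Set (Cp X) → Cp X := fun l M => Classical.epsilon fun f =>
    f ∈ M ∧ ∀ e ∈ l, (e.2.1 : ℝ) < f.1 e.1 ∧ f.1 e.1 < (e.2.2 : ℝ)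
  let Φ : List X → Set (Cp X) := fun l =>
    range fun p : N × List (ℚ × ℚ) => pk (l.zip p.2) p.1.1
  let Z : Sys X (Cp X) (Cp X) k :=
    { g := g
      Φ := Φ
      Good := fun V => ¬ ∃ v, (V : Filter (Cp X)) ≤ 𝓝 v
      lab := fun _ _ v _ => [⟨v, v.continuous⟩]
      ext := fun _ _ _ _ => []
      hΦ := fun l => mk_range_le.trans (card_prod_cnt _ hk hN)
      hInj := by
        intro S hS x hx y hy hr
        by_contra hxy
        obtain ⟨f0, hf0⟩ := exists_sep hxy
        let f : Cp X := ⟨f0, f0.continuous⟩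
        have hq : ∀ p : pts g S × ℕ, ∃ q : ℚ × ℚ, (f.1 p.1.1 - 1 / ((p.2 : ℝ) + 1) < q.1 ∧
            (q.1 : ℝ) < f.1 p.1.1) ∧ f.1 p.1.1 < q.2 ∧
              (q.2 : ℝ) < f.1 p.1.1 + 1 / ((p.2 : ℝ) + 1) := by
          intro p
          have h0 : (0 : ℝ) < 1 / ((p.2 : ℝ) + 1) := Nat.one_div_pos_of_nat
          obtain ⟨a, ha⟩ := exists_rat_btwn (sub_lt_self (f.1 p.1.1) h0)
          obtain ⟨b, hb⟩ := exists_rat_btwn (lt_add_of_pos_right (f.1 p.1.1) h0)
          exact ⟨(a, b), ha, hb⟩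
        choose q hq using hq
        have hZ : IsClosed {f' : Cp X | f'.1 x = f'.1 y} := isClosed_eq (ev_cont x) (ev_cont y)
        have hcl : ∀ p : pts g S × ℕ,
            IsClosed {f' : Cp X | |f'.1 p.1.1 - f.1 p.1.1| ≤ 1 / ((p.2 : ℝ) + 1)} := fun p =>
          isClosed_le ((ev_cont _).sub continuous_const).abs continuous_const
        obtain ⟨f1, ⟨-, h1⟩, h2⟩ := ((hC _ (hKC f)).inter_right hZ).inter_iInter_nonempty _ hcl (by
          intro t
          by_contra hem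
          obtain ⟨M, hM, h3, h4⟩ := hnet _ (hKC f) ({f' : Cp X | f'.1 x = f'.1 y} ∩ ⋂ p ∈ t,
            {f' : Cp X | |f'.1 p.1.1 - f.1 p.1.1| ≤ 1 / ((p.2 : ℝ) + 1)})ᶜ
            (hZ.inter (isClosed_biInter fun p _ => hcl p)).isOpen_compl
            fun f' h5 h6 => hem ⟨f', ⟨h5, h6.1⟩, h6.2⟩
          have hz : (t.toList.map fun p => p.1.1).zip (t.toList.map q) =
              t.toList.map fun p => (p.1.1, q p) := List.zip_map' ..
          have h5 := Classical.epsilon_spec (p := fun f' : Cp X => f' ∈ M ∧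
            ∀ e ∈ t.toList.map fun p => (p.1.1, q p),
              (e.2.1 : ℝ) < f'.1 e.1 ∧ f'.1 e.1 < (e.2.2 : ℝ)) ⟨f, h3 (hKf f), by
            intro e he
            obtain ⟨p, -, rfl⟩ := List.mem_map.1 he
            exact ⟨(hq p).1.2, (hq p).2.1⟩⟩
          have h6 : pk (t.toList.map fun p => (p.1.1, q p)) M ∈ S := by
            refine hS (t.toList.map fun p => p.1.1) ?_ ⟨(⟨M, hM⟩, t.toList.map q), by
              simp only [hz]⟩
            intro a ha
            obtain ⟨p, -, rfl⟩ := List.mem_map.1 ha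
            exact p.1.2
          refine h4 h5.1 ⟨hr _ h6, mem_iInter₂.2 fun p hp => ?_⟩
          have h7 := h5.2 _ (List.mem_map_of_mem (Finset.mem_toList.2 hp))
          have h8 := hq p
          simp only [mem_ofPred_eq, abs_le]
          constructor <;> linarith [h7.1, h7.2, h8.1.1, h8.2.2])
        have h3 : EqOn f1.1 f.1 (pts g S) := by
          intro a ha
          by_contra hne
          obtain ⟨n, hn⟩ := exists_nat_one_div_lt (abs_pos.2 (sub_ne_zero.2 hne))
          exact absurd (mem_iInter.1 h2 (⟨a, ha⟩, n)) (not_le.2 hn)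
        have h4 := h3.closure f1.2 f.2
        exact hf0 ((h4 hx).symm.trans (h1.trans (h4 hy)))
      hExt := by
        intro S S' v n _ _ _ i hi
        simp at hi
      hLev := by
        intro S hS W U Y0 S' S'' v n m x hx hY h
        refine ⟨fun y => ⟨v y, (v y).continuous⟩, Eventually.of_forall fun y => by simp, ?_⟩
        rintro ⟨w, hw⟩
        have hlim : ∀ z, Tendsto (fun y => v y z) U (𝓝 (w.1 z)) := fun z =>
          ((ev_cont z).tendsto w).comp hw
        have hdir : ∀ a ∈ Y0, ∀ b ∈ Y0, ∃ c ∈ Y0, S'' a ⊆ S'' c ∧ S'' b ⊆ S'' c := by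
          intro a ha b hb
          obtain ⟨c, ⟨h1, h2⟩, hc⟩ :=
            (((h a ha).2.2.2.2.2.2.and (h b hb).2.2.2.2.2.2).and hY).exists
          exact ⟨c, hc, h1.1.trans (h c hc).1, h2.1.trans (h c hc).1⟩
        have h1 : EqOn w.1 (fun _ => 0) (pts g (⋃ y ∈ Y0, S'' y)) := by
          intro a ha
          obtain ⟨y0, hy0, h2⟩ := pts_directed (U.neBot.nonempty_of_mem hY) hdir ha
          refine tendsto_nhds_unique (hlim a) (tendsto_const_nhds.congr' ?_)
          filter_upwards [hY, (h y0 hy0).2.2.2.2.2.2] with y h3 h4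
          exact ((h y h3).2.2.2.1 a (subset_closure (pts_mono h4.1 h2))).symm
        have h2 := h1.closure w.2 continuous_const (ret_mem _ x)
        have h3 : w.1 x = w.1 (ret g (⋃ y ∈ Y0, S'' y) x) := by
          refine tendsto_nhds_unique (hlim x) ((hlim _).congr' ?_)
          filter_upwards [hY] with y h4
          exact ((h y h4).2.2.1 _ _ ((ret_rel _ x).mono
            (subset_biUnion_of_mem (u := S'') h4))).symm
        have h4 : 1 / ((n : ℝ) + 1) ≤ |w.1 x| := by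
          refine ge_of_tendsto (hlim x).abs ?_
          filter_upwards [hY] with y h4 using (h y h4).2.2.2.2.1
        rw [h3, h2, abs_zero] at h4
        exact absurd h4 (not_le.2 Nat.one_div_pos_of_nat) }
  obtain ⟨J, h1, h2⟩ := Z.top hk (by
    intro x y hr
    by_contra hxy
    obtain ⟨f0, hf0⟩ := exists_sep hxy
    exact hf0 (hr ⟨f0, f0.continuous⟩ trivial))
  refine ⟨J, fun j => j.1.1, fun x y hxy => ?_, transfer hk h2 (card_tag hk) hN
    (fun f M => f ∈ M.1) (fun f M => K f ⊆ M.1) (fun f M h => h (hKf f)) ?_⟩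
  · obtain ⟨w, hw, h3⟩ := h1 x y hxy
    exact ⟨⟨w, hw⟩, h3⟩
  · intro f V hV hG
    obtain ⟨v, -, hv⟩ := conv_of_network (hC _ (hKC f)) (hnet _ (hKC f)) V
      fun M hM h => hV ⟨M, hM⟩ h
    exact hG ⟨v, hv⟩

end Pool.Agent.K76
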