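import Pool.Agent.P.MP_294ed4_gt.WPF

open Set Filter Topology

namespace Pool.Agent.P.MP_294ed4_gt

universe u v

/-- The Lindelöf Σ-property for a subset of a space. -/
def LSig {Y : Type u} [TopologicalSpace Y] (S : Set Y) : Prop :=
  ∃ 𝒩 𝒞 : Set (Set Y), 𝒩.Countable ∧ (∀ K ∈ 𝒞, IsCompact K ∧ K ⊆ S) ∧ S ⊆ ⋃₀ 𝒞 ∧
    ∀ K ∈ 𝒞, ∀ U : Set Y, IsOpen U → K ⊆ U → ∃ N ∈ 𝒩, K ⊆ N ∧ N ⊆ U

variable {Y : Type u} {Z : Type v} [TopologicalSpace Y] [TopologicalSpace Z] {S : Set Y}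

theorem IsLindelofSigma.lsig (h : IsLindelofSigma Y) : LSig (univ : Set Y) := by
  obtain ⟨𝒩, 𝒞, h1, h2, h3, h4⟩ := h
  exact ⟨𝒩, 𝒞, h1, fun K hK => ⟨h2 K hK, subset_univ _⟩, h3.symm.subset, h4⟩

theorem LSig.of_isInducing (h : LSig S) {e : Z → Y} (he : IsInducing e) (hr : range e = S) :
    IsLindelofSigma Z := by
  obtain ⟨𝒩, 𝒞, h1, h2, h3, h4⟩ := h
  refine ⟨preimage e '' 𝒩, preimage e '' 𝒞, h1.image _, ?_, eq_univ_of_forall fun z => ?_, ?_⟩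
  · rintro _ ⟨K, hK, rfl⟩
    exact he.isCompact_preimage' (h2 K hK).1 (hr ▸ (h2 K hK).2)
  · obtain ⟨K, hK, hz⟩ := h3 (hr.subset (mem_range_self z))
    exact ⟨_, ⟨K, hK, rfl⟩, hz⟩
  · rintro _ ⟨K, hK, rfl⟩ U hU hKU
    obtain ⟨W, hW, rfl⟩ := he.isOpen_iff.1 hU
    obtain ⟨N, hN, hKN, hNW⟩ := h4 K hK W hW fun y hy => by
      obtain ⟨z, rfl⟩ := hr.symm.subset ((h2 K hK).2 hy)
      exact hKU hy
    exact ⟨_, ⟨N, hN, rfl⟩, preimage_mono hKN, preimage_mono hNW⟩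

theorem lsig_of_isCompact (h : IsCompact S) : LSig S :=
  ⟨{S}, {S}, countable_singleton _, by rintro _ rfl; exact ⟨h, Subset.rfl⟩,
    (sUnion_singleton _).symm.subset, by rintro _ rfl U _ hU; exact ⟨_, rfl, Subset.rfl, hU⟩⟩

theorem LSig.image (h : LSig S) {f : Y → Z} (hf : Continuous f) : LSig (f '' S) := by
  obtain ⟨𝒩, 𝒞, h1, h2, h3, h4⟩ := h
  refine ⟨Set.image f '' 𝒩, Set.image f '' 𝒞, h1.image _, ?_, ?_, ?_⟩
  · rintro _ ⟨K, hK, rfl⟩
    exact ⟨(h2 K hK).1.image hf, image_mono (h2 K hK).2⟩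
  · rintro _ ⟨y, hy, rfl⟩
    obtain ⟨K, hK, hyK⟩ := h3 hy
    exact ⟨_, ⟨K, hK, rfl⟩, y, hyK, rfl⟩
  · rintro _ ⟨K, hK, rfl⟩ U hU hKU
    obtain ⟨N, hN, hKN, hNU⟩ := h4 K hK _ (hU.preimage hf) (image_subset_iff.1 hKU)
    exact ⟨_, ⟨N, hN, rfl⟩, image_mono hKN, image_subset_iff.2 hNU⟩

theorem LSig.prod (h : LSig S) {T : Set Z} (h' : LSig T) : LSig (S ×ˢ T) := by
  obtain ⟨𝒩, 𝒞, h1, h2, h3, h4⟩ := h
  obtain ⟨𝒩', 𝒞', h1', h2', h3', h4'⟩ := h'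
  refine ⟨image2 (· ×ˢ ·) 𝒩 𝒩', image2 (· ×ˢ ·) 𝒞 𝒞', h1.image2 h1' _, ?_, ?_, ?_⟩
  · rintro _ ⟨K, hK, K', hK', rfl⟩
    exact ⟨(h2 K hK).1.prod (h2' K' hK').1, prod_mono (h2 K hK).2 (h2' K' hK').2⟩
  · intro p hp
    obtain ⟨K, hK, hpK⟩ := h3 hp.1
    obtain ⟨K', hK', hpK'⟩ := h3' hp.2
    exact ⟨_, ⟨K, hK, K', hK', rfl⟩, hpK, hpK'⟩
  · rintro _ ⟨K, hK, K', hK', rfl⟩ U hU hKU
    obtain ⟨V, V', hV, hV', g1, g2, g3⟩ :=
      generalized_tube_lemma (h2 K hK).1 (h2' K' hK').1 hU hKU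
    obtain ⟨N, hN, hKN, hNV⟩ := h4 K hK V hV g1
    obtain ⟨N', hN', hKN', hNV'⟩ := h4' K' hK' V' hV' g2
    exact ⟨_, ⟨N, hN, N', hN', rfl⟩, prod_mono hKN hKN', (prod_mono hNV hNV').trans g3⟩

theorem LSig.image2 {W : Type*} [TopologicalSpace W] (h : LSig S) {T : Set Z} (h' : LSig T)
    {f : Y → Z → W} (hf : Continuous fun p : Y × Z => f p.1 p.2) : LSig (image2 f S T) := by
  rw [← image_prod]
  exact (h.prod h').image hf

theorem LSig.iUnion {ι : Type*} [Countable ι] {T : ι → Set Y} (h : ∀ i, LSig (T i)) :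
    LSig (⋃ i, T i) := by
  choose 𝒩 𝒞 h1 h2 h3 h4 using h
  refine ⟨⋃ i, 𝒩 i, ⋃ i, 𝒞 i, countable_iUnion h1, fun K hK => ?_, iUnion_subset fun i => ?_,
    fun K hK U hU hKU => ?_⟩
  · obtain ⟨i, hi⟩ := mem_iUnion.1 hK
    exact ⟨(h2 i K hi).1, subset_iUnion_of_subset i (h2 i K hi).2⟩
  · exact (h3 i).trans (sUnion_mono (subset_iUnion 𝒞 i))
  · obtain ⟨i, hi⟩ := mem_iUnion.1 hK
    obtain ⟨N, hN, hKN⟩ := h4 i K hi U hU hKU
    exact ⟨N, mem_iUnion.2 ⟨i, hN⟩, hKN⟩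

theorem LSig.union (h : LSig S) {T : Set Y} (h' : LSig T) : LSig (S ∪ T) := by
  rw [union_eq_iUnion]
  exact LSig.iUnion fun b => by cases b <;> assumption

theorem LSig.iInter [T2Space Y] {T : ℕ → Set Y} (h : ∀ n, LSig (T n)) : LSig (⋂ n, T n) := by
  choose 𝒩 𝒞 h1 h2 h3 h4 using h
  refine ⟨sInter '' {t | t.Finite ∧ t ⊆ ⋃ n, 𝒩 n},
    {C | ∃ K : ℕ → Set Y, (∀ n, K n ∈ 𝒞 n) ∧ C = ⋂ n, K n},
    (countable_ofPred_finite_subset (countable_iUnion h1)).image _, ?_, fun y hy => ?_, ?_⟩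
  · rintro _ ⟨K, hK, rfl⟩
    exact ⟨(h2 0 _ (hK 0)).1.of_isClosed_subset
      (isClosed_iInter fun n => (h2 n _ (hK n)).1.isClosed) (iInter_subset _ 0),
      iInter_mono fun n => (h2 n _ (hK n)).2⟩
  · choose K hK hyK using fun n => h3 n (mem_iInter.1 hy n)
    exact ⟨_, ⟨K, hK, rfl⟩, mem_iInter.2 hyK⟩
  · rintro _ ⟨K, hK, rfl⟩ U hU hKU
    let C : ℕ → Set Y := fun n => Nat.rec (K 0) (fun m Q => Q ∩ K (m + 1)) n
    have hC : ∀ n, IsCompact (C n) := fun n => by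
      induction n with
      | zero => exact (h2 0 _ (hK 0)).1
      | succ n ih => exact ih.inter (h2 _ _ (hK (n + 1))).1
    have hanti : Antitone C := antitone_nat_of_succ_le fun n => inter_subset_left
    have hCK : ∀ n, C n ⊆ K n := fun n => by
      cases n with
      | zero => exact Subset.rfl
      | succ n => exact inter_subset_right
    have hKC : ∀ n, ⋂ m, K m ⊆ C n := fun n => by
      induction n with
      | zero => exact iInter_subset _ 0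
      | succ n ih => exact subset_inter ih (iInter_subset _ _)
    have hbase : ∀ n, ∀ V ∈ 𝓝ˢ (K n), ∃ N ∈ 𝒩 n, K n ⊆ N ∧ N ⊆ V := fun n V hV => by
      obtain ⟨W, hW, g1, g2⟩ := mem_nhdsSet_iff_exists.1 hV
      obtain ⟨N, hN, g3, g4⟩ := h4 n _ (hK n) W hW g1
      exact ⟨N, hN, g3, g4.trans g2⟩
    have hnet : ∀ n, ∀ V ∈ 𝓝ˢ (C n), ∃ t : Set (Set Y), t.Finite ∧ t ⊆ ⋃ n, 𝒩 n ∧
        C n ⊆ ⋂₀ t ∧ ⋂₀ t ⊆ V := fun n => by
      induction n with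
      | zero =>
        intro V hV
        obtain ⟨N, hN, g1, g2⟩ := hbase 0 V hV
        exact ⟨{N}, finite_singleton _, singleton_subset_iff.2 (mem_iUnion.2 ⟨0, hN⟩),
          by rw [sInter_singleton]; exact g1, by simpa using g2⟩
      | succ n ih =>
        intro V hV
        have hV' : V ∈ 𝓝ˢ (C n) ⊓ 𝓝ˢ (K (n + 1)) := by
          rw [← (hC n).nhdsSet_inter_eq (h2 _ _ (hK (n + 1))).1]
          exact hV
        obtain ⟨V1, hV1, V2, hV2, rfl⟩ := mem_inf_iff.1 hV'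
        obtain ⟨t, g1, g2, g3, g4⟩ := ih V1 hV1
        obtain ⟨N, hN, g5, g6⟩ := hbase _ V2 hV2
        refine ⟨insert N t, g1.insert _, insert_subset (mem_iUnion.2 ⟨_, hN⟩) g2, ?_, ?_⟩
        · rw [sInter_insert, inter_comm]
          exact inter_subset_inter g3 g5
        · rw [sInter_insert, inter_comm]
          exact inter_subset_inter g4 g6
    obtain ⟨n, hn⟩ := exists_subset_nhds_of_isCompact (V := C) (U := U)
      hanti.directed_ge hC fun x hx =>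
        hU.mem_nhds (hKU (iInter_mono hCK hx))
    obtain ⟨t, g1, g2, g3, g4⟩ := hnet n U (hU.mem_nhdsSet.2 hn)
    exact ⟨_, ⟨t, ⟨g1, g2⟩, rfl⟩, (hKC n).trans g3, g4⟩

theorem LSig.isLindelof (h : LSig S) : IsLindelof S := by
  classical
  obtain ⟨𝒩, 𝒞, h1, h2, h3, h4⟩ := h
  refine isLindelof_of_countable_subcover fun {ι} U hU hc => ?_
  have h5 : ∀ N : Set Y, ∃ t : Finset ι, (∃ t : Finset ι, N ⊆ ⋃ i ∈ t, U i) →
      N ⊆ ⋃ i ∈ t, U i := fun N => by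
    by_cases hN : ∃ t : Finset ι, N ⊆ ⋃ i ∈ t, U i
    · obtain ⟨t, ht⟩ := hN
      exact ⟨t, fun _ => ht⟩
    · exact ⟨∅, fun h => absurd h hN⟩
  choose t ht using h5
  refine ⟨⋃ N ∈ 𝒩, (t N : Set ι), h1.biUnion fun N _ => (t N).countable_toSet, fun y hy => ?_⟩
  obtain ⟨K, hK, hyK⟩ := h3 hy
  obtain ⟨r, hr⟩ := (h2 K hK).1.elim_finite_subcover U hU ((h2 K hK).2.trans hc)
  obtain ⟨N, hN, g1, g2⟩ := h4 K hK _ (isOpen_biUnion fun i _ => hU i) hr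
  obtain ⟨i, hi, hyi⟩ := mem_iUnion₂.1 (ht N ⟨r, g2⟩ (g1 hyK))
  exact mem_iUnion₂.2 ⟨i, mem_iUnion₂.2 ⟨N, hN, hi⟩, hyi⟩

theorem lsig_real : LSig (univ : Set ℝ) := by
  rw [← iUnion_Icc_intCast ℝ]
  exact LSig.iUnion fun _ => lsig_of_isCompact isCompact_Icc

/-- A family of functions whose supports are weakly σ-point-finite is, together with zero, a
Lindelöf Σ-subset of the product of lines. -/
theorem lsig_of_wpf {X : Type u} {I : Type v} (f : I → X → ℝ) (h : WPF fun s => {x | f s x ≠ 0}) :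
    LSig (insert 0 (range f)) := by
  classical
  obtain ⟨A, hA⟩ := h
  have key : ∀ (s : I) (U : Set (X → ℝ)), IsOpen U → 0 ∈ U → ∃ a : Finset ℕ,
      (∀ c ∈ a, s ∈ A c) ∧ {t | (∀ c ∈ a, t ∈ A c) ∧ f t ∉ U}.Finite := by
    intro s U hU h0
    obtain ⟨P, V, g1, g2⟩ := isOpen_pi_iff.1 hU 0 h0
    choose c hc hf using fun x => hA x s
    refine ⟨P.image c, fun d hd => ?_, (P.finite_toSet.biUnion fun x _ => hf x).subset ?_⟩
    · obtain ⟨x, -, rfl⟩ := Finset.mem_image.1 hd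
      exact hc x
    · rintro t ⟨ht, htU⟩
      by_contra hcon
      refine htU (g2 fun x hx => ?_)
      have : f t x = 0 := by
        by_contra hne
        exact hcon (mem_iUnion₂.2 ⟨x, hx, ht _ (Finset.mem_image_of_mem c hx), hne⟩)
      rw [this]
      exact (g1 x hx).2
  have h1 : LSig (⋃ s : I, insert 0 (f '' {t | ∀ c, s ∈ A c → t ∈ A c})) := by
    refine ⟨range fun a : Finset ℕ => insert 0 (f '' {t | ∀ c ∈ a, t ∈ A c}),
      range fun s : I => insert 0 (f '' {t | ∀ c, s ∈ A c → t ∈ A c}), countable_range _, ?_,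
      by rw [sUnion_range], ?_⟩
    · rintro _ ⟨s, rfl⟩
      refine ⟨isCompact_of_finite_subcover fun {ι} U hU hc => ?_,
        subset_iUnion (fun s : I => insert 0 (f '' {t | ∀ c, s ∈ A c → t ∈ A c})) s⟩
      obtain ⟨i0, hi0⟩ := mem_iUnion.1 (hc (mem_insert _ _))
      obtain ⟨a, ha, hf⟩ := key s _ (hU i0) hi0
      have hfin : (f '' {t | (∀ c, s ∈ A c → t ∈ A c) ∧ f t ∉ U i0}).Finite :=
        (hf.subset fun t ht => ⟨fun c hc => ht.1 c (ha c hc), ht.2⟩).image f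
      obtain ⟨r, hr⟩ := hfin.isCompact.elim_finite_subcover U hU
        ((image_mono fun t ht => ht.1).trans ((subset_insert _ _).trans hc))
      refine ⟨insert i0 r, ?_⟩
      rw [Finset.set_biUnion_insert]
      rintro _ (rfl | ⟨t, ht, rfl⟩)
      · exact Or.inl hi0
      · by_cases htU : f t ∈ U i0
        · exact Or.inl htU
        · exact Or.inr (hr ⟨t, ⟨ht, htU⟩, rfl⟩)
    · rintro _ ⟨s, rfl⟩ U hU hKU
      obtain ⟨a, ha, hf⟩ := key s U hU (hKU (mem_insert _ _))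
      have h2 : ∀ t, ∃ c, f t ∉ U → s ∈ A c ∧ t ∉ A c := fun t => by
        by_contra hcon
        push Not at hcon
        exact (hcon 0).1 (hKU (Or.inr ⟨t, fun c hc => (hcon c).2 hc, rfl⟩))
      choose c hc using h2
      refine ⟨_, ⟨a ∪ hf.toFinset.image c, rfl⟩, insert_subset_insert (image_mono ?_), ?_⟩
      · intro t ht d hd
        rcases Finset.mem_union.1 hd with hd | hd
        · exact ht d (ha d hd)
        · obtain ⟨t', ht', rfl⟩ := Finset.mem_image.1 hd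
          exact ht _ (hc t' (hf.mem_toFinset.1 ht').2).1
      · rintro _ (rfl | ⟨t, ht, rfl⟩)
        · exact hKU (mem_insert _ _)
        · by_contra htU
          refine (hc t htU).2 (ht _ (Finset.mem_union_right _ (Finset.mem_image_of_mem c ?_)))
          exact hf.mem_toFinset.2 ⟨fun d hd => ht d (Finset.mem_union_left _ hd), htU⟩
  have h2 := (lsig_of_isCompact (isCompact_singleton (x := (0 : X → ℝ)))).union h1
  convert h2 using 1
  refine Subset.antisymm ?_ ?_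
  · rintro _ (rfl | ⟨s, rfl⟩)
    · exact Or.inl rfl
    · exact Or.inr (mem_iUnion.2 ⟨s, Or.inr ⟨s, fun _ hc => hc, rfl⟩⟩)
  · refine union_subset (singleton_subset_iff.2 (mem_insert _ _)) (iUnion_subset fun s => ?_)
    exact insert_subset_insert (image_subset_range _ _)

end Pool.Agent.P.MP_294ed4_gt
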