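import Pool.Agent.P.MP_294ed4_gt.Tree

open Set Filter Topology

namespace Pool.Agent.P.MP_294ed4_gt

universe u v

/-- A network with a weakly σ-point-finite open expansion. -/
structure IsExpNet {Y : Type u} [TopologicalSpace Y] {S : Type v} (N G : S → Set Y) : Prop where
  isOpen : ∀ s, IsOpen (G s)
  sub : ∀ s, N s ⊆ G s
  wpf : WPF G
  net : ∀ y U, IsOpen U → y ∈ U → ∃ s, y ∈ N s ∧ N s ⊆ U

variable {Y : Type u} [TopologicalSpace Y] {S : Type v} {N G : S → Set Y}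

theorem IsExpNet.hereditarily (h : IsExpNet N G) : HereditarilyWeaklySigmaMetacompact Y := by
  classical
  intro Z 𝒰 h𝒰 hc
  have h1 : ∀ s, ∃ U : Set Z, (∃ U ∈ 𝒰, Subtype.val ⁻¹' N s ⊆ U) →
      U ∈ 𝒰 ∧ Subtype.val ⁻¹' N s ⊆ U := fun s => by
    by_cases hs : ∃ U ∈ 𝒰, Subtype.val ⁻¹' N s ⊆ U
    · obtain ⟨U, hU⟩ := hs
      exact ⟨U, fun _ => hU⟩
    · exact ⟨∅, fun h => absurd h hs⟩
  choose U hU using h1
  refine ⟨(fun s => U s ∩ Subtype.val ⁻¹' G s) '' {s | ∃ U ∈ 𝒰, Subtype.val ⁻¹' N s ⊆ U},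
    ?_, ?_, ?_, WPF.to_set ?_ _⟩
  · rintro _ ⟨s, hs, rfl⟩
    exact (h𝒰 _ (hU s hs).1).inter ((h.isOpen s).preimage continuous_subtype_val)
  · refine eq_univ_of_forall fun z => ?_
    obtain ⟨W, hW, hzW⟩ := hc.symm.subset (mem_univ z)
    obtain ⟨W', hW', rfl⟩ := isOpen_induced_iff.1 (h𝒰 W hW)
    obtain ⟨s, hs, hsub⟩ := h.net z W' hW' hzW
    have hs' : ∃ U ∈ 𝒰, Subtype.val ⁻¹' N s ⊆ U := ⟨_, hW, preimage_mono hsub⟩
    exact ⟨_, ⟨s, hs', rfl⟩, (hU s hs').2 hs, h.sub s hs⟩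
  · rintro _ ⟨s, hs, rfl⟩
    exact ⟨_, (hU s hs).1, inter_subset_left⟩
  · exact h.wpf.comp Subtype.val id (fun s => inter_subset_right) fun s =>
      (finite_singleton s).subset fun t ht => ht.1

theorem WPF.prod {Y Y' : Type*} {S S' : Type*} {G : S → Set Y} {G' : S' → Set Y'} (h : WPF G)
    (h' : WPF G') : WPF fun p : S × S' => G p.1 ×ˢ G' p.2 := by
  obtain ⟨A, hA⟩ := h
  obtain ⟨A', hA'⟩ := h'
  refine WPF.of_countable (fun c : ℕ × ℕ => A c.1 ×ˢ A' c.2) fun y s => ?_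
  obtain ⟨c, hc, hf⟩ := hA y.1 s.1
  obtain ⟨c', hc', hf'⟩ := hA' y.2 s.2
  exact ⟨(c, c'), ⟨hc, hc'⟩, (hf.prod hf').subset fun t ht => ⟨⟨ht.1.1, ht.2.1⟩, ht.1.2, ht.2.2⟩⟩

theorem IsExpNet.prod (h : IsExpNet N G) :
    IsExpNet (fun p : S × S => N p.1 ×ˢ N p.2) (fun p : S × S => G p.1 ×ˢ G p.2) where
  isOpen p := (h.isOpen _).prod (h.isOpen _)
  sub p := prod_mono (h.sub _) (h.sub _)
  wpf := h.wpf.prod h.wpf
  net y U hU hy := by
    obtain ⟨V, W, hV, hW, h1, h2, h3⟩ := isOpen_prod_iff.1 hU y.1 y.2 hy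
    obtain ⟨s, hs, hsV⟩ := h.net _ _ hV h1
    obtain ⟨t, ht, htW⟩ := h.net _ _ hW h2
    exact ⟨(s, t), ⟨hs, ht⟩, (prod_mono hsV htW).trans h3⟩

theorem IsExpNet.pi (h : IsExpNet N G) :
    IsExpNet (Y := ℕ → Y) (fun p : Σ F : Finset ℕ, (F → S) => {y | ∀ i : p.1, y i ∈ N (p.2 i)})
      (fun p : Σ F : Finset ℕ, (F → S) => {y | ∀ i : p.1, y i ∈ G (p.2 i)}) where
  isOpen p := by
    rw [setOf_forall]
    exact isOpen_iInter_of_finite fun i => (h.isOpen _).preimage (continuous_apply (i : ℕ))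
  sub p y hy i := h.sub _ (hy i)
  wpf := by
    refine WPF.sigma (G := fun (F : Finset ℕ) (t : F → S) => {y : ℕ → Y | ∀ i : F, y i ∈ G (t i)})
      fun F => ?_
    obtain ⟨A, hA⟩ := h.wpf
    refine WPF.of_countable (fun c : F → ℕ => {t | ∀ i, t i ∈ A (c i)}) fun y s => ?_
    choose c hc hf using fun i : F => hA (y i) (s i)
    exact ⟨c, hc, (Finite.pi' hf).subset fun t ht i => ⟨ht.1 i, ht.2 i⟩⟩
  net y U hU hy := by
    obtain ⟨F, V, h1, h2⟩ := isOpen_pi_iff.1 hU y hy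
    choose s hs hsV using fun i : F => h.net (y i) (V i) (h1 i i.2).1 (h1 i i.2).2
    exact ⟨⟨F, s⟩, hs, fun z hz => h2 fun i hi => hsV ⟨i, hi⟩ (hz ⟨i, hi⟩)⟩

/-- A countably compact set that is weakly σ-metacompact is compact. -/
theorem WSMOn.isCompact {K : Set Y} (h : WSMOn K) (hK : IsCountablyCompact K) : IsCompact K := by
  classical
  refine isCompact_of_finite_subcover fun {ι} U hU hc => ?_
  have h0 : ∀ y : K, ∃ i, (y : Y) ∈ U i := fun y => mem_iUnion.1 (hc y.2)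
  choose k hk using h0
  obtain ⟨S, V, h1, h2, h3, A, hA⟩ := h (fun y => if hy : y ∈ K then U (k ⟨y, hy⟩) else univ)
    fun y hy => by simpa [hy] using ⟨hU _, hk ⟨y, hy⟩⟩
  suffices hs : ∃ F : Set S, F.Finite ∧ K ⊆ ⋃ s ∈ F, V s by
    obtain ⟨F, hF, hKF⟩ := hs
    choose y hy hsub using h3
    refine ⟨hF.toFinset.image fun s => k ⟨y s, hy s⟩, fun z hz => ?_⟩
    obtain ⟨s, hs, hzs⟩ := mem_iUnion₂.1 (hKF hz)
    refine mem_iUnion₂.2 ⟨_, Finset.mem_image.2 ⟨s, hF.mem_toFinset.2 hs, rfl⟩, ?_⟩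
    simpa [hy s] using hsub s hzs
  by_contra hcon
  push Not at hcon
  let R : Y → ℕ → Set S := fun y c => {t | (t ∈ A c ∧ y ∈ V t ∩ K) ∧
    {t | t ∈ A c ∧ y ∈ V t ∩ K}.Finite}
  have hR : ∀ y c, (R y c).Finite := fun y c => by
    by_cases hf : {t | t ∈ A c ∧ y ∈ V t ∩ K}.Finite
    · exact hf.subset fun t ht => ht.1
    · exact finite_empty.subset fun t ht => hf ht.2
  have hstep : ∀ (n : ℕ) (P : Finset Y), ∃ z ∈ K, ∀ y ∈ P, ∀ c ≤ n, ∀ t ∈ R y c, z ∉ V t := by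
    intro n P
    obtain ⟨z, hz, hz'⟩ := not_subset.1 (hcon (⋃ y ∈ P, ⋃ c ∈ Iic n, R y c)
      (P.finite_toSet.biUnion fun y _ => (finite_Iic n).biUnion fun c _ => hR y c))
    refine ⟨z, hz, fun y hy c hc t ht hzt => hz' (mem_iUnion₂.2 ⟨t, ?_, hzt⟩)⟩
    exact mem_iUnion₂.2 ⟨y, hy, mem_iUnion₂.2 ⟨c, hc, ht⟩⟩
  choose g hg1 hg2 using hstep
  let P : ℕ → Finset Y := fun n => Nat.rec ∅ (fun m Q => insert (g m Q) Q) n
  let x : ℕ → Y := fun n => g n (P n)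
  have hP : ∀ m n, m < n → x m ∈ P n := by
    intro m n hmn
    induction n, hmn using Nat.le_induction with
    | base => exact Finset.mem_insert_self _ _
    | succ n _ ih => exact Finset.mem_insert_of_mem ih
  obtain ⟨a, ha, hcl⟩ := isCountablyCompact_iff_seq_clusterPt.1 hK x
    (Eventually.of_forall fun n => hg1 n _)
  obtain ⟨s, hs⟩ := mem_iUnion.1 (h2 ha)
  have hfr : ∃ᶠ n in atTop, x n ∈ V s := mapClusterPt_iff_frequently.1 hcl _ ((h1 s).mem_nhds hs)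
  obtain ⟨m, hm⟩ := hfr.exists
  obtain ⟨c, hc', hf⟩ := hA (x m) s
  obtain ⟨n, hn, hn'⟩ := (hfr.and_eventually (eventually_gt_atTop (max m c))).exists
  exact hg2 n (P n) (x m) (hP m n (lt_of_le_of_lt (le_max_left _ _) hn')) c
    ((le_max_right m c).trans hn'.le) s ⟨⟨hc', hm, hg1 _ _⟩, hf⟩ hn

end Pool.Agent.P.MP_294ed4_gt
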