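import Pool.Agent.P.MP_294ed4_gt.Net

open Set Filter Topology

namespace Pool.Agent.P.MP_294ed4_gt

universe u v

variable {X : Type u} [TopologicalSpace X]

theorem isOpen_offDiagonal [T2Space X] : IsOpen (offDiagonal X) :=
  isOpen_ne_fun continuous_fst continuous_snd

/-- A weakly σ-point-finite open cover of the complement of the diagonal refining a given
assignment of neighbourhoods. -/
theorem exists_cover [T2Space X] (h : WeaklySigmaMetacompact (offDiagonal X))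
    (W : X × X → Set (X × X)) (hW : ∀ p ∈ offDiagonal X, IsOpen (W p) ∧ p ∈ W p) :
    ∃ (I : Type u) (O : I → Set (X × X)), (∀ i, IsOpen (O i)) ∧ offDiagonal X ⊆ ⋃ i, O i ∧
      (∀ i, ∃ p ∈ offDiagonal X, O i ⊆ W p) ∧ WPF O := by
  obtain ⟨I, V, h1, h2, h3, h4⟩ := wsmOn_of_wsm h W hW
  refine ⟨I, fun i => V i ∩ offDiagonal X, fun i => (h1 i).inter isOpen_offDiagonal,
    fun p hp => ?_, fun i => ?_, h4⟩
  · obtain ⟨i, hi⟩ := mem_iUnion.1 (h2 hp)
    exact mem_iUnion.2 ⟨i, hi, hp⟩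
  · obtain ⟨p, hp, hsub⟩ := h3 i
    exact ⟨p, hp, inter_subset_left.trans hsub⟩

theorem exists_goodCover [T2Space X] (h : WeaklySigmaMetacompact (offDiagonal X)) :
    ∃ (I : Type u) (O : I → Set (X × X)), GoodCover O ∧ WPF O := by
  have h0 : ∀ p : X × X, ∃ U V : Set X, p ∈ offDiagonal X →
      IsOpen U ∧ IsOpen V ∧ p.1 ∈ U ∧ p.2 ∈ V ∧ Disjoint U V := fun p => by
    by_cases hp : p ∈ offDiagonal X
    · obtain ⟨U, V, hUV⟩ := t2_separation hp
      exact ⟨U, V, fun _ => hUV⟩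
    · exact ⟨∅, ∅, fun h => absurd h hp⟩
  choose U V hUV using h0
  obtain ⟨I, O, h1, h2, h3, h4⟩ := exists_cover h (fun p => U p ×ˢ V p) fun p hp =>
    ⟨(hUV p hp).1.prod (hUV p hp).2.1, (hUV p hp).2.2.1, (hUV p hp).2.2.2.1⟩
  refine ⟨I, O, ⟨fun i y => (h1 i).preimage (Continuous.prodMk_left y),
    fun i z => (h1 i).preimage (Continuous.prodMk_right z),
    fun x y hxy => mem_iUnion.1 (h2 hxy), fun i => ?_⟩, h4⟩
  obtain ⟨p, hp, hsub⟩ := h3 i
  exact ⟨U p, V p, (hUV p hp).1, (hUV p hp).2.1, (hUV p hp).2.2.2.2, hsub⟩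

/-- The space itself is weakly σ-metacompact. -/
theorem wsmOn_univ [T2Space X] [Nonempty X] (h : WeaklySigmaMetacompact (offDiagonal X)) :
    WSMOn (univ : Set X) := by
  intro W hW
  let p : X := Classical.arbitrary X
  obtain ⟨I, O, h1, h2, h3, h4⟩ := exists_cover h
    (fun q => Prod.fst ⁻¹' W q.1) fun q _ =>
      ⟨(hW _ (mem_univ _)).1.preimage continuous_fst, (hW _ (mem_univ _)).2⟩
  refine ⟨Option I, fun s => s.elim (W p) fun i => {z | (z, p) ∈ O i}, ?_, fun z _ => ?_, ?_, ?_⟩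
  · rintro (_ | i)
    · exact (hW p (mem_univ _)).1
    · exact (h1 i).preimage (Continuous.prodMk_left p)
  · by_cases hz : z = p
    · exact mem_iUnion.2 ⟨none, hz ▸ (hW p (mem_univ _)).2⟩
    · obtain ⟨i, hi⟩ := mem_iUnion.1 (h2 (show (z, p) ∈ offDiagonal X from hz))
      exact mem_iUnion.2 ⟨some i, hi⟩
  · rintro (_ | i)
    · exact ⟨p, mem_univ _, Subset.rfl⟩
    · obtain ⟨q, -, hq⟩ := h3 i
      exact ⟨q.1, mem_univ _, fun z hz => hq hz⟩
  · obtain ⟨A, hA⟩ := h4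
    refine WPF.of_countable (fun c : Option ℕ => c.elim {none} fun n => some '' A n) ?_
    rintro y (_ | i)
    · exact ⟨none, rfl, (finite_singleton none).subset fun t ht => ht.1⟩
    · obtain ⟨c, hc, hf⟩ := hA (y, p) i
      refine ⟨some c, ⟨i, hc, rfl⟩, (hf.image some).subset ?_⟩
      rintro _ ⟨⟨k, hk, rfl⟩, hy⟩
      exact ⟨k, ⟨hk, hy.1⟩, rfl⟩

/-- In a weakly σ-metacompact Σ-space there is an expandable network modulo compact sets. -/
theorem exists_base (hX : IsSigmaSpace X) (h : WSMOn (univ : Set X)) :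
    ∃ (J : Type u) (L H : J → Set X), (∀ j, IsOpen (H j)) ∧ (∀ j, L j ⊆ H j) ∧ WPF H ∧
      ∀ x, ∃ K, IsCompact K ∧ ∀ U, IsOpen U → K ⊆ U → ∃ j, x ∈ L j ∧ L j ⊆ U := by
  obtain ⟨ℱ, 𝒞, h1, h2, h3, h4⟩ := hX
  have h5 : ∀ n, ∃ (S : Type u) (V : S → Set X), (∀ s, IsOpen (V s)) ∧ univ ⊆ ⋃ s, V s ∧
      (∀ s, {F : ℱ n | ((F : Set X) ∩ V s).Nonempty}.Finite) ∧ WPF V := by
    intro n
    choose t ht hf using h1 n
    obtain ⟨S, V, g1, g2, g3, g4⟩ := h (fun x => interior (t x)) fun x _ =>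
      ⟨isOpen_interior, mem_interior_iff_mem_nhds.2 (ht x)⟩
    refine ⟨S, V, g1, g2, fun s => ?_, by simpa using g4⟩
    obtain ⟨y, -, hy⟩ := g3 s
    exact (hf y).subset fun F hF => hF.mono (inter_subset_inter_right _ (hy.trans interior_subset))
  choose S V g1 g2 g3 g4 using h5
  refine ⟨Σ n, {q : S n × ℱ n // ((q.2 : Set X) ∩ V n q.1).Nonempty},
    fun j => (j.2.1.2 : Set X) ∩ V j.1 j.2.1.1, fun j => V j.1 j.2.1.1, fun j => g1 _ _,
    fun j => inter_subset_right, ?_, fun x => ?_⟩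
  · refine WPF.sigma (G := fun n (q : {q : S n × ℱ n // ((q.2 : Set X) ∩ V n q.1).Nonempty}) =>
      V n q.1.1) fun n => ?_
    refine (g4 n).comp id (fun q => q.1.1) (fun q => Subset.rfl) fun s => ?_
    refine Finite.of_finite_image (f := fun q => q.1.2) ((g3 n s).subset ?_) ?_
    · rintro _ ⟨q, hq, rfl⟩
      have := q.2
      rwa [hq.1] at this
    · intro a ha b hb hab
      exact Subtype.ext (Prod.ext (ha.1.trans hb.1.symm) hab)
  · obtain ⟨K, hK, hxK⟩ := h3.symm.subset (mem_univ x)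
    refine ⟨K, ?_, fun U hU hKU => ?_⟩
    · have := h.of_isClosed_inter (h2 K hK).1
      rw [univ_inter] at this
      exact this.isCompact (h2 K hK).2
    · obtain ⟨n, F, hF, hKF, hFU⟩ := h4 K hK U hU hKU
      obtain ⟨s, hs⟩ := mem_iUnion.1 (g2 n (mem_univ x))
      exact ⟨⟨n, ⟨(s, ⟨F, hF⟩), x, hKF hxK, hs⟩⟩, ⟨hKF hxK, hs⟩, inter_subset_left.trans hFU⟩

theorem exists_expNet [T2Space X] (hX : IsSigmaSpace X)
    (h : WeaklySigmaMetacompact (offDiagonal X)) :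
    ∃ (S : Type u) (N G : S → Set X), IsExpNet N G := by
  rcases isEmpty_or_nonempty X with hE | hE
  · exact ⟨PEmpty, fun s => s.elim, fun s => s.elim, fun s => s.elim, fun s => s.elim,
      ⟨fun _ => ∅, fun y => isEmptyElim y⟩, fun y => isEmptyElim y⟩
  obtain ⟨I, O, hO, hw⟩ := exists_goodCover h
  obtain ⟨A, hA⟩ := hw.exists_gauge
  obtain ⟨J, L, H, h1, h2, h3, h4⟩ := exists_base hX (wsmOn_univ h)
  refine ⟨Node I J, nodeN O A L, nodeG O A L H,
    nodeG_ind isOpen_univ (fun _ _ => IsOpen.inter) h1 hO.open_left, nodeN_subset h2,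
    wpf_nodeG hA h3, fun x U hU hx => ?_⟩
  obtain ⟨K, hK, hL⟩ := h4 x
  exact step_two hO hA h2 hK hL hU hx

theorem IsLindelofSigma.isSigmaSpace [T2Space X] (h : IsLindelofSigma X) : IsSigmaSpace X := by
  obtain ⟨𝒩, 𝒞, h1, h2, h3, h4⟩ := h
  obtain ⟨e, he⟩ := (h1.insert ∅).exists_eq_range (insert_nonempty _ _)
  refine ⟨fun n => {e n}, 𝒞, fun n => locallyFinite_of_finite _,
    fun K hK => ⟨(h2 K hK).isClosed, (h2 K hK).isCountablyCompact⟩, h3, fun K hK U hU hKU => ?_⟩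
  obtain ⟨N, hN, hKN⟩ := h4 K hK U hU hKU
  obtain ⟨n, rfl⟩ := he.subset (mem_insert_of_mem _ hN)
  exact ⟨n, _, rfl, hKN⟩

theorem isLindelofSigma_of_compact [CompactSpace X] : IsLindelofSigma X :=
  ⟨{univ}, {univ}, countable_singleton _, fun _ hK => hK ▸ isCompact_univ, sUnion_singleton _,
    fun _ hK _ _ hKU => ⟨univ, rfl, subset_univ _, hK ▸ hKU⟩⟩

end Pool.Agent.P.MP_294ed4_gt
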