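import Pool.Agent.P.MP_294ed4_gt.Shrink

open Set Filter Topology

namespace Pool.Agent.P.MP_294ed4_gt

universe u v

variable {X : Type u}

/-- The stages of the ring generated by a set of functions. -/
def genStage (Y : Set (X → ℝ)) : ℕ → Set (X → ℝ)
  | 0 => Y
  | n + 1 => genStage Y n ∪ (image2 (· + ·) (genStage Y n) (genStage Y n) ∪
      image2 (· * ·) (genStage Y n) (genStage Y n))

theorem genStage_mono (Y : Set (X → ℝ)) : Monotone (genStage Y) :=
  monotone_nat_of_le_succ fun _ => subset_union_left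

theorem lsig_genStage {Y : Set (X → ℝ)} (h : LSig Y) : ∀ n, LSig (genStage Y n)
  | 0 => h
  | n + 1 => (lsig_genStage h n).union
      (((lsig_genStage h n).image2 (lsig_genStage h n) continuous_add).union
        ((lsig_genStage h n).image2 (lsig_genStage h n) continuous_mul))

theorem continuous_genStage [TopologicalSpace X] {Y : Set (X → ℝ)} (h : ∀ g ∈ Y, Continuous g) :
    ∀ n, ∀ g ∈ genStage Y n, Continuous g
  | 0 => h
  | n + 1 => by
    rintro g (hg | ⟨a, ha, b, hb, rfl⟩ | ⟨a, ha, b, hb, rfl⟩)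
    · exact continuous_genStage h n g hg
    · exact (continuous_genStage h n a ha).add (continuous_genStage h n b hb)
    · exact (continuous_genStage h n a ha).mul (continuous_genStage h n b hb)

theorem exists_lsig_of_separating [TopologicalSpace X] {S : Type v} (f : S → X → ℝ)
    (f1 : ∀ s, Continuous (f s)) (f2 : ∀ s x, f s x ∈ Icc (0 : ℝ) 1)
    (f3 : LSig (insert 0 (range f))) (f4 : ∀ x y, x ≠ y → ∃ s, f s x ≠ f s y) :
    ∃ A : Set (X → ℝ), LSig A ∧ (∀ g ∈ A, Continuous g) ∧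
      ∀ K : Set X, IsCompact K → ∀ u : X → ℝ, Continuous u → ∃ g ∈ A, EqOn g u K := by
  let Y : Set (X → ℝ) := insert 0 (range f) ∪ (fun (c : ℝ) (_ : X) => c) '' univ
  have hY : LSig Y := f3.union (lsig_real.image (continuous_pi fun _ => continuous_id))
  have hYc : ∀ g ∈ Y, Continuous g := by
    rintro g ((rfl | ⟨s, rfl⟩) | ⟨c, -, rfl⟩)
    · exact continuous_zero
    · exact f1 s
    · exact continuous_const
  let B : Set (X → ℝ) := ⋃ n, genStage Y n
  have hB : LSig B := LSig.iUnion (lsig_genStage hY)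
  have hBc : ∀ g ∈ B, Continuous g := fun g hg => by
    obtain ⟨n, hn⟩ := mem_iUnion.1 hg
    exact continuous_genStage hYc n g hn
  have hop : ∀ a ∈ B, ∀ b ∈ B, a + b ∈ B ∧ a * b ∈ B := fun a ha b hb => by
    obtain ⟨n, hn⟩ := mem_iUnion.1 ha
    obtain ⟨m, hm⟩ := mem_iUnion.1 hb
    have h1 := genStage_mono Y (le_max_left n m) hn
    have h2 := genStage_mono Y (le_max_right n m) hm
    exact ⟨mem_iUnion.2 ⟨max n m + 1, Or.inr (Or.inl ⟨a, h1, b, h2, rfl⟩)⟩,
      mem_iUnion.2 ⟨max n m + 1, Or.inr (Or.inr ⟨a, h1, b, h2, rfl⟩)⟩⟩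
  have hYB : Y ⊆ B := subset_iUnion (genStage Y) 0
  let ball : ℕ → Set (X → ℝ) := fun n =>
    Set.pi univ fun _ => Icc (-(1 / ((n : ℝ) + 1))) (1 / ((n : ℝ) + 1))
  have hball : ∀ n, IsCompact (ball n) := fun n => isCompact_univ_pi fun _ => isCompact_Icc
  refine ⟨⋂ n, image2 (· + ·) B (ball n),
    LSig.iInter fun n => hB.image2 (lsig_of_isCompact (hball n)) continuous_add, ?_, ?_⟩
  · intro g hg
    refine continuous_of_uniform_approx_of_continuous fun W hW => ?_
    obtain ⟨ε, hε, hW⟩ := Metric.mem_uniformity_dist.1 hW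
    obtain ⟨n, hn⟩ := exists_nat_one_div_lt hε
    obtain ⟨b, hb, r, hr, rfl⟩ := mem_iInter.1 hg n
    refine ⟨b, hBc b hb, fun y => hW ?_⟩
    have := hr y (mem_univ _)
    show dist (b y + r y) (b y) < ε
    rw [Real.dist_eq, add_sub_cancel_left]
    exact (abs_le.2 this).trans_lt hn
  · intro K hK u hu
    let φ : X → S → unitInterval := fun x s => ⟨f s x, f2 s x⟩
    have hφ : Continuous φ := continuous_pi fun s => (f1 s).subtype_mk _
    have hφi : Function.Injective φ := fun x y hxy => by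
      by_contra hne
      obtain ⟨s, hs⟩ := f4 x y hne
      exact hs (congrArg Subtype.val (congrFun hxy s))
    have : CompactSpace K := isCompact_iff_compactSpace.1 hK
    have he : IsClosedEmbedding (φ ∘ (Subtype.val : K → X)) :=
      (hφ.comp continuous_subtype_val).isClosedEmbedding (hφi.comp Subtype.val_injective)
    obtain ⟨h, hh⟩ := ContinuousMap.exists_extension' he
      (⟨u ∘ Subtype.val, hu.comp continuous_subtype_val⟩ : C(K, ℝ))
    let 𝒜 : Subalgebra ℝ C(S → unitInterval, ℝ) :=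
      { carrier := {g | (fun x => g (φ x)) ∈ B}
        mul_mem' := fun {a b} ha hb => (hop _ ha _ hb).2
        add_mem' := fun {a b} ha hb => (hop _ ha _ hb).1
        algebraMap_mem' := fun c => hYB (Or.inr ⟨c, mem_univ _, by ext x; simp⟩) }
    have hsep : 𝒜.SeparatesPoints := fun p q hpq => by
      obtain ⟨s, hs⟩ := Function.ne_iff.1 hpq
      refine ⟨_, ⟨⟨fun p => (p s : ℝ), continuous_subtype_val.comp (continuous_apply s)⟩,
        hYB (Or.inl (Or.inr ⟨s, rfl⟩)), rfl⟩, fun h => hs (Subtype.ext h)⟩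
    refine ⟨fun x => h (φ x), mem_iInter.2 fun n => ?_, fun x hx => congrFun hh ⟨x, hx⟩⟩
    obtain ⟨g, hg⟩ := ContinuousMap.exists_mem_subalgebra_near_continuous_of_separatesPoints 𝒜
      hsep h h.continuous (1 / ((n : ℝ) + 1)) Nat.one_div_pos_of_nat
    refine ⟨_, g.2, fun x => h (φ x) - (g : C(S → unitInterval, ℝ)) (φ x), fun x _ => ?_, ?_⟩
    · have := hg (φ x)
      rw [Real.norm_eq_abs, abs_sub_comm] at this
      exact abs_le.1 this.le
    · ext x
      simp

theorem exists_lindelofSigma_subspace [TopologicalSpace X] [T3Space X] (hX : IsLindelofSigma X)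
    (h : WeaklySigmaMetacompact (offDiagonal X)) :
    ∃ A : Set (Cp X), IsLindelofSigma A ∧
      ∀ K : Set X, IsCompact K → ∀ f : Cp X, ∃ g ∈ A, ∀ x ∈ K, g.1 x = f.1 x := by
  obtain ⟨S, f, f1, f2, f3, f4⟩ := exists_separating hX h
  obtain ⟨A, h1, h2, h3⟩ := exists_lsig_of_separating f f1 f2 (lsig_of_wpf f f3) f4
  refine ⟨Subtype.val ⁻¹' A, h1.of_isInducing
    (IsInducing.subtypeVal.comp IsInducing.subtypeVal) ?_, fun K hK u => ?_⟩
  · refine Subset.antisymm ?_ fun g hg => ⟨⟨⟨g, h2 g hg⟩, hg⟩, rfl⟩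
    rintro _ ⟨g, rfl⟩
    exact g.2
  · obtain ⟨g, hg, hgu⟩ := h3 K hK u.1 u.2
    exact ⟨⟨g, h2 g hg⟩, hg, hgu⟩

theorem IsLindelofSigma.of_eq_univ {Y : Type u} [TopologicalSpace Y] {A : Set Y}
    (h : IsLindelofSigma A) (hA : A = univ) : IsLindelofSigma Y := by
  have h1 := h.lsig.image (continuous_subtype_val (p := fun y => y ∈ A))
  refine h1.of_isInducing IsInducing.id ?_
  subst hA
  simp

end Pool.Agent.P.MP_294ed4_gt
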