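import Pool.Agent.P.MP_294ed4_gt.QOne
import Pool.Agent.P.MP_294ed4_gt.LSig

open Set Filter Topology

namespace Pool.Agent.P.MP_294ed4_gt

universe u v

/-- Countable-to-one shrinking. -/
theorem exists_countable_to_one {P : Type u} {I : Type v} (Z : Set P) (O : I → Set P)
    (R : P → Set P) (k : P → I) (hR : ∀ p ∈ Z, p ∈ R p ∧ R p ⊆ O (k p))
    (hE : ∀ i, ∃ E : Set P, E.Countable ∧ E ⊆ Z ∧ O i ⊆ ⋃ p ∈ E, R p) :
    ∃ T ⊆ Z, Z ⊆ ⋃ p ∈ T, R p ∧ ∀ i, {p ∈ T | k p = i}.Countable := by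
  choose E hE1 hE2 hE3 using hE
  let D : I → ℕ → Set I := fun i n => Nat.rec {i} (fun _ Q => ⋃ a ∈ Q, k '' E a) n
  have hD : ∀ i n, (D i n).Countable := fun i n => by
    induction n with
    | zero => exact countable_singleton _
    | succ n ih => exact ih.biUnion fun a _ => (hE1 a).image k
  let Hull : I → Set P := fun i => ⋃ n, ⋃ a ∈ D i n, O a
  obtain ⟨r, hr⟩ := exists_wellFoundedLT I
  have hne : ∀ q : Z, {i | (q : P) ∈ Hull i}.Nonempty := fun q =>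
    ⟨k q, mem_iUnion.2 ⟨0, mem_iUnion₂.2 ⟨k q, rfl, (hR q q.2).2 (hR q q.2).1⟩⟩⟩
  let m : Z → I := fun q => wellFounded_lt.min _ (hne q)
  have hm1 : ∀ q : Z, (q : P) ∈ Hull (m q) := fun q => wellFounded_lt.min_mem _ (hne q)
  have hm2 : ∀ (q : Z) i, (q : P) ∈ Hull i → m q ≤ i := fun q i hi =>
    wellFounded_lt.min_le (s := {i | (q : P) ∈ Hull i}) hi
  have hp : ∀ q : Z, ∃ p, (∃ n, ∃ a ∈ D (m q) n, p ∈ E a) ∧ (q : P) ∈ R p := fun q => by
    obtain ⟨n, hn⟩ := mem_iUnion.1 (hm1 q)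
    obtain ⟨a, ha, hqa⟩ := mem_iUnion₂.1 hn
    obtain ⟨p, hp, hqp⟩ := mem_iUnion₂.1 (hE3 a hqa)
    exact ⟨p, ⟨n, a, ha, hp⟩, hqp⟩
  choose p hp1 hp2 using hp
  have hpZ : ∀ q, p q ∈ Z := fun q => by
    obtain ⟨n, a, -, h⟩ := hp1 q
    exact hE2 a h
  have hle : ∀ q q', k (p q) = k (p q') → m q' ≤ m q := fun q q' h => by
    obtain ⟨n, a, ha, hpa⟩ := hp1 q
    refine hm2 q' _ (mem_iUnion.2 ⟨n + 1, mem_iUnion₂.2 ⟨k (p q), ?_, ?_⟩⟩)
    · exact mem_iUnion₂.2 ⟨a, ha, p q, hpa, rfl⟩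
    · rw [h]
      exact (hR _ (hpZ q')).2 (hp2 q')
  refine ⟨range p, range_subset_iff.2 hpZ, fun q hq => mem_iUnion₂.2
    ⟨p ⟨q, hq⟩, mem_range_self _, hp2 ⟨q, hq⟩⟩, fun i => ?_⟩
  rcases {x ∈ range p | k x = i}.eq_empty_or_nonempty with h | ⟨_, ⟨q, rfl⟩, hq⟩
  · rw [h]
    exact countable_empty
  · refine (countable_iUnion fun n => (hD (m q) n).biUnion fun a _ => hE1 a).mono ?_
    rintro _ ⟨⟨q', rfl⟩, hq'⟩
    have : m q = m q' := le_antisymm (hle q' q (hq'.trans hq.symm)) (hle q q' (hq.trans hq'.symm))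
    obtain ⟨n, a, ha, hpa⟩ := hp1 q'
    exact mem_iUnion.2 ⟨n, mem_iUnion₂.2 ⟨a, this ▸ ha, hpa⟩⟩

theorem WPF.comp_countable {Y : Type u} {S : Type v} {S' : Type*} {G : S → Set Y} (h : WPF G)
    (j : S' → S) {G' : S' → Set Y} (hG : ∀ s, G' s ⊆ G (j s))
    (hj : ∀ s, {t | j t = s}.Countable) : WPF G' := by
  choose e he using fun s => countable_iff_exists_injOn.1 (hj s)
  obtain ⟨A, hA⟩ := h
  refine WPF.of_countable (fun c : ℕ × ℕ => {t | j t ∈ A c.1 ∧ e (j t) t = c.2}) fun y s => ?_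
  obtain ⟨c, hc, hf⟩ := hA y (j s)
  refine ⟨(c, e (j s) s), ⟨hc, rfl⟩, Finite.of_finite_image (f := j) (hf.subset ?_) ?_⟩
  · rintro _ ⟨t, ht, rfl⟩
    exact ⟨ht.1.1, hG t ht.2⟩
  · intro a ha b hb hab
    refine he (j a) rfl hab.symm ?_
    have h1 : e (j a) a = e (j s) s := ha.1.2
    have h2 : e (j b) b = e (j s) s := hb.1.2
    rw [h1, hab, h2]

variable {X : Type u} [TopologicalSpace X]

/-- Cozero sets of continuous functions with values in the unit interval. -/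
def IsCoz (U : Set X) : Prop :=
  ∃ f : X → ℝ, Continuous f ∧ (∀ x, f x ∈ Icc (0 : ℝ) 1) ∧ U = {x | f x ≠ 0}

theorem isCoz_univ : IsCoz (univ : Set X) :=
  ⟨fun _ => 1, continuous_const, fun _ => ⟨zero_le_one, le_rfl⟩, by simp⟩

theorem isCoz_empty : IsCoz (∅ : Set X) :=
  ⟨fun _ => 0, continuous_const, fun _ => ⟨le_rfl, zero_le_one⟩, by simp⟩

theorem IsCoz.inter {U V : Set X} (h : IsCoz U) (h' : IsCoz V) : IsCoz (U ∩ V) := by
  obtain ⟨f, f1, f2, rfl⟩ := h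
  obtain ⟨g, g1, g2, rfl⟩ := h'
  refine ⟨fun x => f x * g x, f1.mul g1, fun x => unitInterval.mul_mem (f2 x) (g2 x), ?_⟩
  ext x
  simp

theorem IsCoz.isOpen {U : Set X} (h : IsCoz U) : IsOpen U := by
  obtain ⟨f, f1, -, rfl⟩ := h
  exact isOpen_ne_fun f1 continuous_const

theorem exists_isCoz [T1Space X] [NormalSpace X] {x : X} {U : Set X} (hU : IsOpen U)
    (hx : x ∈ U) : ∃ V, IsCoz V ∧ x ∈ V ∧ V ⊆ U := by
  obtain ⟨f, f0, f1, f2⟩ := exists_continuous_zero_one_of_isClosed hU.isClosed_compl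
    (isClosed_singleton (x := x)) (disjoint_singleton_right.2 fun h => h hx)
  refine ⟨_, ⟨f, f.continuous, f2, rfl⟩, ?_, fun y hy => ?_⟩
  · have : f x = 1 := f1 rfl
    simp [this]
  · by_contra h
    exact hy (f0 h)

/-- A weakly σ-point-finite cover of the complement of the diagonal by cozero rectangles. -/
theorem exists_cozCover [T3Space X] (hX : IsLindelofSigma X)
    (h : WeaklySigmaMetacompact (offDiagonal X)) :
    ∃ (I : Type u) (O : I → Set (X × X)), GoodCover O ∧ WPF O ∧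
      ∀ i y, IsCoz {z | (z, y) ∈ O i} := by
  classical
  have : LindelofSpace X := ⟨hX.lsig.isLindelof⟩
  have hXX : IsLindelof (univ : Set (X × X)) := by
    rw [← univ_prod_univ]
    exact (hX.lsig.prod hX.lsig).isLindelof
  have h0 : ∀ p : X × X, ∃ U V : Set X, p ∈ offDiagonal X →
      p.1 ∈ interior U ∧ p.2 ∈ interior V ∧ IsClosed U ∧ IsClosed V ∧ Disjoint U V := fun p => by
    by_cases hp : p ∈ offDiagonal X
    · obtain ⟨U, V, hU, hV, h1, h2, h3⟩ := t2_separation hp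
      obtain ⟨U', g1, g2, g3⟩ := exists_mem_nhds_isClosed_subset (hU.mem_nhds h1)
      obtain ⟨V', g4, g5, g6⟩ := exists_mem_nhds_isClosed_subset (hV.mem_nhds h2)
      exact ⟨U', V', fun _ => ⟨mem_interior_iff_mem_nhds.2 g1, mem_interior_iff_mem_nhds.2 g4,
        g2, g5, h3.mono g3 g6⟩⟩
    · exact ⟨∅, ∅, fun h => absurd h hp⟩
  choose U V hUV using h0
  obtain ⟨I, O, h1, h2, h3, h4⟩ := exists_cover h (fun p => interior (U p) ×ˢ interior (V p))
    fun p hp => ⟨isOpen_interior.prod isOpen_interior, (hUV p hp).1, (hUV p hp).2.1⟩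
  rcases isEmpty_or_nonempty I with hI | hI
  · exact ⟨I, O, ⟨fun i => isEmptyElim i, fun i => isEmptyElim i,
      fun x y hxy => mem_iUnion.1 (h2 hxy), fun i => isEmptyElim i⟩, h4, fun i => isEmptyElim i⟩
  have h5 : ∀ p : X × X, ∃ (i : I) (A B : Set X), IsCoz A ∧ IsCoz B ∧
      (p ∈ offDiagonal X → p ∈ A ×ˢ B ∧ A ×ˢ B ⊆ O i) := fun p => by
    by_cases hp : p ∈ offDiagonal X
    · obtain ⟨i, hi⟩ := mem_iUnion.1 (h2 hp)
      obtain ⟨A, B, hA, hB, g1, g2, g3⟩ := isOpen_prod_iff.1 (h1 i) p.1 p.2 hi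
      obtain ⟨A', a1, a2, a3⟩ := exists_isCoz hA g1
      obtain ⟨B', b1, b2, b3⟩ := exists_isCoz hB g2
      exact ⟨i, A', B', a1, b1, fun _ => ⟨⟨a2, b2⟩, (prod_mono a3 b3).trans g3⟩⟩
    · exact ⟨Classical.arbitrary I, ∅, ∅, isCoz_empty, isCoz_empty, fun h => absurd h hp⟩
  choose k A B hA hB hAB using h5
  obtain ⟨T, hT1, hT2, hT3⟩ := exists_countable_to_one (offDiagonal X) O
    (fun p => A p ×ˢ B p) k hAB fun i => by
      obtain ⟨p, hp, hsub⟩ := h3 i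
      have hsub' : U p ×ˢ V p ⊆ offDiagonal X := fun q hq hqq =>
        Set.disjoint_left.1 (hUV p hp).2.2.2.2 hq.1 (hqq ▸ hq.2)
      obtain ⟨t, g1, g2, g3⟩ := (hXX.of_isClosed_subset
        ((hUV p hp).2.2.1.prod (hUV p hp).2.2.2.1) (subset_univ _)).elim_nhds_subcover
        (fun q => A q ×ˢ B q) fun q hq =>
          ((hA q).isOpen.prod (hB q).isOpen).mem_nhds (hAB q (hsub' hq)).1
      exact ⟨t, g1, fun q hq => hsub' (g2 q hq),
        (hsub.trans (prod_mono interior_subset interior_subset)).trans g3⟩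
  have hopen : ∀ p : T, IsOpen (A p ×ˢ B p) := fun p => (hA p).isOpen.prod (hB p).isOpen
  refine ⟨T, fun p => A p ×ˢ B p, ⟨fun i y => (hopen i).preimage (Continuous.prodMk_left y),
    fun i z => (hopen i).preimage (Continuous.prodMk_right z), fun x y hxy => ?_, fun i => ?_⟩,
    h4.comp_countable (fun p : T => k p) (fun p : T => (hAB p (hT1 p.2)).2) fun i => ?_,
    fun i y => ?_⟩
  · obtain ⟨p, hp, hxp⟩ := mem_iUnion₂.1 (hT2 (show (x, y) ∈ offDiagonal X from hxy))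
    exact ⟨⟨p, hp⟩, hxp⟩
  · obtain ⟨p, hp, hsub⟩ := h3 (k i)
    exact ⟨_, _, isOpen_interior, isOpen_interior,
      (hUV p hp).2.2.2.2.mono interior_subset interior_subset, (hAB i (hT1 i.2)).2.trans hsub⟩
  · refine Countable.mono ?_ ((hT3 i).preimage (f := fun p : T => (p : X × X))
      Subtype.val_injective)
    exact fun p hp => ⟨p.2, hp⟩
  · by_cases hy : y ∈ B i
    · simpa [hy] using hA i
    · simpa [hy] using isCoz_empty

/-- A weakly σ-point-finite family of cozero sets that separates the points. -/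
theorem exists_separating [T3Space X] (hX : IsLindelofSigma X)
    (h : WeaklySigmaMetacompact (offDiagonal X)) :
    ∃ (S : Type u) (f : S → X → ℝ), (∀ s, Continuous (f s)) ∧ (∀ s x, f s x ∈ Icc (0 : ℝ) 1) ∧
      WPF (fun s => {x | f s x ≠ 0}) ∧ ∀ x y, x ≠ y → ∃ s, f s x ≠ f s y := by
  rcases isEmpty_or_nonempty X with hE | hE
  · exact ⟨PEmpty, fun s => s.elim, fun s => s.elim, fun s => s.elim,
      ⟨fun _ => ∅, fun y => isEmptyElim y⟩, fun y => isEmptyElim y⟩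
  obtain ⟨I, O, hO, hw, hc⟩ := exists_cozCover hX h
  obtain ⟨A, hA⟩ := hw.exists_gauge
  obtain ⟨𝒩, 𝒞, h1, h2, h3, h4⟩ := hX
  obtain ⟨e, he⟩ := (h1.insert ∅).exists_eq_range (insert_nonempty _ _)
  let L : ℕ × ℕ → Set X := fun j => e j.1 ∪ e j.2
  let H : ℕ × ℕ → Set X := fun _ => univ
  have hH : WPF H := WPF.of_countable (fun j : ℕ × ℕ => {j}) fun y j =>
    ⟨j, rfl, (finite_singleton j).subset fun t ht => ht.1⟩
  choose f f1 f2 f3 using nodeG_ind (O := O) (A := A) (L := L) (H := H) isCoz_univ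
    (fun _ _ => IsCoz.inter) (fun _ => isCoz_univ) hc
  refine ⟨Node I (ℕ × ℕ), f, f1, f2, (wpf_nodeG hA hH).mono fun s => (f3 s).symm.subset,
    fun x y hxy => ?_⟩
  by_contra hcon
  push Not at hcon
  have hsame : ∀ s, x ∈ nodeG O A L H s ↔ y ∈ nodeG O A L H s := fun s => by
    simp [f3 s, hcon s]
  obtain ⟨K, hK, hxK⟩ := h3.symm.subset (mem_univ x)
  obtain ⟨K', hK', hyK⟩ := h3.symm.subset (mem_univ y)
  refine hxy (step_one (H := H) (L := L) hO hA
    (fun s hs => (hsame s).1 (nodeN_subset (fun _ => subset_univ _) s hs))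
    (fun s hs => (hsame s).2 (nodeN_subset (fun _ => subset_univ _) s hs))
    ((h2 K hK).union (h2 K' hK')) fun U hU hKU => ?_).1
  obtain ⟨N, hN, g1, g2⟩ := h4 K hK U hU (subset_union_left.trans hKU)
  obtain ⟨N', hN', g3, g4⟩ := h4 K' hK' U hU (subset_union_right.trans hKU)
  obtain ⟨n, rfl⟩ := he.subset (mem_insert_of_mem _ hN)
  obtain ⟨n', rfl⟩ := he.subset (mem_insert_of_mem _ hN')
  exact ⟨(n, n'), Or.inl (g1 hxK), Or.inr (g3 hyK), union_subset g2 g4⟩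

end Pool.Agent.P.MP_294ed4_gt
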