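import Pool.Agent.P.MP_294ed4_gt.WPF

open Set Filter Topology

namespace Pool.Agent.P.MP_294ed4_gt

universe u v w

/-- Nodes of the construction. -/
inductive Node (I : Type v) (J : Type w) : Type (max v w)
  | base (j : J) : Node I J
  | inter (s t : Node I J) : Node I J
  | step (s : Node I J) (c : ℕ) (F : Finset I) : Node I J

variable {X : Type u} {I : Type v} {J : Type w}

/-- A chosen point of a set. -/
noncomputable def pt [Nonempty X] (S : Set X) : X := Classical.epsilon fun x => x ∈ S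

theorem pt_mem [Nonempty X] {S : Set X} (h : S.Nonempty) : pt S ∈ S :=
  Classical.epsilon_spec (p := fun x => x ∈ S) h

/-- The network sets. -/
def nodeN [Nonempty X] (O : I → Set (X × X)) (A : ℕ → Set I) (L : J → Set X) :
    Node I J → Set X
  | .base j => L j
  | .inter s t => nodeN O A L s ∩ nodeN O A L t
  | .step s c F => nodeN O A L s ∩ {z | (∀ i ∈ F, (z, pt (nodeN O A L s)) ∈ O i) ∧
      ∀ i ∈ A c, (z, pt (nodeN O A L s)) ∈ O i → i ∈ F}

/-- The open expansions. -/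
def nodeG [Nonempty X] (O : I → Set (X × X)) (A : ℕ → Set I) (L H : J → Set X) :
    Node I J → Set X
  | .base j => H j
  | .inter s t => nodeG O A L H s ∩ nodeG O A L H t
  | .step s _ F => nodeG O A L H s ∩ {z | ∀ i ∈ F, (z, pt (nodeN O A L s)) ∈ O i}

/-- Codes for the gauge on nodes. -/
def Fits (A : ℕ → Set I) (B : ℕ → Set J) : Node I J → ℕ → Prop
  | .base j, n => ∃ b, n = Nat.pair 0 b ∧ j ∈ B b
  | .inter s t, n => ∃ a b, n = Nat.pair 1 (Nat.pair a b) ∧ Fits A B s a ∧ Fits A B t b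
  | .step s c F, n => ∃ a d, n = Nat.pair 2 (Nat.pair a (Nat.pair c d)) ∧ Fits A B s a ∧
      (F : Set I) ⊆ A d

variable [Nonempty X] {O : I → Set (X × X)} {A : ℕ → Set I} {L H : J → Set X}

theorem nodeN_subset (hLH : ∀ j, L j ⊆ H j) : ∀ s, nodeN O A L s ⊆ nodeG O A L H s
  | .base j => hLH j
  | .inter s t => inter_subset_inter (nodeN_subset hLH s) (nodeN_subset hLH t)
  | .step s _ _ => inter_subset_inter (nodeN_subset hLH s) fun _ hz => hz.1

/-- The expansions stay in any class of sets closed under finite intersections. -/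
theorem nodeG_ind {P : Set X → Prop} (hu : P univ) (hi : ∀ U V, P U → P V → P (U ∩ V))
    (hH : ∀ j, P (H j)) (hO : ∀ i y, P {z | (z, y) ∈ O i}) : ∀ s, P (nodeG O A L H s)
  | .base j => hH j
  | .inter s t => hi _ _ (nodeG_ind hu hi hH hO s) (nodeG_ind hu hi hH hO t)
  | .step s _ F => by
    classical
    refine hi _ _ (nodeG_ind hu hi hH hO s) ?_
    generalize pt (nodeN O A L s) = y
    induction F using Finset.induction_on with
    | empty => simpa using hu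
    | insert i F _ ih =>
      have : {z | ∀ k ∈ insert i F, (z, y) ∈ O k} =
          {z | (z, y) ∈ O i} ∩ {z | ∀ k ∈ F, (z, y) ∈ O k} := by
        ext z; simp
      rw [this]
      exact hi _ _ (hO i y) ih

theorem wpf_nodeG (hA : Gauge O A) (hH : WPF H) : WPF (nodeG O A L H) := by
  obtain ⟨B, hB⟩ := hH
  refine ⟨fun n => {s | Fits A B s n}, fun x s => ?_⟩
  induction s with
  | base j =>
    obtain ⟨b, hb, hf⟩ := hB x j
    refine ⟨Nat.pair 0 b, ⟨b, rfl, hb⟩, (hf.image Node.base).subset ?_⟩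
    rintro (k | ⟨s, t⟩ | ⟨s, c, F⟩) ⟨h1, h2⟩
    · obtain ⟨b', h3, h4⟩ := h1
      rw [Nat.pair_eq_pair] at h3
      exact ⟨k, ⟨h3.2 ▸ h4, h2⟩, rfl⟩
    · obtain ⟨a', b', h3, -⟩ := h1
      simp [Nat.pair_eq_pair] at h3
    · obtain ⟨a', b', h3, -⟩ := h1
      simp [Nat.pair_eq_pair] at h3
  | inter s t ihs iht =>
    obtain ⟨a, ha, hfa⟩ := ihs
    obtain ⟨b, hb, hfb⟩ := iht
    refine ⟨Nat.pair 1 (Nat.pair a b), ⟨a, b, rfl, ha, hb⟩,
      (hfa.image2 Node.inter hfb).subset ?_⟩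
    rintro (k | ⟨s', t'⟩ | ⟨s', c, F⟩) ⟨h1, h2⟩
    · obtain ⟨b', h3, -⟩ := h1
      simp [Nat.pair_eq_pair] at h3
    · obtain ⟨a', b', h3, h4, h5⟩ := h1
      simp only [Nat.pair_eq_pair, true_and] at h3
      obtain ⟨rfl, rfl⟩ := h3
      exact ⟨s', ⟨h4, h2.1⟩, t', ⟨h5, h2.2⟩, rfl⟩
    · obtain ⟨a', b', h3, -⟩ := h1
      simp [Nat.pair_eq_pair] at h3
  | step s c F ih =>
    obtain ⟨a, ha, hfa⟩ := ih
    obtain ⟨d, hd, hfd⟩ := hA _ F (hfa.image fun t => (x, pt (nodeN O A L t))) F.finite_toSet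
    refine ⟨Nat.pair 2 (Nat.pair a (Nat.pair c d)), ⟨a, d, rfl, ha, hd⟩, ?_⟩
    have hfin : ∀ t ∈ {t | t ∈ {s | Fits A B s a} ∧ x ∈ nodeG O A L H t},
        ((fun F' : Finset I => Node.step t c F') '' {F' : Finset I | (F' : Set I) ⊆
          {i | i ∈ A d ∧ (x, pt (nodeN O A L t)) ∈ O i}}).Finite := by
      intro t ht
      refine Finite.image _ ?_
      exact (hfd _ ⟨t, ht, rfl⟩).finite_subsets.preimage Finset.coe_injective.injOn
    refine (hfa.biUnion hfin).subset ?_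
    rintro (k | ⟨s', t'⟩ | ⟨s', c', F'⟩) ⟨h1, h2⟩
    · obtain ⟨b', h3, -⟩ := h1
      simp [Nat.pair_eq_pair] at h3
    · obtain ⟨a', b', h3, -⟩ := h1
      simp [Nat.pair_eq_pair] at h3
    · obtain ⟨a', d', h3, h4, h5⟩ := h1
      simp only [Nat.pair_eq_pair, true_and] at h3
      obtain ⟨rfl, rfl, rfl⟩ := h3
      exact mem_iUnion₂.2 ⟨s', ⟨h4, h2.1⟩, F', fun i hi => ⟨h5 hi, h2.2 i hi⟩, rfl⟩

variable [TopologicalSpace X]

/-- The hypotheses on the cover of the complement of the diagonal: it is separately open and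
refines the cover by products of disjoint open sets. -/
structure GoodCover (O : I → Set (X × X)) : Prop where
  open_left : ∀ i y, IsOpen {z | (z, y) ∈ O i}
  open_right : ∀ i z, IsOpen {y | (z, y) ∈ O i}
  cover : ∀ x y, x ≠ y → ∃ i, (x, y) ∈ O i
  refine : ∀ i, ∃ U V : Set X, IsOpen U ∧ IsOpen V ∧ Disjoint U V ∧ O i ⊆ U ×ˢ V

/-- A nontrivial filter finer than the neighbourhoods of a compact set clusters in it. -/
theorem exists_clusterPt_of_le_nhdsSet {K : Set X} (hK : IsCompact K) {l : Filter X} [l.NeBot]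
    (h : l ≤ 𝓝ˢ K) : ∃ y ∈ K, ClusterPt y l := by
  by_contra hc
  push Not at hc
  have : Disjoint (𝓝ˢ K) l := hK.disjoint_nhdsSet_left.2 fun y hy => by
    have := hc y hy
    rwa [ClusterPt, not_neBot, ← disjoint_iff] at this
  exact (‹l.NeBot›).ne (disjoint_self.1 (this.mono_left h))

/-- First cluster point step, for a pair of points that the expansions do not separate. -/
theorem step_one (hO : GoodCover O) (hA : Gauge O A) {x x' : X}
    (h1 : ∀ s, x ∈ nodeN O A L s → x' ∈ nodeG O A L H s)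
    (h2 : ∀ s, x' ∈ nodeN O A L s → x ∈ nodeG O A L H s)
    {K : Set X} (hK : IsCompact K)
    (hL : ∀ U, IsOpen U → K ⊆ U → ∃ j, x ∈ L j ∧ x' ∈ L j ∧ L j ⊆ U) :
    x = x' ∧ ∀ W, IsOpen W → x ∈ W → ∃ s, x ∈ nodeN O A L s ∧ pt (nodeN O A L s) ∈ W := by
  classical
  let D := {s : Node I J // x ∈ nodeN O A L s ∧ x' ∈ nodeN O A L s}
  let T : D → Set X := fun s => {y | y ∈ nodeN O A L s ∧ ∃ t : D, y = pt (nodeN O A L t)}
  obtain ⟨j0, hj0, hj0', -⟩ := hL univ isOpen_univ (subset_univ _)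
  haveI : Nonempty D := ⟨⟨.base j0, hj0, hj0'⟩⟩
  have hdir : Directed (· ≥ ·) fun s : D => 𝓟 (T s) := fun s t =>
    ⟨⟨.inter s t, ⟨s.2.1, t.2.1⟩, s.2.2, t.2.2⟩, principal_mono.2 fun y hy => ⟨hy.1.1, hy.2⟩,
      principal_mono.2 fun y hy => ⟨hy.1.2, hy.2⟩⟩
  haveI hne : (⨅ s : D, 𝓟 (T s)).NeBot := iInf_neBot_of_directed' hdir fun s =>
    principal_neBot_iff.2 ⟨_, pt_mem ⟨x, s.2.1⟩, s, rfl⟩
  have hT : ∀ s : D, T s ∈ ⨅ s : D, 𝓟 (T s) := fun s => mem_iInf_of_mem s (mem_principal_self _)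
  obtain ⟨y, -, hy⟩ := exists_clusterPt_of_le_nhdsSet hK (l := ⨅ s : D, 𝓟 (T s)) (by
    intro U hU
    obtain ⟨V, hV, hKV, hVU⟩ := mem_nhdsSet_iff_exists.1 hU
    obtain ⟨j, hj, hj', hjV⟩ := hL V hV hKV
    exact mem_of_superset (hT ⟨.base j, hj, hj'⟩) fun z hz => hVU (hjV hz.1))
  have hcl : ∀ W, IsOpen W → y ∈ W → ∀ s : D, (W ∩ T s).Nonempty := fun W hW hyW s =>
    clusterPt_iff_nonempty.1 hy (hW.mem_nhds hyW) (hT s)
  have key : ∀ z, z = x ∨ z = x' → y = z := by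
    intro z hz
    by_contra hyz
    obtain ⟨i, hi⟩ := hO.cover z y (Ne.symm hyz)
    obtain ⟨U, V, hU, hV, hUV, hsub⟩ := hO.refine i
    obtain ⟨w, hw, -, s, rfl⟩ := hcl _ (hO.open_right i z) hi (Classical.arbitrary D)
    obtain ⟨c, hc, hf⟩ := hA {(x, pt (nodeN O A L s)), (x', pt (nodeN O A L s))} {i}
      (toFinite _) (toFinite _)
    have hf1 := hf _ (mem_insert _ _)
    have hf2 := hf _ (mem_insert_of_mem _ (mem_singleton _))
    have hx1 : x ∈ nodeN O A L (.step s c hf1.toFinset) :=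
      ⟨s.2.1, fun k hk => (hf1.mem_toFinset.1 hk).2, fun k hk hk' => hf1.mem_toFinset.2 ⟨hk, hk'⟩⟩
    have hx2 : x' ∈ nodeN O A L (.step s c hf2.toFinset) :=
      ⟨s.2.2, fun k hk => (hf2.mem_toFinset.1 hk).2, fun k hk hk' => hf2.mem_toFinset.2 ⟨hk, hk'⟩⟩
    have hx3 : x' ∈ nodeN O A L (.step s c hf1.toFinset) :=
      ⟨s.2.2, (h1 _ hx1).2, fun k hk hk' => hf1.mem_toFinset.2
        ⟨hk, (h2 _ hx2).2 k (hf2.mem_toFinset.2 ⟨hk, hk'⟩)⟩⟩
    have hiF : i ∈ hf1.toFinset := by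
      rcases hz with rfl | rfl
      · exact hx1.2.2 i (hc rfl) hw
      · exact hx3.2.2 i (hc rfl) hw
    obtain ⟨w', hw'V, hw'T⟩ := hcl V hV (hsub hi).2 ⟨_, hx1, hx3⟩
    exact Set.disjoint_left.1 hUV (hsub (hw'T.1.2.1 i hiF)).1 hw'V
  have hyx := key x (Or.inl rfl)
  refine ⟨hyx.symm.trans (key x' (Or.inr rfl)), fun W hW hxW => ?_⟩
  obtain ⟨w, hw, -, s, rfl⟩ := hcl W hW (hyx ▸ hxW) (Classical.arbitrary D)
  exact ⟨s, s.2.1, hw⟩

/-- Second cluster point step: the sets of the nodes form a network. -/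
theorem step_two (hO : GoodCover O) (hA : Gauge O A) (hLH : ∀ j, L j ⊆ H j) {x : X}
    {K : Set X} (hK : IsCompact K) (hL : ∀ U, IsOpen U → K ⊆ U → ∃ j, x ∈ L j ∧ L j ⊆ U)
    {U : Set X} (hU : IsOpen U) (hx : x ∈ U) : ∃ s, x ∈ nodeN O A L s ∧ nodeN O A L s ⊆ U := by
  classical
  have h1 := (step_one (H := H) hO hA (fun s hs => nodeN_subset hLH s hs)
    (fun s hs => nodeN_subset hLH s hs) hK fun V hV hKV => by
      obtain ⟨j, hj, hjV⟩ := hL V hV hKV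
      exact ⟨j, hj, hj, hjV⟩).2
  by_contra hcon
  push Not at hcon
  let D := {s : Node I J // x ∈ nodeN O A L s}
  let T : D → Set X := fun s => nodeN O A L s \ U
  obtain ⟨j0, hj0, -⟩ := hL univ isOpen_univ (subset_univ _)
  haveI : Nonempty D := ⟨⟨.base j0, hj0⟩⟩
  have hdir : Directed (· ≥ ·) fun s : D => 𝓟 (T s) := fun s t =>
    ⟨⟨.inter s t, s.2, t.2⟩, principal_mono.2 fun y hy => ⟨hy.1.1, hy.2⟩,
      principal_mono.2 fun y hy => ⟨hy.1.2, hy.2⟩⟩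
  haveI hne : (⨅ s : D, 𝓟 (T s)).NeBot := iInf_neBot_of_directed' hdir fun s =>
    principal_neBot_iff.2 (diff_nonempty.2 (hcon s s.2))
  have hT : ∀ s : D, T s ∈ ⨅ s : D, 𝓟 (T s) := fun s => mem_iInf_of_mem s (mem_principal_self _)
  obtain ⟨z, -, hz⟩ := exists_clusterPt_of_le_nhdsSet hK (l := ⨅ s : D, 𝓟 (T s)) (by
    intro W hW
    obtain ⟨V, hV, hKV, hVW⟩ := mem_nhdsSet_iff_exists.1 hW
    obtain ⟨j, hj, hjV⟩ := hL V hV hKV
    exact mem_of_superset (hT ⟨.base j, hj⟩) fun z hz => hVW (hjV hz.1))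
  have hcl : ∀ W, IsOpen W → z ∈ W → ∀ s : D, (W ∩ T s).Nonempty := fun W hW hyW s =>
    clusterPt_iff_nonempty.1 hz (hW.mem_nhds hyW) (hT s)
  have hzx : z ≠ x := by
    rintro rfl
    obtain ⟨w, hw, hw'⟩ := hcl U hU hx (Classical.arbitrary D)
    exact hw'.2 hw
  obtain ⟨i, hi⟩ := hO.cover z x hzx
  obtain ⟨U', V, -, -, hUV, hsub⟩ := hO.refine i
  obtain ⟨s, hs, hw⟩ := h1 _ (hO.open_right i z) hi
  obtain ⟨c, hc, hf⟩ := hA {(x, pt (nodeN O A L s))} {i} (toFinite _) (toFinite _)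
  have hf1 := hf _ (mem_singleton _)
  have hx1 : x ∈ nodeN O A L (.step s c hf1.toFinset) :=
    ⟨hs, fun k hk => (hf1.mem_toFinset.1 hk).2, fun k hk hk' => hf1.mem_toFinset.2 ⟨hk, hk'⟩⟩
  obtain ⟨w, hw1, hw2⟩ := hcl _ (hO.open_left i (pt (nodeN O A L s))) hw ⟨_, hx1⟩
  have hiF : i ∈ hf1.toFinset := hw2.1.2.2 i (hc rfl) hw1
  exact Set.disjoint_left.1 hUV (hsub (hx1.2.1 i hiF)).1 (hsub hi).2

end Pool.Agent.P.MP_294ed4_gt
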