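import Pool.Agent.P.MP_294ed4_gt.Defs

open Set

namespace Pool.Agent.P.MP_294ed4_gt

universe u v

/-- Indexed version of weak σ-point-finiteness. -/
def WPF {Y : Type u} {S : Type v} (G : S → Set Y) : Prop :=
  ∃ A : ℕ → Set S, ∀ y s, ∃ c, s ∈ A c ∧ {t | t ∈ A c ∧ y ∈ G t}.Finite

variable {Y : Type u} {S : Type v}

theorem WPF.of_countable {C : Type*} [Countable C] {G : S → Set Y} (A : C → Set S)
    (h : ∀ y s, ∃ c, s ∈ A c ∧ {t | t ∈ A c ∧ y ∈ G t}.Finite) : WPF G := by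
  obtain ⟨e, he⟩ := exists_surjective_nat (Option C)
  refine ⟨fun n => (e n).elim ∅ A, fun y s => ?_⟩
  obtain ⟨c, hc, hf⟩ := h y s
  obtain ⟨n, hn⟩ := he (some c)
  exact ⟨n, by simpa [hn] using hc, by simpa [hn] using hf⟩

/-- The gauge may be chosen good for finitely many points and finitely many indices at once. -/
def Gauge (G : S → Set Y) (A : ℕ → Set S) : Prop :=
  ∀ (P : Set Y) (F : Set S), P.Finite → F.Finite →
    ∃ c, F ⊆ A c ∧ ∀ y ∈ P, {t | t ∈ A c ∧ y ∈ G t}.Finite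

theorem WPF.exists_gauge {G : S → Set Y} (h : WPF G) : ∃ A, Gauge G A := by
  classical
  obtain ⟨A, hA⟩ := h
  obtain ⟨e, he⟩ := exists_surjective_nat (Finset (Finset ℕ))
  refine ⟨fun n => ⋃ a ∈ e n, ⋂ m ∈ a, A m, fun P F hP hF => ?_⟩
  choose c hc hf using hA
  obtain ⟨n, hn⟩ := he (hF.toFinset.image fun s => hP.toFinset.image fun y => c y s)
  refine ⟨n, fun s hs => ?_, fun y hy => ?_⟩
  · simp only [hn, mem_iUnion, mem_iInter, Finset.mem_image, Finite.mem_toFinset]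
    refine ⟨_, ⟨s, hs, rfl⟩, fun m hm => ?_⟩
    simp only [Finset.mem_image, Finite.mem_toFinset] at hm
    obtain ⟨y, -, rfl⟩ := hm
    exact hc y s
  · refine (hF.biUnion fun s _ => hf y s).subset ?_
    rintro t ⟨ht, hyt⟩
    simp only [hn, mem_iUnion, mem_iInter, Finset.mem_image, Finite.mem_toFinset] at ht
    obtain ⟨a, ⟨s, hs, rfl⟩, ha⟩ := ht
    simp only [mem_iUnion]
    exact ⟨s, hs, ha _ (Finset.mem_image.2 ⟨y, hP.mem_toFinset.2 hy, rfl⟩), hyt⟩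

theorem WPF.mono {G G' : S → Set Y} (h : WPF G) (hG : ∀ s, G' s ⊆ G s) : WPF G' := by
  obtain ⟨A, hA⟩ := h
  refine ⟨A, fun y s => ?_⟩
  obtain ⟨c, hc, hf⟩ := hA y s
  exact ⟨c, hc, hf.subset fun t ht => ⟨ht.1, hG t ht.2⟩⟩

/-- Pull back along a map of spaces and a finite-to-one (on the nonempty members) map of
indices. -/
theorem WPF.comp {Y' : Type*} {S' : Type*} {G : S → Set Y} (h : WPF G) (f : Y' → Y) (j : S' → S)
    {G' : S' → Set Y'} (hG : ∀ s, G' s ⊆ f ⁻¹' G (j s))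
    (hj : ∀ s, {t | j t = s ∧ (G' t).Nonempty}.Finite) : WPF G' := by
  obtain ⟨A, hA⟩ := h
  refine ⟨fun c => j ⁻¹' A c, fun y s => ?_⟩
  obtain ⟨c, hc, hf⟩ := hA (f y) (j s)
  refine ⟨c, hc, (hf.biUnion fun t _ => hj t).subset ?_⟩
  rintro t ⟨ht, hyt⟩
  simp only [mem_iUnion]
  exact ⟨j t, ⟨ht, hG t hyt⟩, rfl, y, hyt⟩

theorem WPF.sigma {C : Type*} [Countable C] {T : C → Type v} {G : ∀ c, T c → Set Y}
    (h : ∀ c, WPF (G c)) : WPF fun s : Σ c, T c => G s.1 s.2 := by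
  choose A hA using h
  refine WPF.of_countable (fun p : C × ℕ => Sigma.mk p.1 '' A p.1 p.2) fun y s => ?_
  obtain ⟨n, hn, hf⟩ := hA s.1 y s.2
  refine ⟨(s.1, n), ⟨s.2, hn, rfl⟩, (hf.image (Sigma.mk s.1)).subset ?_⟩
  rintro t ⟨⟨t', ht', rfl⟩, hy⟩
  exact ⟨t', ⟨ht', hy⟩, rfl⟩

theorem WPF.to_set {G : S → Set Y} (h : WPF G) (T : Set S) :
    WeaklySigmaPointFinite (G '' T) := by
  obtain ⟨A, hA⟩ := h
  refine ⟨fun n => Nat.casesOn n (G '' T) fun m => G '' (T ∩ A m), ?_, fun y => ?_⟩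
  · refine Subset.antisymm (subset_iUnion_of_subset 0 Subset.rfl) (iUnion_subset fun n => ?_)
    cases n with
    | zero => exact Subset.rfl
    | succ m => exact image_mono inter_subset_left
  · refine Subset.antisymm ?_ (iUnion₂_subset fun n _ => ?_)
    · rintro _ ⟨s, hs, rfl⟩
      obtain ⟨c, hc, hf⟩ := hA y s
      refine mem_iUnion₂.2 ⟨c + 1, (hf.image G).subset ?_, s, ⟨hs, hc⟩, rfl⟩
      rintro _ ⟨⟨t, ht, rfl⟩, hy⟩
      exact ⟨t, ⟨ht.2, hy⟩, rfl⟩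
    · cases n with
      | zero => exact Subset.rfl
      | succ m => exact image_mono inter_subset_left

theorem WeaklySigmaPointFinite.wpf {𝒜 : Set (Set Y)} (h : WeaklySigmaPointFinite 𝒜) :
    WPF fun A : 𝒜 => (A : Set Y) := by
  obtain ⟨ℬ, -, h⟩ := h
  refine ⟨fun n => Subtype.val ⁻¹' ℬ n, fun y s => ?_⟩
  have hs : (s : Set Y) ∈ ⋃ n ∈ {n : ℕ | {A ∈ ℬ n | y ∈ A}.Finite}, ℬ n := (h y).subset s.2
  obtain ⟨n, hn, hsn⟩ := mem_iUnion₂.1 hs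
  exact ⟨n, hsn, hn.preimage Subtype.val_injective.injOn⟩

/-- Working form of weak σ-metacompactness of a subset `Z` of a space `Y`. -/
def WSMOn [TopologicalSpace Y] (Z : Set Y) : Prop :=
  ∀ W : Y → Set Y, (∀ y ∈ Z, IsOpen (W y) ∧ y ∈ W y) →
    ∃ (S : Type u) (V : S → Set Y), (∀ s, IsOpen (V s)) ∧ Z ⊆ ⋃ s, V s ∧
      (∀ s, ∃ y ∈ Z, V s ⊆ W y) ∧ WPF fun s => V s ∩ Z

theorem wsmOn_of_wsm [TopologicalSpace Y] {Z : Set Y} (h : WeaklySigmaMetacompact Z) :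
    WSMOn Z := by
  intro W hW
  obtain ⟨𝒱, h1, h2, h3, h4⟩ := h (range fun y : Z => Subtype.val ⁻¹' W y)
    (by rintro _ ⟨y, rfl⟩; exact (hW y y.2).1.preimage continuous_subtype_val)
    (eq_univ_of_forall fun y => ⟨_, ⟨y, rfl⟩, (hW y y.2).2⟩)
  have h5 : ∀ s : 𝒱, ∃ V : Set Y, IsOpen V ∧ Subtype.val ⁻¹' V = (s : Set Z) ∧
      ∃ y ∈ Z, V ⊆ W y := by
    intro s
    obtain ⟨V, hV, hVs⟩ := isOpen_induced_iff.1 (h1 s s.2)
    obtain ⟨_, ⟨y, rfl⟩, hy⟩ := h3 s s.2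
    refine ⟨V ∩ W y, hV.inter (hW y y.2).1, ?_, y, y.2, inter_subset_right⟩
    rw [preimage_inter, hVs, inter_eq_left]
    exact hy
  choose V hV1 hV2 hV3 using h5
  refine ⟨𝒱, V, hV1, fun z hz => ?_, hV3, ?_⟩
  · obtain ⟨s, hs, hzs⟩ := (h2.symm.subset (mem_univ (⟨z, hz⟩ : Z)))
    refine mem_iUnion.2 ⟨⟨s, hs⟩, ?_⟩
    have : (⟨z, hz⟩ : Z) ∈ Subtype.val ⁻¹' V ⟨s, hs⟩ := by rw [hV2]; exact hzs
    exact this
  · obtain ⟨A, hA⟩ := h4.wpf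
    by_cases hZ : Z.Nonempty
    · obtain ⟨z0, hz0⟩ := hZ
      refine ⟨A, fun y s => ?_⟩
      by_cases hy : y ∈ Z
      · obtain ⟨c, hc, hf⟩ := hA ⟨y, hy⟩ s
        refine ⟨c, hc, hf.subset fun t ht => ⟨ht.1, ?_⟩⟩
        show (⟨y, hy⟩ : Z) ∈ (t : Set Z)
        rw [← hV2]
        exact ht.2.1
      · obtain ⟨c, hc, -⟩ := hA ⟨z0, hz0⟩ s
        exact ⟨c, hc, finite_empty.subset fun t ht => hy ht.2.2⟩
    · exact ⟨fun _ => univ, fun y s => ⟨0, mem_univ _,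
        finite_empty.subset fun t ht => hZ ⟨y, ht.2.2⟩⟩⟩

theorem WSMOn.of_isClosed_inter [TopologicalSpace Y] {Z F : Set Y} (h : WSMOn Z)
    (hF : IsClosed F) : WSMOn (Z ∩ F) := by
  classical
  intro W hW
  obtain ⟨S, V, h1, h2, h3, h4⟩ := h (fun y => if y ∈ F then W y else Fᶜ) (fun y hy => by
    by_cases hyF : y ∈ F
    · simpa [hyF] using hW y ⟨hy, hyF⟩
    · simp [hyF, hF])
  refine ⟨{s : S // ∃ y ∈ Z ∩ F, V s ⊆ W y}, fun s => V s, fun s => h1 s, fun z hz => ?_,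
    fun s => s.2, ?_⟩
  · obtain ⟨s, hs⟩ := mem_iUnion.1 (h2 hz.1)
    obtain ⟨y, hy, hsub⟩ := h3 s
    by_cases hyF : y ∈ F
    · exact mem_iUnion.2 ⟨⟨s, y, ⟨hy, hyF⟩, by simpa [hyF] using hsub⟩, hs⟩
    · have := hsub hs
      simp [hyF, hz.2] at this
  · exact h4.comp id Subtype.val (fun s x hx => ⟨hx.1, hx.2.1⟩) fun s =>
      (Subsingleton.finite fun a ha b hb => Subtype.ext (ha.1.trans hb.1.symm))

end Pool.Agent.P.MP_294ed4_gt
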